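import Mathlib

open MeasureTheory Set
open scoped ENNReal

namespace Pool.Agent.HarmV

/-- `I` is a sequence of pairwise non-overlapping closed intervals `[(I k).1, (I k).2] ⊆ [a, b]`. -/
def NonOverlapping (a b : ℝ) (I : ℕ → ℝ × ℝ) : Prop :=
  (∀ k, a ≤ (I k).1 ∧ (I k).1 ≤ (I k).2 ∧ (I k).2 ≤ b) ∧
    Pairwise fun i j => Disjoint (Ioo (I i).1 (I i).2) (Ioo (I j).1 (I j).2)

/-- `g` is of harmonic bounded variation on `[a, b]`. -/
def HBV (a b : ℝ) (g : ℝ → ℝ) : Prop :=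
  ∀ I : ℕ → ℝ × ℝ, NonOverlapping a b I →
    Summable fun k : ℕ => |g (I k).2 - g (I k).1| / ((k : ℝ) + 1)

/-- The total harmonic variation of `g` on `[a, b]`, as an extended nonnegative real. -/
noncomputable def totalHV (a b : ℝ) (g : ℝ → ℝ) : ℝ≥0∞ :=
  ⨆ (I : ℕ → ℝ × ℝ) (_ : NonOverlapping a b I),
    ∑' k : ℕ, ENNReal.ofReal (|g (I k).2 - g (I k).1| / ((k : ℝ) + 1))

end Pool.Agent.HarmV
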