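import Mathlib
import Pool.Agent.MP_7bd4cc_an.Defs

open MeasureTheory Set
open scoped ENNReal Real

namespace Pool.Agent.HarmV

/-- The square `Q = [-π, π]²`. -/
def Q : Set (ℝ × ℝ) := Icc (-π) π ×ˢ Icc (-π) π

/-- The class `V^1_{H,1}`: `f` is integrable on `Q`, and for each of the two coordinates there is a
function `f₁` (resp. `f₂`), equal to `f` almost everywhere on `Q`, whose restriction to almost every
line parallel to that coordinate axis is of harmonic bounded variation, and whose total harmonic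
variation along these lines, as a function of the other coordinate, lies in `L¹([-π, π])`. -/
structure MemV1H1 (f : ℝ × ℝ → ℝ) : Prop where
  integrable : IntegrableOn f Q
  first : ∃ f₁ : ℝ × ℝ → ℝ, f₁ =ᵐ[volume.restrict Q] f ∧
    (∀ᵐ y ∂volume.restrict (Icc (-π) π), HBV (-π) π fun x => f₁ (x, y)) ∧
    AEMeasurable (fun y => totalHV (-π) π fun x => f₁ (x, y)) (volume.restrict (Icc (-π) π)) ∧
    ∫⁻ y in Icc (-π) π, totalHV (-π) π (fun x => f₁ (x, y)) < ⊤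
  second : ∃ f₂ : ℝ × ℝ → ℝ, f₂ =ᵐ[volume.restrict Q] f ∧
    (∀ᵐ x ∂volume.restrict (Icc (-π) π), HBV (-π) π fun y => f₂ (x, y)) ∧
    AEMeasurable (fun x => totalHV (-π) π fun y => f₂ (x, y)) (volume.restrict (Icc (-π) π)) ∧
    ∫⁻ x in Icc (-π) π, totalHV (-π) π (fun y => f₂ (x, y)) < ⊤

/-- The Fourier coefficient
`(4π²)⁻¹ ∫_Q f(x, y) exp(-i(jx + ky)) dx dy`. -/
noncomputable def fourierCoeff2 (f : ℝ × ℝ → ℝ) (j k : ℤ) : ℂ :=
  (4 * (π : ℂ) ^ 2)⁻¹ *
    ∫ p in Q, (f p : ℂ) * Complex.exp (-Complex.I * ((j : ℂ) * (p.1 : ℂ) + (k : ℂ) * (p.2 : ℂ)))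

/-- The rectangular partial sum `S_{M,N} f` of the double Fourier series, at the point `p`. -/
noncomputable def rectSum (f : ℝ × ℝ → ℝ) (M N : ℕ) (p : ℝ × ℝ) : ℂ :=
  ∑ j ∈ Finset.Icc (-(M : ℤ)) (M : ℤ), ∑ k ∈ Finset.Icc (-(N : ℤ)) (N : ℤ),
    fourierCoeff2 f j k *
      Complex.exp (Complex.I * ((j : ℂ) * (p.1 : ℂ) + (k : ℂ) * (p.2 : ℂ)))

end Pool.Agent.HarmV
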