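import Mathlib

open MeasureTheory Set
open scoped ENNReal

namespace Pool.Agent.HarmV

/-- An abstract form of the Kolmogorov-Seliverstov-Plessner maximal inequality. -/
theorem ksp {X ι : Type*} [MeasurableSpace X] [Nonempty X] [Fintype ι] [Nonempty ι] (μ : Measure X)
    [IsFiniteMeasure μ]
    (D : ι → X → X → ℝ) (hDm : ∀ i, Measurable (Function.uncurry (D i)))
    (m : ι → ι → ι) (hrep : ∀ i j x x', ∫ u, D i x u * D j x' u ∂μ = D (m i j) x x')
    (K : X → X → ℝ) (hKm : Measurable (Function.uncurry K)) (hKs : ∀ x x', K x x' = K x' x)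
    (B : ℝ) (hKB : ∀ x x', K x x' ≤ B)
    (hDK : ∀ i x x', |D i x x'| ≤ K x x')
    (κ : ℝ) (hκ0 : 0 < κ) (hκ : ∀ᵐ x ∂μ, ∫ x', K x x' ∂μ ≤ κ)
    (F : X → ℝ) (hF : Measurable F) :
    ∫⁻ x, (⨆ i, ‖∫ u, D i x u * F u ∂μ‖ₑ) ^ 2 ∂μ ≤ ENNReal.ofReal κ * ∫⁻ x, ‖F x‖ₑ ^ 2 ∂μ := by
  classical
  by_cases hfin : ∫⁻ x, ‖F x‖ₑ ^ 2 ∂μ = ⊤
  · rw [hfin, ENNReal.mul_top (by simp [hκ0])]
    exact le_top
  have hFL2 : MemLp F 2 μ := by
    rw [memLp_two_iff_integrable_sq hF.aestronglyMeasurable]
    refine ⟨(hF.pow_const 2).aestronglyMeasurable, ?_⟩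
    rw [HasFiniteIntegral]
    simp only [enorm_pow]
    exact lt_top_iff_ne_top.2 hfin
  have hF2 : Integrable (fun x => F x ^ 2) μ := hFL2.integrable_sq
  have hFi : Integrable F μ := hFL2.integrable (by norm_num)
  obtain ⟨i0⟩ := ‹Nonempty ι›
  have hK0 : ∀ x x', 0 ≤ K x x' := fun x x' => (abs_nonneg _).trans (hDK i0 x x')
  have hDB : ∀ i x x', |D i x x'| ≤ B := fun i x x' => (hDK i x x').trans (hKB x x')
  set s : ι → X → ℝ := fun i x => ∫ u, D i x u * F u ∂μ with hs
  have hsm : ∀ i, Measurable (s i) := by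
    intro i
    have h1 : StronglyMeasurable (fun p : X × X => D i p.1 p.2 * F p.2) :=
      ((hDm i).mul (hF.comp measurable_snd)).stronglyMeasurable
    exact h1.integral_prod_right'.measurable
  set C1 : ℝ := B * ∫ u, |F u| ∂μ with hC1
  have hsb : ∀ i x, |s i x| ≤ C1 := by
    intro i x
    calc |s i x| ≤ ∫ u, |D i x u * F u| ∂μ := abs_integral_le_integral_abs
      _ ≤ ∫ u, B * |F u| ∂μ := by
          apply integral_mono_of_nonneg (ae_of_all _ fun u => abs_nonneg _) (hFi.abs.const_mul B)
          refine ae_of_all _ fun u => ?_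
          simp only [abs_mul]
          exact mul_le_mul_of_nonneg_right (hDB i x u) (abs_nonneg _)
      _ = C1 := by rw [integral_const_mul]
  have hne : (Finset.univ : Finset ι).Nonempty := ⟨i0, Finset.mem_univ _⟩
  set M : X → ℝ := fun x => Finset.univ.sup' hne (fun i => |s i x|) with hM
  have hMm : Measurable M := by
    have : M = Finset.univ.sup' hne (fun i => fun x => |s i x|) := by
      funext x; simp [hM, Finset.sup'_apply]
    rw [this]
    apply Finset.measurable_sup'
    intro i _
    exact (hsm i).abs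
  have hMs : ∀ i x, |s i x| ≤ M x := fun i x =>
    Finset.le_sup' (fun i => |s i x|) (Finset.mem_univ i)
  have hM0 : ∀ x, 0 ≤ M x := fun x => (abs_nonneg _).trans (hMs i0 x)
  have hMC : ∀ x, M x ≤ C1 := fun x => Finset.sup'_le _ _ fun i _ => hsb i x
  have hMex : ∀ x, ∃ i, |s i x| = M x := by
    intro x
    obtain ⟨i, _, hi⟩ := Finset.exists_mem_eq_sup' hne (fun i => |s i x|)
    exact ⟨i, hi.symm⟩
  set c : X → ℝ := fun x => ∑ j, (if |s j x| = M x then (1 : ℝ) else 0) with hc
  have hc1 : ∀ x, 1 ≤ c x := by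
    intro x
    obtain ⟨i, hi⟩ := hMex x
    calc (1 : ℝ) = (if |s i x| = M x then (1 : ℝ) else 0) := by rw [if_pos hi]
      _ ≤ c x := by
        apply Finset.single_le_sum (f := fun j => (if |s j x| = M x then (1 : ℝ) else 0))
        · intro j _; split_ifs <;> norm_num
        · exact Finset.mem_univ i
  have hindm : ∀ i, Measurable (fun x => (if |s i x| = M x then (1 : ℝ) else 0)) := by
    intro i
    exact Measurable.ite (measurableSet_eq_fun (hsm i).abs hMm) measurable_const measurable_const
  have hcm : Measurable c := Finset.measurable_fun_sum _ fun i _ => hindm i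
  set w : ι → X → ℝ := fun i x => (if |s i x| = M x then (1 : ℝ) else 0) / c x with hw
  have hwm : ∀ i, Measurable (w i) := fun i => (hindm i).div hcm
  have hw0 : ∀ i x, 0 ≤ w i x := by
    intro i x
    apply div_nonneg _ (by linarith [hc1 x])
    split_ifs <;> norm_num
  have hwsum : ∀ x, ∑ i, w i x = 1 := by
    intro x
    have : ∑ i, w i x = (∑ i, (if |s i x| = M x then (1 : ℝ) else 0)) / c x := by
      simp only [hw]; rw [Finset.sum_div]
    rw [this]
    exact div_self (by linarith [hc1 x])
  have hws : ∀ i x, w i x * |s i x| = w i x * M x := by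
    intro i x
    by_cases h : |s i x| = M x
    · rw [h]
    · simp [hw, h]
  set g : ι → X → ℝ := fun i x => w i x * s i x with hg
  have hgm : ∀ i, Measurable (g i) := fun i => (hwm i).mul (hsm i)
  have hgabs : ∀ i x, |g i x| = w i x * M x := by
    intro i x
    rw [hg]; simp only
    rw [abs_mul, abs_of_nonneg (hw0 i x), hws]
  have hgsum : ∀ x, ∑ i, |g i x| = M x := by
    intro x
    simp only [hgabs]
    rw [← Finset.sum_mul, hwsum, one_mul]
  have hgs : ∀ x, ∑ i, g i x * s i x = M x ^ 2 := by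
    intro x
    have : ∀ i, g i x * s i x = w i x * M x ^ 2 := by
      intro i
      have h1 : g i x * s i x = (w i x * |s i x|) * |s i x| := by
        rw [hg]; simp only
        rw [mul_assoc, mul_assoc, abs_mul_abs_self]
      rw [h1, hws, mul_assoc, mul_comm (M x), ← mul_assoc, hws]
      ring
    simp only [this]
    rw [← Finset.sum_mul, hwsum, one_mul]
  set Φ : X → X → ℝ := fun x u => ∑ i, g i x * D i x u with hΦ
  have hΦm : Measurable (Function.uncurry Φ) := by
    have : Function.uncurry Φ = fun p : X × X => ∑ i, g i p.1 * D i p.1 p.2 := by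
      funext p; rfl
    rw [this]
    apply Finset.measurable_fun_sum
    intro i _
    exact ((hgm i).comp measurable_fst).mul (hDm i)
  obtain ⟨x0⟩ := ‹Nonempty X›
  have hB0 : 0 ≤ B := (hK0 x0 x0).trans (hKB x0 x0)
  have hC10 : 0 ≤ C1 := (hM0 x0).trans (hMC x0)
  have hΦb : ∀ x u, |Φ x u| ≤ M x * K x u := by
    intro x u
    calc |Φ x u| ≤ ∑ i, |g i x * D i x u| := Finset.abs_sum_le_sum_abs _ _
      _ ≤ ∑ i, |g i x| * K x u := by
          apply Finset.sum_le_sum
          intro i _
          rw [abs_mul]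
          exact mul_le_mul_of_nonneg_left (hDK i x u) (abs_nonneg _)
      _ = M x * K x u := by rw [← Finset.sum_mul, hgsum]
  have hΦB : ∀ x u, |Φ x u| ≤ C1 * B := fun x u =>
    (hΦb x u).trans (mul_le_mul (hMC x) (hKB x u) (hK0 x u) hC10)
  set G : X → ℝ := fun u => ∫ x, Φ x u ∂μ with hG
  have hGm : Measurable G := by
    have h1 : StronglyMeasurable (fun p : X × X => Φ p.1 p.2) := hΦm.stronglyMeasurable
    exact h1.integral_prod_left'.measurable
  set C2 : ℝ := C1 * B * μ.real univ with hC2
  have hGb : ∀ u, |G u| ≤ C2 := by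
    intro u
    have := norm_integral_le_of_norm_le_const (μ := μ) (f := fun x => Φ x u) (C := C1 * B)
      (ae_of_all _ fun x => by rw [Real.norm_eq_abs]; exact hΦB x u)
    rwa [Real.norm_eq_abs] at this
  -- bounded measurable functions are integrable
  have hint : ∀ {f : X → ℝ}, Measurable f → ∀ C : ℝ, (∀ x, |f x| ≤ C) → Integrable f μ := by
    intro f hf C hC
    exact Integrable.of_bound hf.aestronglyMeasurable C (ae_of_all _ fun x => by
      rw [Real.norm_eq_abs]; exact hC x)
  have hint2 : ∀ {f : X × X → ℝ}, Measurable f → ∀ C : ℝ, (∀ x, |f x| ≤ C) →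
      Integrable f (μ.prod μ) := by
    intro f hf C hC
    exact Integrable.of_bound hf.aestronglyMeasurable C (ae_of_all _ fun x => by
      rw [Real.norm_eq_abs]; exact hC x)
  have hM2i : Integrable (fun x => M x ^ 2) μ :=
    hint (hMm.pow_const 2) (C1 ^ 2) (fun x => by
      rw [abs_of_nonneg (by positivity)]
      exact pow_le_pow_left₀ (hM0 x) (hMC x) 2)
  -- step 1
  have step1 : ∫ x, M x ^ 2 ∂μ = ∫ u, G u * F u ∂μ := by
    have e1 : ∀ x, M x ^ 2 = ∫ u, Φ x u * F u ∂μ := by
      intro x
      rw [← hgs x]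
      simp only [hs, hΦ, Finset.sum_mul]
      rw [integral_finsetSum]
      · apply Finset.sum_congr rfl
        intro i _
        rw [← integral_const_mul]
        congr 1; funext u; ring
      · intro i _
        have : Integrable (fun u => (g i x * D i x u) * F u) μ := by
          apply Integrable.bdd_mul (c := |g i x| * B) hFi
          · exact (((hDm i).comp measurable_prodMk_left).const_mul _).aestronglyMeasurable
          · refine ae_of_all _ fun u => ?_
            rw [Real.norm_eq_abs, abs_mul]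
            exact mul_le_mul_of_nonneg_left (hDB i x u) (abs_nonneg _)
        exact this
    have e2 : Integrable (Function.uncurry fun x u => Φ x u * F u) (μ.prod μ) := by
      have h1 : Integrable (fun p : X × X => F p.2) (μ.prod μ) := hFi.comp_snd μ
      apply Integrable.bdd_mul (c := C1 * B) h1 hΦm.aestronglyMeasurable
      refine ae_of_all _ fun p => ?_
      rw [Real.norm_eq_abs]
      exact hΦB p.1 p.2
    simp only [e1]
    rw [integral_integral_swap e2]
    congr 1; funext u
    rw [integral_mul_const]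
  -- step 3
  set R : X → X → ℝ := fun x x' => ∫ u, Φ x' u * Φ x u ∂μ with hR
  have hRb : ∀ x x', R x x' ≤ M x * M x' * K x x' := by
    intro x x'
    have e1 : R x x' = ∑ i, ∑ j, g i x' * g j x * D (m i j) x' x := by
      have : ∀ u, Φ x' u * Φ x u = ∑ i, ∑ j, g i x' * g j x * (D i x' u * D j x u) := by
        intro u
        simp only [hΦ, Finset.sum_mul_sum]
        apply Finset.sum_congr rfl; intro i _
        apply Finset.sum_congr rfl; intro j _
        ring
      simp only [hR, this]
      have hbi : ∀ i j, Integrable (fun u => g i x' * g j x * (D i x' u * D j x u)) μ := by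
        intro i j
        apply Integrable.const_mul
        apply hint (((hDm i).comp measurable_prodMk_left).mul ((hDm j).comp measurable_prodMk_left))
          (B * B)
        intro u
        show |D i x' u * D j x u| ≤ B * B
        rw [abs_mul]
        exact mul_le_mul (hDB i x' u) (hDB j x u) (abs_nonneg _) hB0
      rw [integral_finsetSum _ fun i _ => integrable_finsetSum _ fun j _ => hbi i j]
      apply Finset.sum_congr rfl; intro i _
      rw [integral_finsetSum _ fun j _ => hbi i j]
      apply Finset.sum_congr rfl; intro j _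
      rw [integral_const_mul, hrep]
    rw [e1]
    calc ∑ i, ∑ j, g i x' * g j x * D (m i j) x' x
        ≤ ∑ i, ∑ j, |g i x'| * |g j x| * K x x' := by
          apply Finset.sum_le_sum; intro i _
          apply Finset.sum_le_sum; intro j _
          refine (le_abs_self _).trans ?_
          rw [abs_mul, abs_mul, hKs x x']
          exact mul_le_mul_of_nonneg_left (hDK _ _ _) (by positivity)
      _ = M x * M x' * K x x' := by
          have : ∀ i, ∑ j, |g i x'| * |g j x| * K x x' = |g i x'| * (M x * K x x') := by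
            intro i
            rw [← hgsum x, Finset.sum_mul, Finset.mul_sum]
            apply Finset.sum_congr rfl; intro j _
            ring
          simp only [this]
          rw [← Finset.sum_mul, hgsum]
          ring
  have hΦ2m : Measurable (fun p : (X × X) × X => Φ p.1.2 p.2 * Φ p.1.1 p.2) := by
    have h1 : Measurable (fun p : (X × X) × X => Function.uncurry Φ (p.1.2, p.2)) :=
      hΦm.comp ((measurable_snd.comp measurable_fst).prodMk measurable_snd)
    have h2 : Measurable (fun p : (X × X) × X => Function.uncurry Φ (p.1.1, p.2)) :=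
      hΦm.comp ((measurable_fst.comp measurable_fst).prodMk measurable_snd)
    exact h1.mul h2
  have hRm : Measurable (Function.uncurry R) := by
    have := hΦ2m.stronglyMeasurable.integral_prod_right' (ν := μ)
    exact this.measurable
  have hRB : ∀ x x', |R x x'| ≤ C1 * B * (C1 * B) * μ.real univ := by
    intro x x'
    have := norm_integral_le_of_norm_le_const (μ := μ) (f := fun u => Φ x' u * Φ x u)
      (C := C1 * B * (C1 * B))
      (ae_of_all _ fun u => by
        rw [Real.norm_eq_abs, abs_mul]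
        exact mul_le_mul (hΦB _ _) (hΦB _ _) (abs_nonneg _) (by positivity))
    rwa [Real.norm_eq_abs] at this
  have step3a : ∫ u, G u ^ 2 ∂μ = ∫ x, ∫ x', R x x' ∂μ ∂μ := by
    have e1 : ∀ u, G u ^ 2 = ∫ x, G u * Φ x u ∂μ := by
      intro u; rw [integral_const_mul, pow_two]
    simp only [e1]
    rw [integral_integral_swap]
    · congr 1; funext x
      have e2 : ∀ u, G u * Φ x u = ∫ x', Φ x' u * Φ x u ∂μ := by
        intro u; rw [integral_mul_const]
      simp only [e2]
      rw [integral_integral_swap]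
      apply hint2 _ (C1 * B * (C1 * B))
      · intro p
        simp only [Function.uncurry, abs_mul]
        exact mul_le_mul (hΦB _ _) (hΦB _ _) (abs_nonneg _) (by positivity)
      · exact (hΦm.comp (measurable_snd.prodMk measurable_fst)).mul
          (hΦm.comp (measurable_const.prodMk measurable_fst))
    · apply hint2 _ (C2 * (C1 * B))
      · intro p
        simp only [Function.uncurry, abs_mul]
        exact mul_le_mul (hGb _) (hΦB _ _) (abs_nonneg _) ((abs_nonneg _).trans (hGb p.1))
      · exact (hGm.comp measurable_fst).mul (hΦm.comp (measurable_snd.prodMk measurable_fst))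
  have step3b : ∫ u, G u ^ 2 ∂μ ≤ κ * ∫ x, M x ^ 2 ∂μ := by
    rw [step3a]
    have e1 : ∫ x, ∫ x', R x x' ∂μ ∂μ = ∫ p, R p.1 p.2 ∂(μ.prod μ) :=
      (integral_prod _ (hint2 hRm _ fun p => hRB p.1 p.2)).symm
    have hI1 : Integrable (fun p : X × X => M p.1 ^ 2 * K p.1 p.2) (μ.prod μ) := by
      apply hint2 (((hMm.comp measurable_fst).pow_const 2).mul hKm) (C1 ^ 2 * B)
      intro p
      show |M p.1 ^ 2 * K p.1 p.2| ≤ C1 ^ 2 * B
      rw [abs_of_nonneg (mul_nonneg (by positivity) (hK0 _ _))]
      exact mul_le_mul (pow_le_pow_left₀ (hM0 _) (hMC _) 2) (hKB _ _) (hK0 _ _) (by positivity)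
    have hI2 : Integrable (fun p : X × X => M p.2 ^ 2 * K p.1 p.2) (μ.prod μ) := by
      apply hint2 (((hMm.comp measurable_snd).pow_const 2).mul hKm) (C1 ^ 2 * B)
      intro p
      show |M p.2 ^ 2 * K p.1 p.2| ≤ C1 ^ 2 * B
      rw [abs_of_nonneg (mul_nonneg (by positivity) (hK0 _ _))]
      exact mul_le_mul (pow_le_pow_left₀ (hM0 _) (hMC _) 2) (hKB _ _) (hK0 _ _) (by positivity)
    have e2 : ∫ p, R p.1 p.2 ∂(μ.prod μ) ≤
        ∫ p, (1 / 2) * (M p.1 ^ 2 * K p.1 p.2) + (1 / 2) * (M p.2 ^ 2 * K p.1 p.2) ∂(μ.prod μ) := by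
      apply integral_mono (hint2 hRm _ fun p => hRB p.1 p.2)
      · exact (hI1.const_mul _).add (hI2.const_mul _)
      · intro p
        simp only
        refine (hRb p.1 p.2).trans ?_
        have := mul_nonneg (sq_nonneg (M p.1 - M p.2)) (hK0 p.1 p.2)
        nlinarith [this]
    have e3 : ∫ p, M p.1 ^ 2 * K p.1 p.2 ∂(μ.prod μ) ≤ κ * ∫ x, M x ^ 2 ∂μ := by
      rw [integral_prod _ hI1, ← integral_const_mul]
      apply integral_mono_ae hI1.integral_prod_left (hM2i.const_mul _)
      filter_upwards [hκ] with x hx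
      rw [integral_const_mul, mul_comm κ]
      exact mul_le_mul_of_nonneg_left hx (by positivity)
    have e4 : ∫ p, M p.2 ^ 2 * K p.1 p.2 ∂(μ.prod μ) ≤ κ * ∫ x, M x ^ 2 ∂μ := by
      rw [← integral_prod_swap]
      simp only [Prod.fst_swap, Prod.snd_swap]
      have : ∀ p : X × X, M p.1 ^ 2 * K p.2 p.1 = M p.1 ^ 2 * K p.1 p.2 := by
        intro p; rw [hKs p.2 p.1]
      simp only [this]
      exact e3
    rw [e1]
    refine e2.trans ?_
    rw [integral_add (hI1.const_mul _) (hI2.const_mul _), integral_const_mul, integral_const_mul]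
    linarith
  -- step 2
  have step2 : ∫ x, M x ^ 2 ∂μ ≤ κ * ∫ x, F x ^ 2 ∂μ := by
    have hG2i : Integrable (fun u => G u ^ 2) μ :=
      hint (hGm.pow_const 2) (C2 ^ 2) (fun u => by
        rw [abs_of_nonneg (by positivity), ← sq_abs]
        exact pow_le_pow_left₀ (abs_nonneg _) (hGb u) 2)
    have hGF : Integrable (fun u => G u * F u) μ := by
      apply Integrable.bdd_mul (c := C2) hFi hGm.aestronglyMeasurable
      exact ae_of_all _ fun u => by rw [Real.norm_eq_abs]; exact hGb u
    have e1 : ∫ u, G u * F u ∂μ ≤ ∫ u, (κ / 2) * F u ^ 2 + (1 / (2 * κ)) * G u ^ 2 ∂μ := by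
      apply integral_mono hGF ((hF2.const_mul _).add (hG2i.const_mul _))
      intro u
      show G u * F u ≤ κ / 2 * F u ^ 2 + 1 / (2 * κ) * G u ^ 2
      have h1 : 0 ≤ (κ * F u - G u) ^ 2 := sq_nonneg _
      have h2 : (κ / 2) * F u ^ 2 + (1 / (2 * κ)) * G u ^ 2 - G u * F u =
          (κ * F u - G u) ^ 2 / (2 * κ) := by
        field_simp; ring
      have h3 : 0 ≤ (κ * F u - G u) ^ 2 / (2 * κ) := by positivity
      linarith
    rw [integral_add (hF2.const_mul _) (hG2i.const_mul _), integral_const_mul,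
      integral_const_mul, ← step1] at e1
    have e2 : (1 / (2 * κ)) * ∫ u, G u ^ 2 ∂μ ≤ (1 / 2) * ∫ x, M x ^ 2 ∂μ := by
      calc (1 / (2 * κ)) * ∫ u, G u ^ 2 ∂μ ≤ (1 / (2 * κ)) * (κ * ∫ x, M x ^ 2 ∂μ) :=
            mul_le_mul_of_nonneg_left step3b (by positivity)
        _ = (1 / 2) * ∫ x, M x ^ 2 ∂μ := by field_simp
    linarith
  -- conversion
  have hconv : ∀ x, (⨆ i, ‖∫ u, D i x u * F u ∂μ‖ₑ) ^ 2 = ENNReal.ofReal (M x ^ 2) := by
    intro x
    rw [ENNReal.ofReal_pow (hM0 x)]
    congr 1
    apply le_antisymm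
    · apply iSup_le
      intro i
      rw [Real.enorm_eq_ofReal_abs]
      exact ENNReal.ofReal_le_ofReal (hMs i x)
    · obtain ⟨i, hi⟩ := hMex x
      rw [← hi, ← Real.enorm_eq_ofReal_abs]
      exact le_iSup (fun i => ‖s i x‖ₑ) i
  simp only [hconv]
  rw [← ofReal_integral_eq_lintegral_ofReal hM2i (ae_of_all _ fun x => by positivity)]
  have hconv2 : ∫⁻ x, ‖F x‖ₑ ^ 2 ∂μ = ENNReal.ofReal (∫ x, F x ^ 2 ∂μ) := by
    rw [ofReal_integral_eq_lintegral_ofReal hF2 (ae_of_all _ fun x => by positivity)]
    congr 1; funext x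
    rw [Real.enorm_eq_ofReal_abs, ← ENNReal.ofReal_pow (abs_nonneg _), sq_abs]
  rw [hconv2, ← ENNReal.ofReal_mul hκ0.le]
  exact ENNReal.ofReal_le_ofReal step2

end Pool.Agent.HarmV
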