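import Mathlib

open MeasureTheory Real Set
open scoped ENNReal

namespace Pool.Agent.HarmV

/-- normalized Lebesgue measure on `[-π, π]` -/
noncomputable def mu : Measure ℝ :=
  ENNReal.ofReal (1 / (2 * π)) • (volume.restrict (Icc (-π) π))

instance : IsProbabilityMeasure mu := by
  constructor
  simp only [mu, Measure.smul_apply, Measure.restrict_apply MeasurableSet.univ, univ_inter,
    Real.volume_Icc, smul_eq_mul]
  rw [← ENNReal.ofReal_mul (by positivity)]
  have : 1 / (2 * π) * (π - -π) = 1 := by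
    have := Real.pi_pos
    field_simp
    ring
  rw [this, ENNReal.ofReal_one]

lemma mu_apply_le {s : Set ℝ} {a b : ℝ} (hs : s ⊆ Icc a b) :
    mu s ≤ ENNReal.ofReal ((b - a) / (2 * π)) := by
  simp only [mu, Measure.smul_apply, smul_eq_mul]
  calc ENNReal.ofReal (1 / (2 * π)) * (volume.restrict (Icc (-π) π)) s
      ≤ ENNReal.ofReal (1 / (2 * π)) * volume (Icc a b) := by
        exact mul_le_mul' le_rfl ((Measure.restrict_apply_le _ _).trans (measure_mono hs))
    _ = ENNReal.ofReal ((b - a) / (2 * π)) := by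
        rw [Real.volume_Icc, ← ENNReal.ofReal_mul (by positivity)]
        congr 1
        ring

lemma integral_mu (f : ℝ → ℝ) : ∫ u, f u ∂mu = (1 / (2 * π)) * ∫ u in (-π)..π, f u := by
  rw [mu, integral_smul_measure, intervalIntegral.integral_of_le (by linarith [Real.pi_pos]),
    ENNReal.toReal_ofReal (by positivity), integral_Icc_eq_integral_Ioc, smul_eq_mul]

lemma ae_mu_iff {p : ℝ → Prop} : (∀ᵐ x ∂mu, p x) ↔ ∀ᵐ x ∂(volume.restrict (Icc (-π) π)), p x := by
  have h : ENNReal.ofReal (1 / (2 * π)) ≠ 0 := by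
    simp [Real.pi_pos]
  rw [mu, Filter.Eventually, Measure.ae_ennreal_smul_measure_eq h]
  rfl

lemma ae_mem_Icc : ∀ᵐ x ∂mu, x ∈ Icc (-π) π := by
  rw [ae_mu_iff]
  exact ae_restrict_mem measurableSet_Icc

/-- Dirichlet kernel -/
noncomputable def dir (M : ℕ) (t : ℝ) : ℝ := 1 + 2 * ∑ j ∈ Finset.range M, cos (((j : ℝ) + 1) * t)

lemma dir_zero (t : ℝ) : dir 0 t = 1 := by simp [dir]

lemma dir_succ (M : ℕ) (t : ℝ) : dir (M + 1) t = dir M t + 2 * cos (((M : ℝ) + 1) * t) := by
  simp [dir, Finset.sum_range_succ]; ring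

@[fun_prop]
lemma continuous_dir (M : ℕ) : Continuous (dir M) := by
  unfold dir; fun_prop

lemma dir_neg (M : ℕ) (t : ℝ) : dir M (-t) = dir M t := by
  simp only [dir, mul_neg, cos_neg]

lemma dir_mul_sin (M : ℕ) (t : ℝ) : dir M t * sin (t / 2) = sin (((M : ℝ) + 1 / 2) * t) := by
  induction M with
  | zero => simp [dir_zero]; congr 1; ring
  | succ M ih =>
    rw [dir_succ, add_mul, ih]
    have h1 : ((M : ℝ) + 1 / 2) * t = ((M : ℝ) + 1) * t - t / 2 := by ring
    have h2 : (((M + 1 : ℕ) : ℝ) + 1 / 2) * t = ((M : ℝ) + 1) * t + t / 2 := by push_cast; ring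
    rw [h1, h2, sin_sub, sin_add]
    ring

lemma abs_dir_mul_le (M : ℕ) (t : ℝ) : |dir M t| * |sin (t / 2)| ≤ 1 := by
  rw [← abs_mul, dir_mul_sin]; exact abs_sin_le_one _

lemma abs_dir_le (M : ℕ) (t : ℝ) : |dir M t| ≤ 2 * M + 1 := by
  induction M with
  | zero => simp [dir_zero]
  | succ M ih =>
    rw [dir_succ]
    have := abs_cos_le_one (((M : ℝ) + 1) * t)
    calc |dir M t + 2 * cos (((M : ℝ) + 1) * t)| ≤ |dir M t| + |2 * cos (((M : ℝ) + 1) * t)| := abs_add_le _ _
      _ ≤ (2 * M + 1) + 2 * 1 := by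
        rw [abs_mul]; gcongr; norm_num
      _ = 2 * ((M + 1 : ℕ) : ℝ) + 1 := by push_cast; ring

/-- Fejer kernel -/
noncomputable def fej (N : ℕ) (t : ℝ) : ℝ := (∑ M ∈ Finset.range (N + 1), dir M t) / (N + 1)

@[fun_prop]
lemma continuous_fej (N : ℕ) : Continuous (fej N) := by
  unfold fej; fun_prop

lemma fej_neg (N : ℕ) (t : ℝ) : fej N (-t) = fej N t := by
  simp only [fej, dir_neg]

lemma sum_dir_mul_sin_sq (N : ℕ) (t : ℝ) :
    (∑ M ∈ Finset.range (N + 1), dir M t) * sin (t / 2) ^ 2 = sin (((N : ℝ) + 1) * t / 2) ^ 2 := by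
  induction N with
  | zero => simp [dir_zero]
  | succ N ih =>
    rw [Finset.sum_range_succ, add_mul, ih]
    have h : dir (N + 1) t * sin (t / 2) ^ 2 = sin ((((N + 1 : ℕ) : ℝ) + 1 / 2) * t) * sin (t / 2) := by
      rw [pow_two, ← mul_assoc, dir_mul_sin]
    rw [h]
    set a := ((N : ℝ) + 1) * t / 2 with ha
    have h1 : (((N + 1 : ℕ) : ℝ) + 1 / 2) * t = 2 * a + t / 2 := by rw [ha]; push_cast; ring
    have h2 : (((N + 1 : ℕ) : ℝ) + 1) * t / 2 = a + t / 2 := by rw [ha]; push_cast; ring
    rw [h1, h2, sin_add, sin_add, sin_two_mul, cos_two_mul]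
    have e1 := sin_sq_add_cos_sq a
    have e2 := sin_sq_add_cos_sq (t / 2)
    generalize sin (t / 2) = S at *
    generalize cos (t / 2) = C at *
    generalize sin a = sa at *
    generalize cos a = ca at *
    have e3 : ca ^ 2 = 1 - sa ^ 2 := by linarith
    have e4 : C ^ 2 = 1 - S ^ 2 := by linarith
    ring_nf
    rw [e3, e4]
    ring

lemma fej_mul_sin_sq_le (N : ℕ) (t : ℝ) : fej N t * sin (t / 2) ^ 2 ≤ 1 / (N + 1) := by
  rw [fej, div_mul_eq_mul_div, sum_dir_mul_sin_sq]
  gcongr
  exact sin_sq_le_one _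

lemma fej_nonneg (N : ℕ) (t : ℝ) : 0 ≤ fej N t := by
  by_cases h : sin (t / 2) = 0
  · -- dir M t = 2M+1
    have hd : ∀ M : ℕ, 0 ≤ dir M t := by
      intro M
      obtain ⟨k, hk⟩ := sin_eq_zero_iff.1 h
      have ht : t = k * (2 * π) := by linarith
      unfold dir
      have : ∀ j : ℕ, cos (((j : ℝ) + 1) * t) = 1 := by
        intro j
        rw [ht]
        have : ((j : ℝ) + 1) * (k * (2 * π)) = (((j + 1 : ℤ) * k : ℤ) : ℝ) * (2 * π) := by push_cast; ring
        rw [this]
        exact cos_int_mul_two_pi _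
      simp only [this]
      positivity
    unfold fej
    apply div_nonneg (Finset.sum_nonneg fun M _ => hd M) (by positivity)
  · have h2 : 0 < sin (t / 2) ^ 2 := by positivity
    have h3 : fej N t * sin (t / 2) ^ 2 = sin (((N : ℝ) + 1) * t / 2) ^ 2 / (N + 1) := by
      rw [fej, div_mul_eq_mul_div, sum_dir_mul_sin_sq]
    have h4 : 0 ≤ fej N t * sin (t / 2) ^ 2 := by rw [h3]; positivity
    by_contra hneg
    push Not at hneg
    have := mul_neg_of_neg_of_pos hneg h2
    linarith

lemma integral_cos_sub (A : ℝ) (n : ℤ) :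
    ∫ u, cos (A - n * u) ∂mu = if n = 0 then cos A else 0 := by
  rw [integral_mu]
  split_ifs with h
  · subst h
    simp only [Int.cast_zero, zero_mul, sub_zero, intervalIntegral.integral_const, smul_eq_mul]
    have := Real.pi_pos
    field_simp
    ring
  · have hn : (n : ℝ) ≠ 0 := by exact_mod_cast h
    have : ∫ u in (-π)..π, cos (A - n * u) = 0 := by
      rw [intervalIntegral.integral_comp_sub_mul (fun x => cos x) hn, integral_cos]
      have e1 : A - n * -π = (A - n * π) + n * (2 * π) := by ring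
      rw [e1, sin_add_int_mul_two_pi]
      simp
    rw [this, mul_zero]

lemma integrable_of_continuous {f : ℝ → ℝ} (hf : Continuous f) : Integrable f mu := by
  unfold mu
  apply Integrable.smul_measure _ ENNReal.ofReal_ne_top
  exact hf.continuousOn.integrableOn_compact isCompact_Icc

lemma integral_dir_cos (M l : ℕ) (x x' : ℝ) :
    ∫ u, dir M (x - u) * cos (((l : ℝ) + 1) * (x' - u)) ∂mu =
      if l < M then cos (((l : ℝ) + 1) * (x - x')) else 0 := by
  induction M with
  | zero =>
    simp only [dir_zero, one_mul, not_lt_zero, if_false]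
    have : ∀ u, cos (((l : ℝ) + 1) * (x' - u)) = cos (((l : ℝ) + 1) * x' - ((l + 1 : ℤ) : ℝ) * u) := by
      intro u; congr 1; push_cast; ring
    simp only [this]
    rw [integral_cos_sub, if_neg]
    omega
  | succ M ih =>
    simp only [dir_succ, add_mul]
    rw [integral_add (integrable_of_continuous (by fun_prop)) (integrable_of_continuous (by fun_prop)), ]
    have : (fun u => dir M (x - u) * cos ((l:ℝ) * (x' - u) + 1 * (x' - u))) = 
      fun u => dir M (x - u) * cos (((l : ℝ) + 1) * (x' - u)) := by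
      funext u; congr 2; ring
    rw [this, ih]
    have h2 : ∀ u, 2 * cos ((M:ℝ) * (x - u) + 1 * (x - u)) * cos ((l:ℝ) * (x' - u) + 1 * (x' - u)) =
        cos ((((M : ℝ) + 1) * x - ((l : ℝ) + 1) * x') - (((M : ℤ) - l : ℤ) : ℝ) * u) +
        cos ((((M : ℝ) + 1) * x + ((l : ℝ) + 1) * x') - (((M : ℤ) + l + 2 : ℤ) : ℝ) * u) := by
      intro u
      have e1 : (((M : ℝ) + 1) * x - ((l : ℝ) + 1) * x') - (((M : ℤ) - l : ℤ) : ℝ) * u
        = ((M:ℝ) * (x - u) + 1 * (x - u)) - ((l:ℝ) * (x' - u) + 1 * (x' - u)) := by push_cast; ring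
      have e2 : (((M : ℝ) + 1) * x + ((l : ℝ) + 1) * x') - (((M : ℤ) + l + 2 : ℤ) : ℝ) * u
        = ((M:ℝ) * (x - u) + 1 * (x - u)) + ((l:ℝ) * (x' - u) + 1 * (x' - u)) := by push_cast; ring
      rw [e1, e2]
      generalize (M:ℝ) * (x - u) + 1 * (x - u) = p
      generalize (l:ℝ) * (x' - u) + 1 * (x' - u) = q
      rw [cos_sub, cos_add]
      ring
    simp only [h2]
    rw [integral_add (integrable_of_continuous (by fun_prop)) (integrable_of_continuous (by fun_prop)),
      integral_cos_sub, integral_cos_sub]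
    rw [if_neg (show ¬ ((M : ℤ) + l + 2 = 0) by omega)]
    by_cases h : l < M
    · rw [if_pos h, if_neg (by omega), if_pos (by omega)]
      ring_nf
    · by_cases h' : l = M
      · subst h'
        simp only [lt_self_iff_false, if_false, sub_self, if_true, Nat.lt_succ_self, zero_add, add_zero]
        congr 1
        ring
      · rw [if_neg h, if_neg (by omega), if_neg (by omega)]
        ring

lemma integral_dir (M : ℕ) (x : ℝ) : ∫ u, dir M (x - u) ∂mu = 1 := by
  induction M with
  | zero => simp [dir_zero]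
  | succ M ih =>
    simp only [dir_succ]
    rw [integral_add (integrable_of_continuous (by fun_prop)) (integrable_of_continuous (by fun_prop)), ih]
    have : ∀ u, 2 * cos (((M : ℝ) + 1) * (x - u)) = 2 * cos (((M : ℝ) + 1) * x - ((M + 1 : ℤ) : ℝ) * u) := by
      intro u; congr 2; push_cast; ring
    simp only [this]
    rw [integral_const_mul, integral_cos_sub, if_neg (by omega)]
    simp

lemma integral_dir_dir (M M' : ℕ) (x x' : ℝ) :
    ∫ u, dir M (x - u) * dir M' (x' - u) ∂mu = dir (min M M') (x - x') := by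
  induction M' with
  | zero => simp [dir_zero, integral_dir]
  | succ M' ih =>
    have : ∀ u, dir M (x - u) * dir (M' + 1) (x' - u) =
        dir M (x - u) * dir M' (x' - u) + 2 * (dir M (x - u) * cos (((M' : ℝ) + 1) * (x' - u))) := by
      intro u; rw [dir_succ]; ring
    simp only [this]
    rw [integral_add (integrable_of_continuous (by fun_prop)) (integrable_of_continuous (by fun_prop)), ih,
      integral_const_mul, integral_dir_cos]
    by_cases h : M' < M
    · rw [if_pos h, min_eq_right h.le, min_eq_right (by omega), dir_succ]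
    · rw [if_neg h, min_eq_left (by omega), min_eq_left (by omega)]
      ring

lemma integral_fej (N : ℕ) (x : ℝ) : ∫ u, fej N (x - u) ∂mu = 1 := by
  unfold fej
  rw [integral_div, integral_finsetSum _ (fun i _ => integrable_of_continuous (by fun_prop))]
  simp only [integral_dir, Finset.sum_const, Finset.card_range, nsmul_eq_mul, mul_one]
  push_cast
  have : (N : ℝ) + 1 ≠ 0 := by positivity
  field_simp

lemma integral_dir_fej {M N : ℕ} (h : N ≤ M) (x x' : ℝ) :
    ∫ u, dir M (x - u) * fej N (u - x') ∂mu = fej N (x - x') := by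
  have h1 : ∀ u, dir M (x - u) * fej N (u - x') =
      (∑ M' ∈ Finset.range (N + 1), dir M (x - u) * dir M' (x' - u)) / (N + 1) := by
    intro u
    rw [← fej_neg, neg_sub, fej, ← mul_div_assoc, Finset.mul_sum]
  simp only [h1]
  rw [integral_div, integral_finsetSum _ (fun i _ => integrable_of_continuous (by fun_prop))]
  unfold fej
  congr 1
  apply Finset.sum_congr rfl
  intro M' hM'
  rw [integral_dir_dir, min_eq_right]
  rw [Finset.mem_range] at hM'
  omega

/-- lintegral version -/
lemma lintegral_fej (N : ℕ) (x : ℝ) : ∫⁻ u, ENNReal.ofReal (fej N (x - u)) ∂mu = 1 := by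
  rw [← ofReal_integral_eq_lintegral_ofReal (integrable_of_continuous (by fun_prop))
    (ae_of_all _ fun u => fej_nonneg _ _), integral_fej, ENNReal.ofReal_one]

lemma lintegral_fej' (N : ℕ) (x : ℝ) : ∫⁻ u, ENNReal.ofReal (fej N (u - x)) ∂mu = 1 := by
  rw [← lintegral_fej N x]
  congr 1; funext u
  rw [← fej_neg, neg_sub]

/-- majorant of the Dirichlet kernels of order `< 2^J` -/
noncomputable def kk (J : ℕ) (t : ℝ) : ℝ :=
  1 + ∑ i ∈ Finset.range (J + 1), (2 : ℝ) ^ i * (if |sin (t / 2)| ≤ (1 / 2) ^ i then 1 else 0)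

lemma kk_nonneg (J : ℕ) (t : ℝ) : 0 ≤ kk J t := by
  unfold kk
  apply add_nonneg (by norm_num)
  apply Finset.sum_nonneg
  intro i _
  split_ifs <;> positivity

lemma kk_le (J : ℕ) (t : ℝ) : kk J t ≤ 2 ^ (J + 1) := by
  have h := geom_sum_eq (by norm_num : (2 : ℝ) ≠ 1) (J + 1)
  unfold kk
  calc 1 + ∑ i ∈ Finset.range (J + 1), (2 : ℝ) ^ i * (if |sin (t / 2)| ≤ (1 / 2) ^ i then 1 else 0)
      ≤ 1 + ∑ i ∈ Finset.range (J + 1), (2 : ℝ) ^ i := by
        gcongr with i _
        split_ifs <;> simp
    _ = 2 ^ (J + 1) := by rw [h]; ring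

@[fun_prop]
lemma measurable_kk (J : ℕ) : Measurable (kk J) := by
  unfold kk
  apply Measurable.const_add
  apply Finset.measurable_fun_sum
  intro i _
  apply Measurable.const_mul
  apply Measurable.ite _ measurable_const measurable_const
  exact measurableSet_le (by fun_prop) measurable_const

lemma kk_neg (J : ℕ) (t : ℝ) : kk J (-t) = kk J t := by
  unfold kk
  have : sin (-t / 2) = - sin (t / 2) := by rw [neg_div, sin_neg]
  simp only [this, abs_neg]

lemma kk_mono {J J' : ℕ} (h : J ≤ J') (t : ℝ) : kk J t ≤ kk J' t := by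
  unfold kk
  gcongr

lemma abs_dir_le_kk {J M : ℕ} (hM : M < 2 ^ J) (t : ℝ) : |dir M t| ≤ kk J t := by
  set s := |sin (t / 2)| with hs
  by_cases h0 : s ≤ (1 / 2) ^ J
  · have h1 : kk J t = 2 ^ (J + 1) := by
      have h := geom_sum_eq (by norm_num : (2 : ℝ) ≠ 1) (J + 1)
      unfold kk
      have : ∑ i ∈ Finset.range (J + 1), (2 : ℝ) ^ i * (if |sin (t / 2)| ≤ (1 / 2) ^ i then (1:ℝ) else 0)
          = ∑ i ∈ Finset.range (J + 1), (2 : ℝ) ^ i := by
        apply Finset.sum_congr rfl
        intro i hi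
        rw [Finset.mem_range] at hi
        rw [if_pos, mul_one]
        refine h0.trans ?_
        exact pow_le_pow_of_le_one (by norm_num) (by norm_num) (by omega)
      rw [this, h]; ring
    rw [h1]
    refine (abs_dir_le M t).trans ?_
    have : (M : ℝ) + 1 ≤ 2 ^ J := by exact_mod_cast hM
    rw [pow_succ]; linarith
  · push Not at h0
    -- exists i0 < J maximal with s ≤ (1/2)^i0
    have hex : ∃ i, ¬ (s ≤ (1 / 2) ^ i) := ⟨J, by push Not; exact h0⟩
    classical
    set i1 := Nat.find hex with hi1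
    have hi1s : ¬ (s ≤ (1 / 2) ^ i1) := Nat.find_spec hex
    have hi1min : ∀ i < i1, s ≤ (1 / 2) ^ i := by
      intro i hi
      have := Nat.find_min hex hi
      push Not at this; exact this
    have hi1J : i1 ≤ J := Nat.find_min' hex (by push Not; exact h0)
    have hspos : 0 < s := lt_of_le_of_lt (by positivity) h0
    have hkk : (2 : ℝ) ^ i1 ≤ kk J t := by
      have h := geom_sum_eq (by norm_num : (2 : ℝ) ≠ 1) i1
      have h2 : (2 : ℝ) ^ i1 = 1 + ∑ i ∈ Finset.range i1, (2 : ℝ) ^ i := by rw [h]; ring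
      rw [h2]
      unfold kk
      gcongr
      calc ∑ i ∈ Finset.range i1, (2 : ℝ) ^ i
          = ∑ i ∈ Finset.range i1, (2 : ℝ) ^ i * (if |sin (t / 2)| ≤ (1 / 2) ^ i then (1:ℝ) else 0) := by
            apply Finset.sum_congr rfl
            intro i hi
            rw [Finset.mem_range] at hi
            rw [if_pos (hi1min i hi), mul_one]
        _ ≤ _ := by
            apply Finset.sum_le_sum_of_subset_of_nonneg
            · intro i hi
              rw [Finset.mem_range] at *
              omega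
            · intro i _ _
              split_ifs <;> positivity
    have hd : |dir M t| * s ≤ 1 := abs_dir_mul_le M t
    have hs1 : 1 ≤ s * 2 ^ i1 := by
      push Not at hi1s
      have : (1 / 2 : ℝ) ^ i1 * 2 ^ i1 = 1 := by rw [← mul_pow]; norm_num
      calc 1 = (1 / 2 : ℝ) ^ i1 * 2 ^ i1 := this.symm
        _ ≤ s * 2 ^ i1 := by gcongr
    have : |dir M t| ≤ 2 ^ i1 := by
      calc |dir M t| = |dir M t| * 1 := by ring
        _ ≤ |dir M t| * (s * 2 ^ i1) := by gcongr
        _ = (|dir M t| * s) * 2 ^ i1 := by ring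
        _ ≤ 1 * 2 ^ i1 := by gcongr
        _ = 2 ^ i1 := one_mul _
    exact this.trans hkk

lemma abs_sin_half_ge {t : ℝ} (ht : |t| ≤ 2 * π) :
    |t| / π ≤ |sin (t / 2)| ∨ (2 * π - |t|) / π ≤ |sin (t / 2)| := by
  have hpi := Real.pi_pos
  have habs : |sin (t / 2)| = |sin (|t| / 2)| := by
    rcases le_total 0 t with h | h
    · rw [abs_of_nonneg h]
    · rw [abs_of_nonpos h, neg_div, sin_neg, abs_neg]
  rcases le_total (|t|) π with h | h
  · left
    rw [habs]
    have h1 := Real.mul_le_sin (x := |t| / 2) (by positivity) (by linarith)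
    refine le_trans ?_ (h1.trans (le_abs_self _))
    apply le_of_eq; field_simp
  · right
    rw [habs]
    have h1 := Real.mul_le_sin (x := π - |t| / 2) (by linarith) (by linarith)
    rw [sin_pi_sub] at h1
    refine le_trans ?_ (h1.trans (le_abs_self _))
    apply le_of_eq; field_simp

lemma mu_sin_le {x : ℝ} (hx : x ∈ Icc (-π) π) {δ : ℝ} (hδ : 0 ≤ δ) :
    mu {x' | |sin ((x - x') / 2)| ≤ δ} ≤ ENNReal.ofReal (3 * δ) := by
  have hpi := Real.pi_pos
  have h0 : mu {x' | |sin ((x - x') / 2)| ≤ δ} =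
      mu ({x' | |sin ((x - x') / 2)| ≤ δ} ∩ Icc (-π) π) := by
    apply measure_congr
    filter_upwards [ae_mem_Icc] with y hy
    apply propext
    constructor
    · intro h; exact ⟨h, hy⟩
    · intro h; exact h.1
  rw [h0]
  have hsub : ({x' | |sin ((x - x') / 2)| ≤ δ} ∩ Icc (-π) π) ⊆
      Icc (x - π * δ) (x + π * δ) ∪ (Icc (x - 2 * π - π * δ) (x - 2 * π + π * δ) ∪
        Icc (x + 2 * π - π * δ) (x + 2 * π + π * δ)) := by
    rintro y ⟨hy, hy2⟩
    simp only [mem_setOf_eq] at hy
    have ht : |x - y| ≤ 2 * π := by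
      rw [abs_le]; constructor <;> linarith [hx.1, hx.2, hy2.1, hy2.2]
    rcases abs_sin_half_ge ht with h | h
    · left
      have h1 : |x - y| ≤ π * δ := by
        have := h.trans hy
        rw [div_le_iff₀ hpi] at this
        linarith
      rw [abs_le] at h1
      constructor <;> linarith
    · right
      have h1 : 2 * π - |x - y| ≤ π * δ := by
        have := h.trans hy
        rw [div_le_iff₀ hpi] at this
        linarith
      rcases le_total 0 (x - y) with h2 | h2
      · left
        rw [abs_of_nonneg h2] at h1 ht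
        constructor <;> linarith
      · right
        rw [abs_of_nonpos h2] at h1 ht
        constructor <;> linarith
  calc _ ≤ mu (Icc (x - π * δ) (x + π * δ) ∪ (Icc (x - 2 * π - π * δ) (x - 2 * π + π * δ) ∪
        Icc (x + 2 * π - π * δ) (x + 2 * π + π * δ))) := measure_mono hsub
    _ ≤ mu (Icc (x - π * δ) (x + π * δ)) + (mu (Icc (x - 2 * π - π * δ) (x - 2 * π + π * δ)) +
        mu (Icc (x + 2 * π - π * δ) (x + 2 * π + π * δ))) := by
        refine (measure_union_le _ _).trans ?_
        gcongr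
        exact measure_union_le _ _
    _ ≤ ENNReal.ofReal δ + (ENNReal.ofReal δ + ENNReal.ofReal δ) := by
        gcongr
        all_goals
          refine (mu_apply_le subset_rfl).trans (ENNReal.ofReal_le_ofReal (le_of_eq ?_))
          field_simp
          ring
    _ = ENNReal.ofReal (3 * δ) := by
        rw [← ENNReal.ofReal_add hδ hδ, ← ENNReal.ofReal_add hδ (by positivity)]
        congr 1; ring

lemma lintegral_kk_le (J : ℕ) {x : ℝ} (hx : x ∈ Icc (-π) π) :
    ∫⁻ x', ENNReal.ofReal (kk J (x - x')) ∂mu ≤ ENNReal.ofReal (3 * J + 4) := by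
  have h1 : ∀ x', ENNReal.ofReal (kk J (x - x')) = 1 + ∑ i ∈ Finset.range (J + 1),
      ENNReal.ofReal ((2 : ℝ) ^ i) * indicator {x' | |sin ((x - x') / 2)| ≤ (1 / 2) ^ i} 1 x' := by
    intro x'
    unfold kk
    rw [ENNReal.ofReal_add (by norm_num), ENNReal.ofReal_sum_of_nonneg, ENNReal.ofReal_one]
    · congr 1
      apply Finset.sum_congr rfl
      intro i _
      rw [ENNReal.ofReal_mul (by positivity)]
      congr 1
      simp only [indicator, mem_setOf_eq, Pi.one_apply]
      split_ifs <;> simp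
    · intro i _
      split_ifs <;> positivity
    · apply Finset.sum_nonneg
      intro i _
      split_ifs <;> positivity
  simp only [h1]
  have hm : ∀ i : ℕ, MeasurableSet {x' : ℝ | |sin ((x - x') / 2)| ≤ (1 / 2) ^ i} := by
    intro i
    exact measurableSet_le (by fun_prop) measurable_const
  rw [lintegral_add_left measurable_const, lintegral_finsetSum _
    (fun i _ => (measurable_one.indicator (hm i)).const_mul _)]
  calc _ = 1 + ∑ i ∈ Finset.range (J + 1), ENNReal.ofReal ((2 : ℝ) ^ i) *
        mu {x' | |sin ((x - x') / 2)| ≤ (1 / 2) ^ i} := by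
        congr 1
        · simp
        · apply Finset.sum_congr rfl
          intro i _
          rw [lintegral_const_mul _ (measurable_one.indicator (hm i)), lintegral_indicator_one (hm i)]
    _ ≤ 1 + ∑ i ∈ Finset.range (J + 1), ENNReal.ofReal 3 := by
        gcongr with i _
        calc _ ≤ ENNReal.ofReal ((2 : ℝ) ^ i) * ENNReal.ofReal (3 * (1 / 2) ^ i) := by
              gcongr
              exact mu_sin_le hx (by positivity)
          _ = ENNReal.ofReal 3 := by
              rw [← ENNReal.ofReal_mul (by positivity)]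
              congr 1
              have : (2 : ℝ) ^ i * (1 / 2) ^ i = 1 := by rw [← mul_pow]; norm_num
              calc (2 : ℝ) ^ i * (3 * (1 / 2) ^ i) = 3 * ((2 : ℝ) ^ i * (1 / 2) ^ i) := by ring
                _ = 3 := by rw [this, mul_one]
    _ = ENNReal.ofReal (3 * J + 4) := by
        rw [Finset.sum_const, Finset.card_range, nsmul_eq_mul, ← ENNReal.ofReal_one,
          ← ENNReal.ofReal_natCast, ← ENNReal.ofReal_mul (by positivity), ← ENNReal.ofReal_add (by norm_num) (by positivity)]
        congr 1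
        push_cast; ring

end Pool.Agent.HarmV
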