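import Mathlib
import Pool.Agent.MP_7bd4cc_an.Kernel

open MeasureTheory Real Set Function
open scoped ENNReal

namespace Pool.Agent.HarmV

/-- measurable, integrable, and with all sections integrable -/
structure Nice (f : ℝ → ℝ → ℝ) : Prop where
  meas : Measurable (uncurry f)
  int : Integrable (uncurry f) (mu.prod mu)
  int1 : ∀ y, Integrable (fun x => f x y) mu
  int2 : ∀ x, Integrable (fun y => f x y) mu

/-- bounded continuous kernels -/
structure Ker (k : ℝ → ℝ) : Prop where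
  cont : Continuous k
  bdd : ∃ C : ℝ, ∀ t, |k t| ≤ C

lemma ker_dir (M : ℕ) : Ker (dir M) := ⟨continuous_dir M, ⟨_, abs_dir_le M⟩⟩

lemma ker_fej (N : ℕ) : Ker (fej N) := by
  refine ⟨continuous_fej N, ⟨2 * N + 1, fun t => ?_⟩⟩
  unfold fej
  rw [abs_div, abs_of_pos (by positivity : (0 : ℝ) < N + 1), div_le_iff₀ (by positivity)]
  calc |∑ M ∈ Finset.range (N + 1), dir M t| ≤ ∑ M ∈ Finset.range (N + 1), |dir M t| :=
        Finset.abs_sum_le_sum_abs _ _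
    _ ≤ ∑ M ∈ Finset.range (N + 1), (2 * (N : ℝ) + 1) := by
        apply Finset.sum_le_sum
        intro M hM
        rw [Finset.mem_range] at hM
        refine (abs_dir_le M t).trans ?_
        have : (M : ℝ) ≤ N := by exact_mod_cast Nat.lt_succ_iff.1 hM
        linarith
    _ = (2 * N + 1) * (N + 1) := by
        rw [Finset.sum_const, Finset.card_range, nsmul_eq_mul]; push_cast; ring

/-- convolution in the first variable -/
noncomputable def op1 (k : ℝ → ℝ) (f : ℝ → ℝ → ℝ) (x y : ℝ) : ℝ := ∫ x', k (x - x') * f x' y ∂mu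
/-- convolution in the second variable -/
noncomputable def op2 (k : ℝ → ℝ) (f : ℝ → ℝ → ℝ) (x y : ℝ) : ℝ := ∫ y', k (y - y') * f x y' ∂mu

lemma op2_eq (k : ℝ → ℝ) (f : ℝ → ℝ → ℝ) (x y : ℝ) : op2 k f x y = op1 k (flip f) y x := rfl

lemma Nice.swap {f : ℝ → ℝ → ℝ} (hf : Nice f) : Nice (flip f) := by
  refine ⟨hf.meas.comp measurable_swap, ?_, hf.int2, hf.int1⟩
  exact hf.int.swap

lemma Ker.integrable_mul {k : ℝ → ℝ} (hk : Ker k) {g : ℝ → ℝ} (hg : Integrable g mu) (x : ℝ) :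
    Integrable (fun x' => k (x - x') * g x') mu := by
  obtain ⟨C, hC⟩ := hk.bdd
  have hkc := hk.cont
  apply Integrable.bdd_mul (c := C) hg
  · exact (by fun_prop : Continuous fun x' => k (x - x')).aestronglyMeasurable
  · exact ae_of_all _ fun x' => by rw [Real.norm_eq_abs]; exact hC _

lemma op1_sub {k : ℝ → ℝ} (hk : Ker k) {f g : ℝ → ℝ → ℝ} (hf : Nice f) (hg : Nice g) (x y : ℝ) :
    op1 k (fun a b => f a b - g a b) x y = op1 k f x y - op1 k g x y := by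
  unfold op1
  rw [← integral_sub (hk.integrable_mul (hf.int1 y) x) (hk.integrable_mul (hg.int1 y) x)]
  congr 1; funext x'; ring

lemma op2_sub {k : ℝ → ℝ} (hk : Ker k) {f g : ℝ → ℝ → ℝ} (hf : Nice f) (hg : Nice g) (x y : ℝ) :
    op2 k (fun a b => f a b - g a b) x y = op2 k f x y - op2 k g x y :=
  op1_sub hk hf.swap hg.swap y x

lemma Nice.sub {f g : ℝ → ℝ → ℝ} (hf : Nice f) (hg : Nice g) :
    Nice (fun a b => f a b - g a b) :=
  ⟨hf.meas.sub hg.meas, hf.int.sub hg.int, fun y => (hf.int1 y).sub (hg.int1 y),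
    fun x => (hf.int2 x).sub (hg.int2 x)⟩

lemma measurable_op1 {k : ℝ → ℝ} (hk : Ker k) {f : ℝ → ℝ → ℝ} (hf : Measurable (uncurry f)) :
    Measurable (uncurry (op1 k f)) := by
  have hkm : Measurable k := hk.cont.measurable
  have h1 : Measurable (fun p : (ℝ × ℝ) × ℝ => k (p.1.1 - p.2) * uncurry f (p.2, p.1.2)) := by
    fun_prop
  have := h1.stronglyMeasurable.integral_prod_right' (ν := mu)
  exact this.measurable

lemma Nice.op1 {k : ℝ → ℝ} (hk : Ker k) {f : ℝ → ℝ → ℝ} (hf : Nice f) : Nice (op1 k f) := by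
  obtain ⟨C, hC⟩ := hk.bdd
  have hC0 : 0 ≤ C := (abs_nonneg _).trans (hC 0)
  have hm := measurable_op1 hk hf.meas
  have hb : ∀ x y, |HarmV.op1 k f x y| ≤ C * ∫ x', |f x' y| ∂mu := by
    intro x y
    calc |HarmV.op1 k f x y| ≤ ∫ x', |k (x - x') * f x' y| ∂mu := abs_integral_le_integral_abs
      _ ≤ ∫ x', C * |f x' y| ∂mu := by
          apply integral_mono_of_nonneg (ae_of_all _ fun _ => abs_nonneg _)
            ((hf.int1 y).abs.const_mul C)
          refine ae_of_all _ fun x' => ?_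
          simp only [abs_mul]
          exact mul_le_mul_of_nonneg_right (hC _) (abs_nonneg _)
      _ = C * ∫ x', |f x' y| ∂mu := integral_const_mul _ _
  have hI : Integrable (fun y => ∫ x', |f x' y| ∂mu) mu := by
    have := hf.int.norm.integral_prod_right
    simpa [uncurry, Real.norm_eq_abs] using this
  refine ⟨hm, ?_, ?_, ?_⟩
  · have h2 : Integrable (fun p : ℝ × ℝ => C * ∫ x', |f x' p.2| ∂mu) (mu.prod mu) :=
      (hI.const_mul C).comp_snd mu
    apply h2.mono' hm.aestronglyMeasurable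
    exact ae_of_all _ fun p => by rw [Real.norm_eq_abs]; exact hb p.1 p.2
  · intro y
    apply Integrable.of_bound (hm.comp measurable_prodMk_right).aestronglyMeasurable
      (C * ∫ x', |f x' y| ∂mu)
    exact ae_of_all _ fun x => by rw [Real.norm_eq_abs]; exact hb x y
  · intro x
    apply (hI.const_mul C).mono' (hm.comp measurable_prodMk_left).aestronglyMeasurable
    exact ae_of_all _ fun y => by rw [Real.norm_eq_abs]; exact hb x y

lemma Nice.op2 {k : ℝ → ℝ} (hk : Ker k) {f : ℝ → ℝ → ℝ} (hf : Nice f) : Nice (op2 k f) :=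
  (Nice.op1 hk hf.swap).swap

/-- Integrability of kernels times `f` on the product. -/
lemma integrable_kk {k l : ℝ → ℝ} (hk : Ker k) (hl : Ker l) {f : ℝ → ℝ → ℝ} (hf : Nice f)
    (x y : ℝ) : Integrable (fun p : ℝ × ℝ => k (x - p.1) * l (y - p.2) * f p.1 p.2) (mu.prod mu) := by
  obtain ⟨C, hC⟩ := hk.bdd
  obtain ⟨C', hC'⟩ := hl.bdd
  have hkc := hk.cont
  have hlc := hl.cont
  apply Integrable.bdd_mul (c := C * C') hf.int
  · exact (by fun_prop : Continuous fun p : ℝ × ℝ => k (x - p.1) * l (y - p.2)).aestronglyMeasurable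
  · exact ae_of_all _ fun p => by
      rw [Real.norm_eq_abs, abs_mul]
      exact mul_le_mul (hC _) (hC' _) (abs_nonneg _) ((abs_nonneg _).trans (hC 0))

lemma op1_op2 {k l : ℝ → ℝ} (hk : Ker k) (hl : Ker l) {f : ℝ → ℝ → ℝ} (hf : Nice f) (x y : ℝ) :
    op1 k (op2 l f) x y = ∫ p, k (x - p.1) * l (y - p.2) * f p.1 p.2 ∂(mu.prod mu) := by
  rw [integral_prod _ (integrable_kk hk hl hf x y)]
  unfold op1 op2
  congr 1; funext x'
  rw [← integral_const_mul]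
  congr 1; funext y'
  simp only
  ring

lemma op2_op1 {k l : ℝ → ℝ} (hk : Ker k) (hl : Ker l) {f : ℝ → ℝ → ℝ} (hf : Nice f) (x y : ℝ) :
    op2 l (op1 k f) x y = ∫ p, k (x - p.1) * l (y - p.2) * f p.1 p.2 ∂(mu.prod mu) := by
  rw [integral_prod_symm _ (integrable_kk hk hl hf x y)]
  unfold op1 op2
  congr 1; funext y'
  rw [← integral_const_mul]
  congr 1; funext x'
  simp only
  ring

lemma op_comm {k l : ℝ → ℝ} (hk : Ker k) (hl : Ker l) {f : ℝ → ℝ → ℝ} (hf : Nice f) :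
    op1 k (op2 l f) = op2 l (op1 k f) := by
  funext x y
  rw [op1_op2 hk hl hf, op2_op1 hk hl hf]

lemma op1_dir_fej {M N : ℕ} (h : N ≤ M) {f : ℝ → ℝ → ℝ} (hf : Nice f) :
    op1 (dir M) (op1 (fej N) f) = op1 (fej N) f := by
  funext x y
  unfold op1
  have e1 : ∀ x', dir M (x - x') * ∫ x'', fej N (x' - x'') * f x'' y ∂mu =
      ∫ x'', dir M (x - x') * (fej N (x' - x'') * f x'' y) ∂mu := by
    intro x'; rw [integral_const_mul]
  simp only [e1]
  rw [integral_integral_swap]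
  · congr 1; funext x''
    have e2 : ∀ x', dir M (x - x') * (fej N (x' - x'') * f x'' y) =
        (dir M (x - x') * fej N (x' - x'')) * f x'' y := by intro x'; ring
    simp only [e2]
    rw [integral_mul_const, integral_dir_fej h]
  · obtain ⟨C, hC⟩ := (ker_dir M).bdd
    obtain ⟨C', hC'⟩ := (ker_fej N).bdd
    have h2 : Integrable (fun p : ℝ × ℝ => f p.2 y) (mu.prod mu) := (hf.int1 y).comp_snd mu
    have h3 : Integrable (fun p : ℝ × ℝ => (dir M (x - p.1) * fej N (p.1 - p.2)) * f p.2 y)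
        (mu.prod mu) := by
      apply Integrable.bdd_mul (c := C * C') h2
      · exact (by fun_prop : Continuous fun p : ℝ × ℝ =>
          dir M (x - p.1) * fej N (p.1 - p.2)).aestronglyMeasurable
      · exact ae_of_all _ fun p => by
          rw [Real.norm_eq_abs, abs_mul]
          exact mul_le_mul (hC _) (hC' _) (abs_nonneg _) ((abs_nonneg _).trans (hC 0))
    refine h3.congr (ae_of_all _ fun p => ?_)
    simp only [uncurry]
    ring

lemma op2_dir_fej {M N : ℕ} (h : N ≤ M) {f : ℝ → ℝ → ℝ} (hf : Nice f) :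
    op2 (dir M) (op2 (fej N) f) = op2 (fej N) f := by
  have h1 := op1_dir_fej h hf.swap
  funext x y
  exact congrFun (congrFun h1 y) x

/-- nonnegative version, first variable -/
noncomputable def lop1 (k : ℝ → ℝ) (Φ : ℝ → ℝ → ℝ≥0∞) (x y : ℝ) : ℝ≥0∞ :=
  ∫⁻ x', ENNReal.ofReal (k (x - x')) * Φ x' y ∂mu
/-- nonnegative version, second variable -/
noncomputable def lop2 (k : ℝ → ℝ) (Φ : ℝ → ℝ → ℝ≥0∞) (x y : ℝ) : ℝ≥0∞ :=
  ∫⁻ y', ENNReal.ofReal (k (y - y')) * Φ x y' ∂mu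

lemma measurable_lop1 {k : ℝ → ℝ} (hk : Measurable k) {Φ : ℝ → ℝ → ℝ≥0∞}
    (hΦ : Measurable (uncurry Φ)) : Measurable (uncurry (lop1 k Φ)) := by
  have h1 : Measurable (fun p : (ℝ × ℝ) × ℝ => ENNReal.ofReal (k (p.1.1 - p.2)) *
      uncurry Φ (p.2, p.1.2)) := by
    fun_prop
  exact h1.lintegral_prod_right'

lemma measurable_lop2 {k : ℝ → ℝ} (hk : Measurable k) {Φ : ℝ → ℝ → ℝ≥0∞}
    (hΦ : Measurable (uncurry Φ)) : Measurable (uncurry (lop2 k Φ)) := by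
  have h1 : Measurable (fun p : (ℝ × ℝ) × ℝ => ENNReal.ofReal (k (p.1.2 - p.2)) *
      uncurry Φ (p.1.1, p.2)) := by
    fun_prop
  exact h1.lintegral_prod_right'

/-- the double integral -/
noncomputable def II (Φ : ℝ → ℝ → ℝ≥0∞) : ℝ≥0∞ := ∫⁻ x, ∫⁻ y, Φ x y ∂mu ∂mu

lemma II_eq_prod {Φ : ℝ → ℝ → ℝ≥0∞} (hΦ : Measurable (uncurry Φ)) :
    II Φ = ∫⁻ p, Φ p.1 p.2 ∂(mu.prod mu) := by
  exact (lintegral_prod (fun p : ℝ × ℝ => Φ p.1 p.2) hΦ.aemeasurable).symm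

lemma II_swap {Φ : ℝ → ℝ → ℝ≥0∞} (hΦ : Measurable (uncurry Φ)) :
    II Φ = ∫⁻ y, ∫⁻ x, Φ x y ∂mu ∂mu :=
  lintegral_lintegral_swap hΦ.aemeasurable

/-- `lop1` with a kernel with mass at most `c`. -/
lemma II_lop1_le {k : ℝ → ℝ} (hk : Measurable k) {c : ℝ≥0∞}
    (hc : ∀ x ∈ Icc (-π) π, ∫⁻ u, ENNReal.ofReal (k (u - x)) ∂mu ≤ c)
    {Φ : ℝ → ℝ → ℝ≥0∞} (hΦ : Measurable (uncurry Φ)) :
    II (lop1 k Φ) ≤ c * II Φ := by
  rw [II_swap (measurable_lop1 hk hΦ), II_swap hΦ]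
  have hΦ1 : ∀ y, Measurable (fun x => Φ x y) := fun y => hΦ.comp measurable_prodMk_right
  calc ∫⁻ y, ∫⁻ x, lop1 k Φ x y ∂mu ∂mu
      = ∫⁻ y, ∫⁻ x', ∫⁻ x, ENNReal.ofReal (k (x - x')) * Φ x' y ∂mu ∂mu ∂mu := by
        congr 1; funext y
        unfold lop1
        rw [lintegral_lintegral_swap]
        have : Measurable (fun p : ℝ × ℝ => ENNReal.ofReal (k (p.1 - p.2)) * Φ p.2 y) := by
          have := hΦ1 y
          fun_prop
        exact this.aemeasurable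
    _ = ∫⁻ y, ∫⁻ x', (∫⁻ x, ENNReal.ofReal (k (x - x')) ∂mu) * Φ x' y ∂mu ∂mu := by
        congr 1; funext y
        congr 1; funext x'
        rw [lintegral_mul_const]
        fun_prop
    _ ≤ ∫⁻ y, ∫⁻ x', c * Φ x' y ∂mu ∂mu := by
        apply lintegral_mono
        intro y
        apply lintegral_mono_ae
        filter_upwards [ae_mem_Icc] with x' hx'
        exact mul_le_mul' (hc x' hx') le_rfl
    _ = c * ∫⁻ y, ∫⁻ x', Φ x' y ∂mu ∂mu := by
        have : ∀ y, ∫⁻ x', c * Φ x' y ∂mu = c * ∫⁻ x', Φ x' y ∂mu := fun y =>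
          lintegral_const_mul _ (hΦ1 y)
        simp only [this]
        rw [lintegral_const_mul]
        exact hΦ.lintegral_prod_left'

lemma II_flip {Φ : ℝ → ℝ → ℝ≥0∞} (hΦ : Measurable (uncurry Φ)) : II (flip Φ) = II Φ := by
  rw [II_swap hΦ]; rfl

lemma II_lop2_le {k : ℝ → ℝ} (hk : Measurable k) {c : ℝ≥0∞}
    (hc : ∀ x ∈ Icc (-π) π, ∫⁻ u, ENNReal.ofReal (k (u - x)) ∂mu ≤ c)
    {Φ : ℝ → ℝ → ℝ≥0∞} (hΦ : Measurable (uncurry Φ)) :
    II (lop2 k Φ) ≤ c * II Φ := by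
  have h1 : Measurable (uncurry (flip Φ)) := hΦ.comp measurable_swap
  have h2 := II_lop1_le hk hc h1
  rw [II_flip hΦ] at h2
  have h3 : lop2 k Φ = flip (lop1 k (flip Φ)) := rfl
  rw [h3, II_flip (measurable_lop1 hk h1)]
  exact h2

lemma II_fej1 (N : ℕ) {Φ : ℝ → ℝ → ℝ≥0∞} (hΦ : Measurable (uncurry Φ)) :
    II (lop1 (fej N) Φ) ≤ II Φ := by
  have := II_lop1_le (continuous_fej N).measurable (c := 1)
    (fun x _ => (lintegral_fej' N x).le) hΦ
  rwa [one_mul] at this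

lemma II_fej2 (N : ℕ) {Φ : ℝ → ℝ → ℝ≥0∞} (hΦ : Measurable (uncurry Φ)) :
    II (lop2 (fej N) Φ) ≤ II Φ := by
  have := II_lop2_le (continuous_fej N).measurable (c := 1)
    (fun x _ => (lintegral_fej' N x).le) hΦ
  rwa [one_mul] at this

lemma lintegral_kk_le' (J : ℕ) {x : ℝ} (hx : x ∈ Icc (-π) π) :
    ∫⁻ u, ENNReal.ofReal (kk J (u - x)) ∂mu ≤ ENNReal.ofReal (3 * J + 4) := by
  have : ∀ u, kk J (u - x) = kk J (x - u) := by
    intro u; rw [← kk_neg, neg_sub]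
  simp only [this]
  exact lintegral_kk_le J hx

lemma II_kk1 (J : ℕ) {Φ : ℝ → ℝ → ℝ≥0∞} (hΦ : Measurable (uncurry Φ)) :
    II (lop1 (kk J) Φ) ≤ ENNReal.ofReal (3 * J + 4) * II Φ :=
  II_lop1_le (measurable_kk J) (fun _ hx => lintegral_kk_le' J hx) hΦ

lemma II_kk2 (J : ℕ) {Φ : ℝ → ℝ → ℝ≥0∞} (hΦ : Measurable (uncurry Φ)) :
    II (lop2 (kk J) Φ) ≤ ENNReal.ofReal (3 * J + 4) * II Φ :=
  II_lop2_le (measurable_kk J) (fun _ hx => lintegral_kk_le' J hx) hΦ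

lemma enorm_op1_le {k k' : ℝ → ℝ} (h : ∀ t, |k t| ≤ k' t) {f : ℝ → ℝ → ℝ} {Φ : ℝ → ℝ → ℝ≥0∞}
    (hΦ : ∀ x y, ‖f x y‖ₑ ≤ Φ x y) (x y : ℝ) : ‖op1 k f x y‖ₑ ≤ lop1 k' Φ x y := by
  unfold op1 lop1
  refine (enorm_integral_le_lintegral_enorm _).trans (lintegral_mono fun x' => ?_)
  rw [enorm_mul]
  refine mul_le_mul' ?_ (hΦ _ _)
  rw [Real.enorm_eq_ofReal_abs]
  exact ENNReal.ofReal_le_ofReal (h _)

lemma enorm_op2_le {k k' : ℝ → ℝ} (h : ∀ t, |k t| ≤ k' t) {f : ℝ → ℝ → ℝ} {Φ : ℝ → ℝ → ℝ≥0∞}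
    (hΦ : ∀ x y, ‖f x y‖ₑ ≤ Φ x y) (x y : ℝ) : ‖op2 k f x y‖ₑ ≤ lop2 k' Φ x y :=
  enorm_op1_le (f := flip f) (Φ := flip Φ) h (fun x y => hΦ y x) y x

lemma abs_fej (N : ℕ) (t : ℝ) : |fej N t| ≤ fej N t := (abs_of_nonneg (fej_nonneg N t)).le

end Pool.Agent.HarmV
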