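import Mathlib
import Pool.Agent.MP_7bd4cc_an.Defs

open MeasureTheory Real Set
open scoped ENNReal

namespace Pool.Agent.HarmV

/-- grid points of the uniform grid with `n` cells on `[-π, π]` -/
noncomputable def gp (n j : ℕ) : ℝ := -π + 2 * π * ((j : ℝ) / n)

lemma gp_mono (n : ℕ) : Monotone (gp n) := by
  intro j j' h
  unfold gp
  have := Real.pi_pos
  gcongr

lemma gp_zero (n : ℕ) : gp n 0 = -π := by simp [gp]

lemma gp_self {n : ℕ} (hn : 0 < n) : gp n n = π := by
  unfold gp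
  have : (n : ℝ) ≠ 0 := by positivity
  rw [div_self this]; ring

lemma neg_pi_le_gp (n j : ℕ) : -π ≤ gp n j := by
  rw [← gp_zero n]; exact gp_mono n (Nat.zero_le _)

lemma gp_le_pi {n j : ℕ} (hn : 0 < n) (h : j ≤ n) : gp n j ≤ π := by
  rw [← gp_self hn]; exact gp_mono n h

lemma gp_nested {n t : ℕ} (hn : 0 < n) (ht : 0 < t) (j : ℕ) :
    gp n (j / t) ≤ gp (n * t) j ∧ gp (n * t) (j + 1) ≤ gp n (j / t + 1) := by
  have hpi := Real.pi_pos
  have hn' : (0 : ℝ) < n := by positivity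
  have ht' : (0 : ℝ) < t := by positivity
  constructor
  · unfold gp
    have : ((j / t : ℕ) : ℝ) / n ≤ (j : ℝ) / (n * t : ℕ) := by
      push_cast
      rw [div_le_div_iff₀ hn' (by positivity)]
      have h1 : ((j / t : ℕ) : ℝ) * t ≤ j := by
        exact_mod_cast Nat.div_mul_le_self j t
      nlinarith
    gcongr
  · unfold gp
    have : ((j + 1 : ℕ) : ℝ) / (n * t : ℕ) ≤ ((j / t + 1 : ℕ) : ℝ) / n := by
      push_cast
      rw [div_le_div_iff₀ (by positivity) hn']
      have h1 : (j : ℝ) + 1 ≤ (((j / t : ℕ) : ℝ) + 1) * t := by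
        have := Nat.lt_succ_iff.1 (Nat.lt_succ_of_le (Nat.succ_le_of_lt (Nat.lt_mul_div_succ j ht)))
        have h2 : j + 1 ≤ (j / t + 1) * t := by
          rw [mul_comm]; exact this
        exact_mod_cast h2
      nlinarith
    gcongr

lemma cell_disjoint {n j1 j2 : ℕ} (h : j1 ≠ j2) {c1 d1 c2 d2 : ℝ}
    (h1 : gp n j1 ≤ c1 ∧ d1 ≤ gp n (j1 + 1)) (h2 : gp n j2 ≤ c2 ∧ d2 ≤ gp n (j2 + 1)) :
    Disjoint (Ioo c1 d1) (Ioo c2 d2) := by
  rw [Set.disjoint_left]
  rintro x ⟨hx1, hx2⟩ ⟨hx3, hx4⟩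
  rcases lt_or_gt_of_ne h with h | h
  · have := gp_mono n (Nat.succ_le_of_lt h)
    simp only [Nat.succ_eq_add_one] at this
    linarith [h1.1, h1.2, h2.1, h2.2]
  · have := gp_mono n (Nat.succ_le_of_lt h)
    simp only [Nat.succ_eq_add_one] at this
    linarith [h1.1, h1.2, h2.1, h2.2]

/-- The combinatorial heart: many large oscillations on nested grids force a large harmonic
variation. -/
theorem lemmaA_real (g : ℝ → ℝ) (n : ℕ → ℕ) (hn : ∀ i, 0 < n i) (hdvd : ∀ i, n i ∣ n (i + 1))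
    (σ : ℕ → ℝ) (hσ : ∀ i, 0 ≤ σ i) (R : ℕ) (hR : 1 ≤ R)
    (S : ℕ → Finset ℕ) (hS : ∀ i, 2 ≤ i → i ≤ R → 4 ^ i ≤ (S i).card)
    (hSr : ∀ i, ∀ j ∈ S i, j < n i)
    (c d : ℕ → ℕ → ℝ)
    (hcd : ∀ i, 2 ≤ i → i ≤ R → ∀ j ∈ S i, gp (n i) j ≤ c i j ∧ c i j ≤ d i j ∧
      d i j ≤ gp (n i) (j + 1) ∧ σ i ≤ |g (d i j) - g (c i j)|) :
    ∃ I : ℕ → ℝ × ℝ, NonOverlapping (-π) π I ∧
      (1 / 4) * ∑ i ∈ Finset.Ico 2 (R + 1), σ i ≤
        ∑ k ∈ Finset.Ico (2 ^ 2) (2 ^ (R + 1)), |g (I k).2 - g (I k).1| / ((k : ℝ) + 1) := by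
  classical
  have key : ∃ I : ℕ → ℝ × ℝ, NonOverlapping (-π) π I ∧
      (∀ k, ∃ j, j < n 2 ∧ gp (n 2) j ≤ (I k).1 ∧ (I k).2 ≤ gp (n 2) (j + 1)) ∧
      (1 / 2 - (1 / 2) ^ 2) * ∑ i ∈ Finset.Ico 2 (R + 1), σ i ≤
        ∑ k ∈ Finset.Ico (2 ^ 2) (2 ^ (R + 1)), |g (I k).2 - g (I k).1| / ((k : ℝ) + 1) := by
    refine Nat.decreasingInduction' (m := 2) (n := R + 1)
      (P := fun i => ∃ I : ℕ → ℝ × ℝ, NonOverlapping (-π) π I ∧
        (∀ k, ∃ j, j < n i ∧ gp (n i) j ≤ (I k).1 ∧ (I k).2 ≤ gp (n i) (j + 1)) ∧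
        (1 / 2 - (1 / 2) ^ i) * ∑ r ∈ Finset.Ico i (R + 1), σ r ≤
          ∑ k ∈ Finset.Ico (2 ^ i) (2 ^ (R + 1)), |g (I k).2 - g (I k).1| / ((k : ℝ) + 1)) ?_ ?_ ?_
    · -- step
      rintro i hiR hi2 ⟨I, hI, hIc, hIw⟩
      have hiR' : i ≤ R := Nat.lt_succ_iff.1 hiR
      obtain ⟨t, ht⟩ := hdvd i
      have ht0 : 0 < t := by
        rcases Nat.eq_zero_or_pos t with h | h
        · have := hn (i + 1)
          rw [ht, h, mul_zero] at this
          exact absurd this (lt_irrefl _)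
        · exact h
      have hJex : ∀ k, ∃ j, j < n i ∧ gp (n i) j ≤ (I k).1 ∧ (I k).2 ≤ gp (n i) (j + 1) := by
        intro k
        obtain ⟨j', hj', h1, h2⟩ := hIc k
        refine ⟨j' / t, ?_, ?_, ?_⟩
        · rw [Nat.div_lt_iff_lt_mul ht0, ← ht]; exact hj'
        · rw [ht] at h1
          exact (gp_nested (hn i) ht0 j').1.trans h1
        · rw [ht] at h2
          exact h2.trans (gp_nested (hn i) ht0 j').2
      choose J hJn hJ1 hJ2 using hJex
      have hcard : Fintype.card (Fin (2 ^ i) × Fin (2 ^ i)) ≤ Fintype.card (S i) := by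
        simp only [Fintype.card_prod, Fintype.card_fin, Fintype.card_coe]
        refine le_trans (le_of_eq ?_) (hS i hi2 hiR')
        rw [← mul_pow]
        norm_num
      obtain ⟨e⟩ := Function.Embedding.nonempty_of_card_le hcard
      set w : ℕ → ℝ := fun k => |g (I k).2 - g (I k).1| / ((k : ℝ) + 1) with hw
      have hw0 : ∀ k, 0 ≤ w k := fun k => by positivity
      set killed : Fin (2 ^ i) → ℕ → Prop := fun t k => ∃ j, J k = (e (t, j) : ℕ) with hkilled
      have hkill_unique : ∀ t t' k, killed t k → killed t' k → t = t' := by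
        rintro t t' k ⟨j, hj⟩ ⟨j', hj'⟩
        have : (e (t, j) : ℕ) = (e (t', j') : ℕ) := by rw [← hj, ← hj']
        have h2 := e.injective (Subtype.ext this)
        exact (Prod.ext_iff.1 h2).1
      set U := Finset.Ico (2 ^ (i + 1)) (2 ^ (R + 1)) with hU
      set W := ∑ k ∈ U, w k with hW
      have hsumkill : ∑ t : Fin (2 ^ i), ∑ k ∈ U, (if killed t k then w k else 0) ≤
          ∑ t : Fin (2 ^ i), (1 / 2) ^ i * W := by
        rw [Finset.sum_comm, Finset.sum_const, Finset.card_univ, Fintype.card_fin, nsmul_eq_mul]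
        have h1 : ((2 ^ i : ℕ) : ℝ) * ((1 / 2) ^ i * W) = W := by
          push_cast
          rw [← mul_assoc, ← mul_pow]; norm_num
        rw [h1, hW]
        apply Finset.sum_le_sum
        intro k _
        by_cases hk : ∃ t, killed t k
        · obtain ⟨t0, ht0⟩ := hk
          rw [Finset.sum_eq_single t0]
          · rw [if_pos ht0]
          · intro b _ hb
            rw [if_neg]
            intro hb'
            exact hb (hkill_unique _ _ _ hb' ht0)
          · intro h; exact absurd (Finset.mem_univ _) h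
        · push Not at hk
          simp only [hk, if_false, Finset.sum_const_zero]
          exact hw0 k
      have hne : (Finset.univ : Finset (Fin (2 ^ i))).Nonempty :=
        ⟨⟨0, by positivity⟩, Finset.mem_univ _⟩
      obtain ⟨t0, -, ht0⟩ := Finset.exists_le_of_sum_le hne hsumkill
      -- new family
      set I' : ℕ → ℝ × ℝ := fun k =>
        if h : 2 ^ i ≤ k ∧ k < 2 ^ (i + 1) then
          (c i (e (t0, ⟨k - 2 ^ i, by rw [pow_succ] at h; omega⟩)),
            d i (e (t0, ⟨k - 2 ^ i, by rw [pow_succ] at h; omega⟩)))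
        else if killed t0 k then (-π, -π) else I k with hI'
      -- description of I'
      have hnew : ∀ k, (2 ^ i ≤ k ∧ k < 2 ^ (i + 1)) → ∃ j : Fin (2 ^ i), (j : ℕ) = k - 2 ^ i ∧
          I' k = (c i (e (t0, j)), d i (e (t0, j))) := by
        intro k hk
        refine ⟨⟨k - 2 ^ i, by have := hk.2; rw [pow_succ] at this; omega⟩, rfl, ?_⟩
        simp only [hI']
        rw [dif_pos hk]
      have hold : ∀ k, ¬ (2 ^ i ≤ k ∧ k < 2 ^ (i + 1)) → I' k = if killed t0 k then (-π, -π) else I k := by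
        intro k hk
        simp only [hI']
        rw [dif_neg hk]
      have hpi := Real.pi_pos
      refine ⟨I', ⟨?_, ?_⟩, ?_, ?_⟩
      · intro k
        by_cases hk : 2 ^ i ≤ k ∧ k < 2 ^ (i + 1)
        · obtain ⟨j, -, hj⟩ := hnew k hk
          obtain ⟨h1, h2, h3, -⟩ := hcd i hi2 hiR' (e (t0, j)) (e (t0, j)).2
          rw [hj]
          refine ⟨(neg_pi_le_gp _ _).trans h1, h2, h3.trans (gp_le_pi (hn i) ?_)⟩
          exact hSr i _ (e (t0, j)).2
        · rw [hold k hk]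
          split_ifs
          · exact ⟨le_rfl, le_rfl, by linarith⟩
          · exact hI.1 k
      · intro k k' hkk'
        by_cases hk : 2 ^ i ≤ k ∧ k < 2 ^ (i + 1)
        · obtain ⟨j, hjk, hj⟩ := hnew k hk
          obtain ⟨h1, h2, h3, -⟩ := hcd i hi2 hiR' (e (t0, j)) (e (t0, j)).2
          by_cases hk' : 2 ^ i ≤ k' ∧ k' < 2 ^ (i + 1)
          · obtain ⟨j', hjk', hj'⟩ := hnew k' hk'
            obtain ⟨h1', h2', h3', -⟩ := hcd i hi2 hiR' (e (t0, j')) (e (t0, j')).2
            simp only [hj, hj']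
            apply cell_disjoint _ ⟨h1, h3⟩ ⟨h1', h3'⟩
            intro heq
            have := e.injective (Subtype.ext heq)
            have h4 := (Prod.ext_iff.1 this).2
            simp only at h4
            rw [h4] at hjk
            omega
          · simp only [hj, hold k' hk']
            split_ifs with hkl
            · simp
            · apply cell_disjoint _ ⟨h1, h3⟩ ⟨hJ1 k', hJ2 k'⟩
              intro heq
              exact hkl ⟨j, heq.symm⟩
        · by_cases hk' : 2 ^ i ≤ k' ∧ k' < 2 ^ (i + 1)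
          · obtain ⟨j', hjk', hj'⟩ := hnew k' hk'
            obtain ⟨h1', h2', h3', -⟩ := hcd i hi2 hiR' (e (t0, j')) (e (t0, j')).2
            simp only [hj', hold k hk]
            split_ifs with hkl
            · simp
            · apply cell_disjoint _ ⟨hJ1 k, hJ2 k⟩ ⟨h1', h3'⟩
              intro heq
              exact hkl ⟨j', heq⟩
          · simp only [hold k hk, hold k' hk']
            split_ifs with ha hb
            · simp
            · simp
            · simp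
            · exact hI.2 hkk'
      · intro k
        by_cases hk : 2 ^ i ≤ k ∧ k < 2 ^ (i + 1)
        · obtain ⟨j, hjk, hj⟩ := hnew k hk
          obtain ⟨h1, h2, h3, -⟩ := hcd i hi2 hiR' (e (t0, j)) (e (t0, j)).2
          refine ⟨e (t0, j), hSr i _ (e (t0, j)).2, ?_, ?_⟩
          · rw [hj]; exact h1
          · rw [hj]; exact h3
        · rw [hold k hk]
          split_ifs
          · refine ⟨0, hn i, ?_, ?_⟩
            · simp only; rw [gp_zero]
            · simp only; exact neg_pi_le_gp _ _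
          · exact ⟨J k, hJn k, hJ1 k, hJ2 k⟩
      · -- weights
        have hsplit : ∑ k ∈ Finset.Ico (2 ^ i) (2 ^ (R + 1)), |g (I' k).2 - g (I' k).1| / ((k : ℝ) + 1)
            = ∑ k ∈ Finset.Ico (2 ^ i) (2 ^ (i + 1)), |g (I' k).2 - g (I' k).1| / ((k : ℝ) + 1)
              + ∑ k ∈ U, |g (I' k).2 - g (I' k).1| / ((k : ℝ) + 1) := by
          rw [hU, Finset.sum_Ico_consecutive]
          · exact Nat.pow_le_pow_right (by norm_num) (by omega)
          · exact Nat.pow_le_pow_right (by norm_num) (by omega)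
        rw [hsplit]
        have hA : (1 / 2) * σ i ≤
            ∑ k ∈ Finset.Ico (2 ^ i) (2 ^ (i + 1)), |g (I' k).2 - g (I' k).1| / ((k : ℝ) + 1) := by
          calc (1 / 2) * σ i = ∑ k ∈ Finset.Ico (2 ^ i) (2 ^ (i + 1)), σ i / (2 ^ (i + 1)) := by
                rw [Finset.sum_const, Nat.card_Ico, nsmul_eq_mul]
                have : ((2 ^ (i + 1) - 2 ^ i : ℕ) : ℝ) = 2 ^ i := by
                  rw [pow_succ, mul_two, Nat.add_sub_cancel]; push_cast; rfl
                rw [this, pow_succ]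
                field_simp
            _ ≤ _ := by
                apply Finset.sum_le_sum
                intro k hk
                rw [Finset.mem_Ico] at hk
                obtain ⟨j, hjk, hj⟩ := hnew k hk
                obtain ⟨-, -, -, h4⟩ := hcd i hi2 hiR' (e (t0, j)) (e (t0, j)).2
                rw [hj]
                have hk2 : (k : ℝ) + 1 ≤ 2 ^ (i + 1) := by exact_mod_cast hk.2
                exact div_le_div₀ (abs_nonneg _) h4 (by positivity) hk2
        have hB : W - (1 / 2) ^ i * W ≤ ∑ k ∈ U, |g (I' k).2 - g (I' k).1| / ((k : ℝ) + 1) := by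
          have h1 : ∑ k ∈ U, |g (I' k).2 - g (I' k).1| / ((k : ℝ) + 1) =
              ∑ k ∈ U, (w k - (if killed t0 k then w k else 0)) := by
            apply Finset.sum_congr rfl
            intro k hk
            rw [hU, Finset.mem_Ico] at hk
            rw [hold k (by omega)]
            split_ifs
            · simp
            · simp [hw]
          rw [h1, Finset.sum_sub_distrib]
          linarith
        rw [Finset.sum_eq_sum_Ico_succ_bot (by omega : i < R + 1)]
        set T := ∑ r ∈ Finset.Ico (i + 1) (R + 1), σ r with hT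
        have hT0 : 0 ≤ T := Finset.sum_nonneg fun r _ => hσ r
        have hx0 : (0 : ℝ) ≤ (1 / 2) ^ i := by positivity
        have hx1 : ((1 : ℝ) / 2) ^ i ≤ 1 := pow_le_one₀ (by norm_num) (by norm_num)
        rw [pow_succ] at hIw
        set x := ((1 : ℝ) / 2) ^ i with hx
        have hσi := hσ i
        have hC : (1 - x) * ((1 / 2 - x * (1 / 2)) * T) ≤ (1 - x) * W :=
          mul_le_mul_of_nonneg_left hIw (by linarith)
        have hD : (1 / 2 - x) * T ≤ (1 - x) * ((1 / 2 - x * (1 / 2)) * T) := by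
          have : (1 - x) * ((1 / 2 - x * (1 / 2)) * T) - (1 / 2 - x) * T = x ^ 2 / 2 * T := by ring
          have h2 : 0 ≤ x ^ 2 / 2 * T := by positivity
          linarith
        have hE : (1 / 2 - x) * σ i ≤ (1 / 2) * σ i := by nlinarith
        linarith
    · omega
    · -- base
      refine ⟨fun _ => (-π, -π), ⟨?_, ?_⟩, ?_, ?_⟩
      · intro k
        have := Real.pi_pos
        exact ⟨le_rfl, le_rfl, by simp only; linarith⟩
      · intro k k' _
        simp
      · intro k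
        refine ⟨0, hn _, ?_, ?_⟩
        · simp only; rw [gp_zero]
        · simp only; exact neg_pi_le_gp _ _
      · simp
  obtain ⟨I, h1, -, h2⟩ := key
  refine ⟨I, h1, le_trans (le_of_eq ?_) h2⟩
  norm_num

theorem lemmaA (g : ℝ → ℝ) (n : ℕ → ℕ) (hn : ∀ i, 0 < n i) (hdvd : ∀ i, n i ∣ n (i + 1))
    (σ : ℕ → ℝ) (hσ : ∀ i, 0 ≤ σ i) (R : ℕ) (hR : 1 ≤ R)
    (S : ℕ → Finset ℕ) (hS : ∀ i, 2 ≤ i → i ≤ R → 4 ^ i ≤ (S i).card)
    (hSr : ∀ i, ∀ j ∈ S i, j < n i)
    (hcd : ∀ i, 2 ≤ i → i ≤ R → ∀ j ∈ S i, ∃ c d, gp (n i) j ≤ c ∧ c ≤ d ∧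
      d ≤ gp (n i) (j + 1) ∧ σ i ≤ |g d - g c|) :
    ENNReal.ofReal ((1 / 4) * ∑ i ∈ Finset.Ico 2 (R + 1), σ i) ≤ totalHV (-π) π g := by
  classical
  have hex : ∀ i j, ∃ c d : ℝ, 2 ≤ i → i ≤ R → j ∈ S i → gp (n i) j ≤ c ∧ c ≤ d ∧
      d ≤ gp (n i) (j + 1) ∧ σ i ≤ |g d - g c| := by
    intro i j
    by_cases h : 2 ≤ i ∧ i ≤ R ∧ j ∈ S i
    · obtain ⟨c, d, hh⟩ := hcd i h.1 h.2.1 j h.2.2
      exact ⟨c, d, fun _ _ _ => hh⟩
    · exact ⟨0, 0, fun h1 h2 h3 => absurd ⟨h1, h2, h3⟩ h⟩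
  choose c d hcd' using hex
  obtain ⟨I, hI, hw⟩ := lemmaA_real g n hn hdvd σ hσ R hR S hS hSr c d
    (fun i h1 h2 j h3 => hcd' i j h1 h2 h3)
  calc ENNReal.ofReal ((1 / 4) * ∑ i ∈ Finset.Ico 2 (R + 1), σ i)
      ≤ ENNReal.ofReal (∑ k ∈ Finset.Ico (2 ^ 2) (2 ^ (R + 1)), |g (I k).2 - g (I k).1| / ((k : ℝ) + 1)) :=
        ENNReal.ofReal_le_ofReal hw
    _ = ∑ k ∈ Finset.Ico (2 ^ 2) (2 ^ (R + 1)), ENNReal.ofReal (|g (I k).2 - g (I k).1| / ((k : ℝ) + 1)) := by
        rw [ENNReal.ofReal_sum_of_nonneg]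
        intro k _; positivity
    _ ≤ ∑' k, ENNReal.ofReal (|g (I k).2 - g (I k).1| / ((k : ℝ) + 1)) := ENNReal.sum_le_tsum _
    _ ≤ totalHV (-π) π g := by
        unfold totalHV
        exact le_iSup₂_of_le I hI le_rfl

end Pool.Agent.HarmV
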