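import Mathlib
import Pool.Agent.MP_7bd4cc_an.Kernel
import Pool.Agent.MP_7bd4cc_an.LemmaA

open MeasureTheory Real Set
open scoped ENNReal

namespace Pool.Agent.HarmV

/-- oscillation of `g` on the `j`-th closed cell of the grid with `n` cells -/
noncomputable def osc (g : ℝ → ℝ) (n j : ℕ) : ℝ≥0∞ :=
  ⨆ (c : ℝ) (d : ℝ) (_ : gp n j ≤ c ∧ c ≤ d ∧ d ≤ gp n (j + 1)), ‖g d - g c‖ₑ

lemma le_osc {g : ℝ → ℝ} {n j : ℕ} {x x' : ℝ} (hx : x ∈ Icc (gp n j) (gp n (j + 1)))
    (hx' : x' ∈ Icc (gp n j) (gp n (j + 1))) : ‖g x - g x'‖ₑ ≤ osc g n j := by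
  rcases le_total x x' with h | h
  · rw [← enorm_neg, neg_sub]
    exact le_iSup₂_of_le x x' (le_iSup_of_le ⟨hx.1, h, hx'.2⟩ le_rfl)
  · exact le_iSup₂_of_le x' x (le_iSup_of_le ⟨hx'.1, h, hx.2⟩ le_rfl)

lemma enorm_sub_le_totalHV (g : ℝ → ℝ) {c d : ℝ} (hc : -π ≤ c) (hcd : c ≤ d) (hd : d ≤ π) :
    ‖g d - g c‖ₑ ≤ totalHV (-π) π g := by
  classical
  have hpi := Real.pi_pos
  set I : ℕ → ℝ × ℝ := fun k => if k = 0 then (c, d) else (-π, -π) with hI
  have hN : NonOverlapping (-π) π I := by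
    constructor
    · intro k
      by_cases hk : k = 0
      · simp only [hI, hk, if_true]; exact ⟨hc, hcd, hd⟩
      · simp only [hI, hk, if_false]; exact ⟨le_rfl, le_rfl, by linarith⟩
    · intro i j hij
      by_cases hi : i = 0
      · have hj : j ≠ 0 := fun h => hij (by rw [hi, h])
        simp [hI, hj]
      · simp [hI, hi]
  calc ‖g d - g c‖ₑ = ENNReal.ofReal (|g (I 0).2 - g (I 0).1| / (((0 : ℕ) : ℝ) + 1)) := by
        simp only [hI, if_true, Nat.cast_zero, zero_add, div_one]
        rw [Real.enorm_eq_ofReal_abs]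
    _ ≤ ∑' k : ℕ, ENNReal.ofReal (|g (I k).2 - g (I k).1| / ((k : ℝ) + 1)) :=
        ENNReal.le_tsum 0
    _ ≤ totalHV (-π) π g := le_iSup₂_of_le I hN le_rfl

lemma enorm_sub_le_totalHV' (g : ℝ → ℝ) {x x' : ℝ} (hx : x ∈ Icc (-π) π) (hx' : x' ∈ Icc (-π) π) :
    ‖g x - g x'‖ₑ ≤ totalHV (-π) π g := by
  rcases le_total x x' with h | h
  · rw [← enorm_neg, neg_sub]
    exact enorm_sub_le_totalHV g hx.1 h hx'.2
  · exact enorm_sub_le_totalHV g hx'.1 h hx.2

lemma osc_le_totalHV (g : ℝ → ℝ) {n j : ℕ} (hj : j < n) : osc g n j ≤ totalHV (-π) π g := by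
  unfold osc
  refine iSup₂_le fun c d => iSup_le fun h => ?_
  exact enorm_sub_le_totalHV g ((neg_pi_le_gp _ _).trans h.1) h.2.1
    (h.2.2.trans (gp_le_pi (by omega) (by omega)))

/-- selecting the `m`-th largest value -/
lemma exists_sel {q m : ℕ} (hm : 0 < m) (hmq : m ≤ q) (ω : ℕ → ℝ≥0∞) :
    ∃ s : ℝ≥0∞, ((Finset.range q).filter fun j => s < ω j).card < m ∧
      m ≤ ((Finset.range q).filter fun j => s ≤ ω j).card := by
  classical
  -- candidates
  set cand := (Finset.range q).filter fun i => m ≤ ((Finset.range q).filter fun j => ω i ≤ ω j).card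
    with hcand
  have hne : cand.Nonempty := by
    have h0 : (Finset.range q).Nonempty := ⟨0, Finset.mem_range.2 (by omega)⟩
    obtain ⟨i, hi, hmin⟩ := Finset.exists_min_image (Finset.range q) ω h0
    refine ⟨i, Finset.mem_filter.2 ⟨hi, ?_⟩⟩
    rw [Finset.filter_true_of_mem hmin, Finset.card_range]
    exact hmq
  obtain ⟨i, hi, hmax⟩ := Finset.exists_max_image cand ω hne
  rw [hcand, Finset.mem_filter] at hi
  refine ⟨ω i, ?_, hi.2⟩
  by_contra hcon
  push Not at hcon
  have hne2 : ((Finset.range q).filter fun j => ω i < ω j).Nonempty := by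
    rw [← Finset.card_pos]; omega
  obtain ⟨i', hi', hmin'⟩ := Finset.exists_min_image _ ω hne2
  rw [Finset.mem_filter] at hi'
  have hi'c : i' ∈ cand := by
    rw [hcand, Finset.mem_filter]
    refine ⟨hi'.1, hcon.trans (Finset.card_le_card ?_)⟩
    intro j hj
    rw [Finset.mem_filter]
    exact ⟨(Finset.mem_filter.1 hj).1, hmin' j hj⟩
  exact absurd (hmax i' hi'c) (not_le.2 hi'.2)

/-- grid sizes -/
def gQ (k : ℕ) : ℕ := 16 ^ (4 ^ (k + 1))
/-- thresholds -/
def gM (k : ℕ) : ℕ := 4 ^ (4 ^ (k + 1))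

lemma gQ_pos (k : ℕ) : 0 < gQ k := by unfold gQ; positivity
lemma gM_pos (k : ℕ) : 0 < gM k := by unfold gM; positivity
lemma gM_sq (k : ℕ) : gM k * gM k = gQ k := by
  unfold gM gQ; rw [← mul_pow]; norm_num
lemma gM_le_gQ (k : ℕ) : gM k ≤ gQ k := by
  rw [← gM_sq]; exact Nat.le_mul_of_pos_left _ (gM_pos k)

lemma exists_sel' (g : ℝ → ℝ) (k : ℕ) :
    ∃ s : ℝ≥0∞, ((Finset.range (gQ k)).filter fun j => s < osc g (gQ k) j).card < gM k ∧
      gM k ≤ ((Finset.range (gQ k)).filter fun j => s ≤ osc g (gQ k) j).card :=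
  exists_sel (gM_pos k) (gM_le_gQ k) _

/-- the `gM k`-th largest oscillation on the grid with `gQ k` cells -/
noncomputable def sel (g : ℝ → ℝ) (k : ℕ) : ℝ≥0∞ := (exists_sel' g k).choose

lemma sel_lt (g : ℝ → ℝ) (k : ℕ) :
    ((Finset.range (gQ k)).filter fun j => sel g k < osc g (gQ k) j).card < gM k :=
  (exists_sel' g k).choose_spec.1

lemma le_sel (g : ℝ → ℝ) (k : ℕ) :
    gM k ≤ ((Finset.range (gQ k)).filter fun j => sel g k ≤ osc g (gQ k) j).card :=
  (exists_sel' g k).choose_spec.2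

lemma sel_le_totalHV (g : ℝ → ℝ) (k : ℕ) : sel g k ≤ totalHV (-π) π g := by
  have h := le_sel g k
  have hne : ((Finset.range (gQ k)).filter fun j => sel g k ≤ osc g (gQ k) j).Nonempty := by
    rw [← Finset.card_pos]; have := gM_pos k; omega
  obtain ⟨j, hj⟩ := hne
  rw [Finset.mem_filter, Finset.mem_range] at hj
  exact hj.2.trans (osc_le_totalHV g hj.1)

lemma sum_block (s : ℕ → ℝ) (hs : ∀ k, 0 ≤ s k) (K : ℕ) :
    ∑ k ∈ Finset.range (K + 1), 4 ^ k * s k ≤
      ∑ i ∈ Finset.Ico 2 (4 ^ (K + 1)), s (Nat.log 4 i) / 2 := by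
  induction K with
  | zero =>
    have : Finset.Ico 2 (4 ^ (0 + 1)) = {2, 3} := by decide
    rw [this, Finset.sum_pair (by norm_num)]
    have h2 : Nat.log 4 2 = 0 := by decide
    have h3 : Nat.log 4 3 = 0 := by decide
    rw [h2, h3]
    simp
  | succ K ih =>
    rw [Finset.sum_range_succ]
    have h1 : 4 ^ (K + 1) ≤ 4 ^ (K + 1 + 1) := Nat.pow_le_pow_right (by norm_num) (by omega)
    have h0 : 2 ≤ 4 ^ (K + 1) := by
      calc 2 ≤ 4 ^ 1 := by norm_num
        _ ≤ 4 ^ (K + 1) := Nat.pow_le_pow_right (by norm_num) (by omega)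
    rw [← Finset.sum_Ico_consecutive _ h0 h1]
    refine add_le_add ih ?_
    have h2 : ∑ i ∈ Finset.Ico (4 ^ (K + 1)) (4 ^ (K + 1 + 1)), s (Nat.log 4 i) / 2 =
        ∑ i ∈ Finset.Ico (4 ^ (K + 1)) (4 ^ (K + 1 + 1)), s (K + 1) / 2 := by
      apply Finset.sum_congr rfl
      intro i hi
      rw [Finset.mem_Ico] at hi
      rw [(Nat.log_eq_iff (Or.inl (by omega))).2 ⟨hi.1, hi.2⟩]
    rw [h2, Finset.sum_const, Nat.card_Ico, nsmul_eq_mul]
    have h3 : ((4 ^ (K + 1 + 1) - 4 ^ (K + 1) : ℕ) : ℝ) = 3 * 4 ^ (K + 1) := by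
      rw [Nat.cast_sub h1]; push_cast; ring
    rw [h3]
    have := hs (K + 1)
    have h4 : (0 : ℝ) ≤ 4 ^ (K + 1) * s (K + 1) := by positivity
    linarith

theorem sum_sel_le (g : ℝ → ℝ) (K : ℕ) :
    ∑ k ∈ Finset.range K, 4 ^ k * sel g k ≤ 4 * totalHV (-π) π g := by
  classical
  rcases K with _ | K
  · simp
  by_cases hV : totalHV (-π) π g = ⊤
  · rw [hV]; simp
  have hfin : ∀ k, sel g k ≠ ⊤ := fun k => ne_top_of_le_ne_top hV (sel_le_totalHV g k)
  set s : ℕ → ℝ := fun k => (sel g k).toReal with hs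
  have hs0 : ∀ k, 0 ≤ s k := fun k => ENNReal.toReal_nonneg
  have hA := lemmaA g (fun i => gQ (Nat.log 4 i)) (fun i => gQ_pos _)
    (by
      intro i
      unfold gQ
      apply pow_dvd_pow
      apply Nat.pow_le_pow_right (by norm_num)
      have : Nat.log 4 i ≤ Nat.log 4 (i + 1) := Nat.log_mono_right (b := 4) (Nat.le_succ i)
      omega)
    (fun i => s (Nat.log 4 i) / 2) (fun i => by have := hs0 (Nat.log 4 i); positivity)
    (4 ^ (K + 1) - 1) (by
      have : 4 ^ 1 ≤ 4 ^ (K + 1) := Nat.pow_le_pow_right (by norm_num) (by omega)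
      omega)
    (fun i => (Finset.range (gQ (Nat.log 4 i))).filter fun j =>
      sel g (Nat.log 4 i) ≤ osc g (gQ (Nat.log 4 i)) j)
    (by
      intro i hi _
      refine le_trans ?_ (le_sel g (Nat.log 4 i))
      unfold gM
      apply Nat.pow_le_pow_right (by norm_num)
      exact (Nat.lt_pow_succ_log_self (by norm_num) i).le)
    (by
      intro i j hj
      rw [Finset.mem_filter, Finset.mem_range] at hj
      exact hj.1)
    (by
      intro i _ _ j hj
      rw [Finset.mem_filter, Finset.mem_range] at hj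
      set k := Nat.log 4 i with hk
      rcases eq_or_lt_of_le (hs0 k) with h0 | h0
      · refine ⟨gp (gQ k) j, gp (gQ k) j, le_rfl, le_rfl, gp_mono _ (by omega), ?_⟩
        rw [← h0]; simp
      · have h1 : sel g k / 2 < osc g (gQ k) j := by
          refine lt_of_lt_of_le ?_ hj.2
          apply ENNReal.half_lt_self _ (hfin k)
          intro h
          simp only [hs, h, ENNReal.toReal_zero, lt_self_iff_false] at h0
        unfold osc at h1
        rw [lt_iSup_iff] at h1
        obtain ⟨c, h1⟩ := h1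
        rw [lt_iSup_iff] at h1
        obtain ⟨d, h1⟩ := h1
        rw [lt_iSup_iff] at h1
        obtain ⟨hcd, h1⟩ := h1
        refine ⟨c, d, hcd.1, hcd.2.1, hcd.2.2, ?_⟩
        rw [Real.enorm_eq_ofReal_abs] at h1
        have h2 := ENNReal.toReal_mono ENNReal.ofReal_ne_top h1.le
        rw [ENNReal.toReal_div, ENNReal.toReal_ofReal (abs_nonneg _)] at h2
        simpa using h2)
  have hR : 4 ^ (K + 1) - 1 + 1 = 4 ^ (K + 1) := Nat.sub_add_cancel (Nat.one_le_pow _ _ (by norm_num))
  rw [hR] at hA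
  have hB := sum_block s hs0 K
  have hC : ENNReal.ofReal ((1 / 4) * ∑ k ∈ Finset.range (K + 1), 4 ^ k * s k) ≤ totalHV (-π) π g := by
    refine le_trans (ENNReal.ofReal_le_ofReal ?_) hA
    linarith
  calc ∑ k ∈ Finset.range (K + 1), 4 ^ k * sel g k
      = ENNReal.ofReal (∑ k ∈ Finset.range (K + 1), 4 ^ k * s k) := by
        rw [ENNReal.ofReal_sum_of_nonneg (fun k _ => by have := hs0 k; positivity)]
        apply Finset.sum_congr rfl
        intro k _
        rw [ENNReal.ofReal_mul (by positivity), ENNReal.ofReal_pow (by norm_num)]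
        simp only [hs]
        rw [ENNReal.ofReal_toReal (hfin k)]
        norm_num
    _ = 4 * ENNReal.ofReal ((1 / 4) * ∑ k ∈ Finset.range (K + 1), 4 ^ k * s k) := by
        rw [show (4 : ℝ≥0∞) = ENNReal.ofReal 4 by norm_num, ← ENNReal.ofReal_mul (by norm_num)]
        congr 1; ring
    _ ≤ 4 * totalHV (-π) π g := by gcongr

theorem tsum_sel_le (g : ℝ → ℝ) :
    ∑' k, 4 ^ k * sel g k ≤ 4 * totalHV (-π) π g := by
  rw [ENNReal.tsum_eq_iSup_nat]
  exact iSup_le fun K => sum_sel_le g K

/-- Fejer-averaged oscillation -/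
noncomputable def al (N : ℕ) (g : ℝ → ℝ) (x : ℝ) : ℝ≥0∞ :=
  ∫⁻ x', ENNReal.ofReal (fej N (x - x')) * ‖g x - g x'‖ₑ ∂mu

lemma fej_far {n N : ℕ} (hn : 0 < n) {t : ℝ} (h1 : 2 * π / n ≤ |t|) (h2 : |t| ≤ 2 * π - 2 * π / n) :
    fej N t ≤ (n : ℝ) ^ 2 / (4 * (N + 1)) := by
  have hpi := Real.pi_pos
  have hn' : (0 : ℝ) < n := by positivity
  have hs : 2 / (n : ℝ) ≤ |sin (t / 2)| := by
    have hdiv : 0 ≤ 2 * π / n := by positivity
    rcases abs_sin_half_ge (t := t) (by linarith) with h | h
    · refine le_trans ?_ h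
      rw [le_div_iff₀ hpi]
      calc 2 / (n : ℝ) * π = 2 * π / n := by ring
        _ ≤ |t| := h1
    · refine le_trans ?_ h
      rw [le_div_iff₀ hpi]
      calc 2 / (n : ℝ) * π = 2 * π / n := by ring
        _ ≤ 2 * π - |t| := by linarith
  have hs2 : 4 / (n : ℝ) ^ 2 ≤ sin (t / 2) ^ 2 := by
    rw [← sq_abs (sin (t / 2))]
    calc 4 / (n : ℝ) ^ 2 = (2 / (n : ℝ)) ^ 2 := by ring
      _ ≤ |sin (t / 2)| ^ 2 := by gcongr
  have h3 := fej_mul_sin_sq_le N t
  have h4 : fej N t * (4 / (n : ℝ) ^ 2) ≤ 1 / (N + 1) :=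
    (mul_le_mul_of_nonneg_left hs2 (fej_nonneg N t)).trans h3
  calc fej N t = fej N t * (4 / (n : ℝ) ^ 2) * ((n : ℝ) ^ 2 / 4) := by field_simp
    _ ≤ 1 / (N + 1) * ((n : ℝ) ^ 2 / 4) := by gcongr
    _ = (n : ℝ) ^ 2 / (4 * (N + 1)) := by field_simp

lemma exists_cell {n : ℕ} (hn : 0 < n) {x : ℝ} (hx : x ∈ Icc (-π) π) :
    ∃ j, j < n ∧ x ∈ Icc (gp n j) (gp n (j + 1)) := by
  have hpi := Real.pi_pos
  have hn' : (0 : ℝ) < n := by positivity
  rcases eq_or_lt_of_le hx.2 with h | h
  · refine ⟨n - 1, by omega, ?_, ?_⟩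
    · rw [h]; exact gp_le_pi hn (by omega)
    · rw [h, Nat.sub_add_cancel hn, gp_self hn]
  · set y := (x + π) * n / (2 * π) with hy
    have hy0 : 0 ≤ y := by
      have : 0 ≤ x + π := by linarith [hx.1]
      positivity
    have hyn : y < n := by
      rw [hy, div_lt_iff₀ (by positivity)]
      nlinarith
    refine ⟨⌊y⌋₊, ?_, ?_, ?_⟩
    · exact (Nat.floor_lt hy0).2 hyn
    · unfold gp
      have := Nat.floor_le hy0
      have h2 : 2 * π * ((⌊y⌋₊ : ℝ) / n) ≤ 2 * π * (y / n) := by gcongr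
      have h3 : 2 * π * (y / n) = x + π := by rw [hy]; field_simp
      linarith
    · unfold gp
      have := (Nat.lt_floor_add_one y).le
      have h2 : 2 * π * (y / n) ≤ 2 * π * (((⌊y⌋₊ + 1 : ℕ) : ℝ) / n) := by
        push_cast; gcongr
      have h3 : 2 * π * (y / n) = x + π := by rw [hy]; field_simp
      linarith

lemma gp_succ (n j : ℕ) : gp n (j + 1) = gp n j + 2 * π / n := by
  unfold gp; push_cast; ring

lemma mu_exc_le (g : ℝ → ℝ) {n m : ℕ} (hn : 0 < n) (N : ℕ) (s : ℝ≥0∞)
    (hs : ((Finset.range n).filter fun j => s < osc g n j).card < m) :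
    mu {x | 2 * s + totalHV (-π) π g * ENNReal.ofReal ((n : ℝ) ^ 2 / (4 * (N + 1))) < al N g x} ≤
      ENNReal.ofReal (3 * m / n) := by
  classical
  have hpi := Real.pi_pos
  have hn' : (0 : ℝ) < n := by positivity
  set V := totalHV (-π) π g with hV
  set Bad := (Finset.range n).filter fun j => s < osc g n j with hBad
  set E : Set ℝ := Icc (-π) (gp n 1) ∪ (Icc (gp n (n - 1)) π ∪
    ⋃ j ∈ Bad, Icc (gp n j - 2 * π / n) (gp n (j + 1) + 2 * π / n)) with hE
  have hmain : ∀ x ∈ Icc (-π) π, x ∉ E → al N g x ≤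
      2 * s + V * ENNReal.ofReal ((n : ℝ) ^ 2 / (4 * (N + 1))) := by
    intro x hx hxE
    simp only [hE, mem_union, mem_iUnion, not_or, not_exists] at hxE
    obtain ⟨hx1, hx2, hx3⟩ := hxE
    have hx1' : gp n 1 < x := by
      by_contra h; push Not at h; exact hx1 ⟨hx.1, h⟩
    have hx2' : x < gp n (n - 1) := by
      by_contra h; push Not at h; exact hx2 ⟨h, hx.2⟩
    have hg1 : gp n 1 = -π + 2 * π / n := by
      have := gp_succ n 0
      rwa [gp_zero, zero_add] at this
    have hg2 : gp n (n - 1) = π - 2 * π / n := by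
      have := gp_succ n (n - 1)
      rw [Nat.sub_add_cancel hn, gp_self hn] at this
      linarith
    have hpt : ∀ x' ∈ Icc (-π) π, ENNReal.ofReal (fej N (x - x')) * ‖g x - g x'‖ₑ ≤
        ENNReal.ofReal (fej N (x - x')) * (2 * s) + V * ENNReal.ofReal ((n : ℝ) ^ 2 / (4 * (N + 1))) := by
      intro x' hx'
      by_cases hd : |x - x'| < 2 * π / n
      · -- near
        refine le_trans ?_ le_self_add
        gcongr
        obtain ⟨j, hjn, hj⟩ := exists_cell hn hx
        obtain ⟨j', hjn', hj'⟩ := exists_cell hn hx'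
        rw [abs_lt] at hd
        have hjB : j ∉ Bad := by
          intro h
          apply hx3 j h
          have : 0 ≤ 2 * π / n := by positivity
          exact ⟨by linarith [hj.1], by linarith [hj.2]⟩
        have hjB' : j' ∉ Bad := by
          intro h
          apply hx3 j' h
          exact ⟨by linarith [hj'.1], by linarith [hj'.2]⟩
        have hω : osc g n j ≤ s := by
          by_contra h; push Not at h
          exact hjB (Finset.mem_filter.2 ⟨Finset.mem_range.2 hjn, h⟩)
        have hω' : osc g n j' ≤ s := by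
          by_contra h; push Not at h
          exact hjB' (Finset.mem_filter.2 ⟨Finset.mem_range.2 hjn', h⟩)
        have htri : ∀ e : ℝ, ‖g x - g x'‖ₑ ≤ ‖g x - g e‖ₑ + ‖g e - g x'‖ₑ := by
          intro e
          have : g x - g x' = (g x - g e) + (g e - g x') := by ring
          rw [this]; exact enorm_add_le _ _
        rcases lt_trichotomy j j' with h | h | h
        · -- j < j'
          have hj2 : j' = j + 1 := by
            by_contra hne
            have h2 : j + 1 + 1 ≤ j' := by omega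
            have := gp_mono n h2
            rw [gp_succ n (j + 1)] at this
            linarith [hj.2, hj'.1]
          subst hj2
          refine (htri (gp n (j + 1))).trans ?_
          rw [two_mul]
          refine add_le_add ((le_osc hj ⟨gp_mono n (by omega), le_rfl⟩).trans hω)
            ((le_osc ⟨le_rfl, gp_mono n (by omega)⟩ hj').trans hω')
        · subst h
          refine (le_osc hj hj').trans (hω.trans ?_)
          rw [two_mul]; exact le_self_add
        · have hj2 : j = j' + 1 := by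
            by_contra hne
            have h2 : j' + 1 + 1 ≤ j := by omega
            have := gp_mono n h2
            rw [gp_succ n (j' + 1)] at this
            linarith [hj'.2, hj.1]
          subst hj2
          refine (htri (gp n (j' + 1))).trans ?_
          rw [two_mul]
          refine add_le_add ((le_osc hj ⟨le_rfl, gp_mono n (by omega)⟩).trans hω)
            ((le_osc ⟨gp_mono n (by omega), le_rfl⟩ hj').trans hω')
      · -- far
        push Not at hd
        refine le_trans ?_ le_add_self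
        rw [mul_comm]
        refine mul_le_mul' (enorm_sub_le_totalHV' g hx hx') (ENNReal.ofReal_le_ofReal ?_)
        apply fej_far hn hd
        rw [abs_le]
        constructor <;> linarith [hx.1, hx.2, hx'.1, hx'.2]
    calc al N g x ≤ ∫⁻ x', (ENNReal.ofReal (fej N (x - x')) * (2 * s) +
          V * ENNReal.ofReal ((n : ℝ) ^ 2 / (4 * (N + 1)))) ∂mu := by
          unfold al
          apply lintegral_mono_ae
          filter_upwards [ae_mem_Icc] with x' hx'
          exact hpt x' hx'
      _ = 2 * s + V * ENNReal.ofReal ((n : ℝ) ^ 2 / (4 * (N + 1))) := by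
          rw [lintegral_add_right _ measurable_const, lintegral_mul_const, lintegral_fej, one_mul,
            lintegral_const, measure_univ, mul_one]
          fun_prop
  have hsub : ∀ᵐ x ∂mu, (x ∈ {x | 2 * s + V * ENNReal.ofReal ((n : ℝ) ^ 2 / (4 * (N + 1))) < al N g x})
      → x ∈ E := by
    filter_upwards [ae_mem_Icc] with x hx hx2
    by_contra hxE
    exact absurd (hmain x hx hxE) (not_le.2 hx2)
  calc _ ≤ mu E := measure_mono_ae hsub
    _ ≤ ENNReal.ofReal (1 / n) + (ENNReal.ofReal (1 / n) + ∑ j ∈ Bad, ENNReal.ofReal (3 / n)) := by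
        refine (measure_union_le _ _).trans (add_le_add ?_ ((measure_union_le _ _).trans
          (add_le_add ?_ ((measure_biUnion_finset_le _ _).trans (Finset.sum_le_sum fun j _ => ?_)))))
        · refine (mu_apply_le subset_rfl).trans (ENNReal.ofReal_le_ofReal (le_of_eq ?_))
          have := gp_succ n 0
          rw [gp_zero, zero_add] at this
          rw [this]
          field_simp
          ring
        · refine (mu_apply_le subset_rfl).trans (ENNReal.ofReal_le_ofReal (le_of_eq ?_))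
          have := gp_succ n (n - 1)
          rw [Nat.sub_add_cancel hn, gp_self hn] at this
          rw [show π - gp n (n - 1) = 2 * π / n by linarith]
          field_simp
        · refine (mu_apply_le subset_rfl).trans (ENNReal.ofReal_le_ofReal (le_of_eq ?_))
          rw [gp_succ]
          field_simp
          ring
    _ = ENNReal.ofReal ((2 + 3 * Bad.card) / n) := by
        rw [Finset.sum_const, nsmul_eq_mul, ← ENNReal.ofReal_natCast,
          ← ENNReal.ofReal_mul (by positivity), ← ENNReal.ofReal_add (by positivity) (by positivity),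
          ← ENNReal.ofReal_add (by positivity) (by positivity)]
        congr 1; ring
    _ ≤ ENNReal.ofReal (3 * m / n) := by
        apply ENNReal.ofReal_le_ofReal
        have : (Bad.card : ℝ) + 1 ≤ m := by exact_mod_cast hs
        gcongr
        linarith

end Pool.Agent.HarmV
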