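import Mathlib
import Pool.Agent.MP_7bd4cc_an.Kernel
import Pool.Agent.MP_7bd4cc_an.KSP
import Pool.Agent.MP_7bd4cc_an.Osc
import Pool.Agent.MP_7bd4cc_an.Ops

open MeasureTheory Real Set Function
open scoped ENNReal

namespace Pool.Agent.HarmV

/-! ### numerical sequences -/

/-- Fejer orders / block boundaries -/
def bN (k : ℕ) : ℕ := gQ (k + 1)
/-- dyadic exponents of the block ends -/
def bJ (k : ℕ) : ℕ := 4 ^ (k + 4)

lemma bN_eq (k : ℕ) : bN (k + 1) = 2 ^ bJ k := by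
  unfold bN gQ bJ
  rw [show 16 = 2 ^ 4 by norm_num, ← pow_mul]
  congr 1
  ring

lemma bJ_cast (k : ℕ) : (bJ k : ℝ) = 256 * 4 ^ k := by
  unfold bJ; push_cast; rw [pow_add]; ring

lemma bN_pos (k : ℕ) : 0 < bN k := gQ_pos _

lemma bN_eq_pow (k : ℕ) : bN k = gQ k ^ 4 := by
  unfold bN gQ
  rw [← pow_mul]
  congr 1

lemma four_pow_ge (k : ℕ) : 4 * (k + 1) ≤ 4 ^ (k + 1) := by
  induction k with
  | zero => norm_num
  | succ k ih => rw [pow_succ]; omega

/-- exceptional measures -/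
noncomputable def tau (k : ℕ) : ℝ≥0∞ := ENNReal.ofReal (3 * gM k / gQ k)
/-- square roots of majorants of `tau` -/
noncomputable def tt (k : ℕ) : ℝ≥0∞ := ENNReal.ofReal (2 * (1 / 2) ^ (4 ^ (k + 1)))
/-- tails -/
noncomputable def ep (k : ℕ) : ℝ≥0∞ := ENNReal.ofReal (1 / gQ k)

lemma tau_eq (k : ℕ) : tau k = ENNReal.ofReal (3 * (1 / 4) ^ (4 ^ (k + 1))) := by
  unfold tau
  congr 1
  rw [← gM_sq]
  have h : (gM k : ℝ) ≠ 0 := by have := gM_pos k; positivity
  push_cast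
  have h2 : (gM k : ℝ) = 4 ^ (4 ^ (k + 1)) := by unfold gM; push_cast; ring
  rw [one_div, inv_pow, ← h2]
  field_simp

lemma tau_le_tt_sq (k : ℕ) : tau k ≤ tt k ^ 2 := by
  rw [tau_eq, tt, ← ENNReal.ofReal_pow (by positivity)]
  apply ENNReal.ofReal_le_ofReal
  have : (2 * (1 / 2 : ℝ) ^ (4 ^ (k + 1))) ^ 2 = 4 * (1 / 4) ^ (4 ^ (k + 1)) := by
    rw [mul_pow, ← pow_mul, mul_comm (4 ^ (k + 1)) 2, pow_mul]
    norm_num
  rw [this]
  gcongr
  norm_num

lemma pow4_tt_le (k : ℕ) : 4 ^ k * tt k ≤ ENNReal.ofReal 2 * (1 / 2) ^ k := by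
  have h1 : (4 : ℝ≥0∞) ^ k = ENNReal.ofReal (4 ^ k) := by
    rw [ENNReal.ofReal_pow (by norm_num)]; norm_num
  have h2 : ((1 : ℝ≥0∞) / 2) ^ k = ENNReal.ofReal ((1 / 2) ^ k) := by
    rw [ENNReal.ofReal_pow (by norm_num), ENNReal.ofReal_div_of_pos (by norm_num)]; norm_num
  rw [h1, h2, tt, ← ENNReal.ofReal_mul (by positivity), ← ENNReal.ofReal_mul (by positivity)]
  apply ENNReal.ofReal_le_ofReal
  have h3 : (1 / 2 : ℝ) ^ (4 ^ (k + 1)) ≤ (1 / 2) ^ (3 * k) :=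
    pow_le_pow_of_le_one (by norm_num) (by norm_num) (by have := four_pow_ge k; omega)
  calc (4 : ℝ) ^ k * (2 * (1 / 2) ^ (4 ^ (k + 1))) ≤ 4 ^ k * (2 * (1 / 2) ^ (3 * k)) := by gcongr
    _ = 2 * (1 / 2) ^ k := by
      rw [pow_mul, mul_left_comm, ← mul_pow]
      norm_num

lemma pow4_ep_le (k : ℕ) : 4 ^ k * ep k ≤ (1 / 2) ^ k := by
  have h1 : (4 : ℝ≥0∞) ^ k = ENNReal.ofReal (4 ^ k) := by
    rw [ENNReal.ofReal_pow (by norm_num)]; norm_num
  have h2 : ((1 : ℝ≥0∞) / 2) ^ k = ENNReal.ofReal ((1 / 2) ^ k) := by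
    rw [ENNReal.ofReal_pow (by norm_num), ENNReal.ofReal_div_of_pos (by norm_num)]; norm_num
  rw [h1, h2, ep, ← ENNReal.ofReal_mul (by positivity)]
  apply ENNReal.ofReal_le_ofReal
  have h3 : (1 : ℝ) / gQ k ≤ 1 / 16 ^ k := by
    have : 16 ^ k ≤ gQ k := by
      unfold gQ
      exact Nat.pow_le_pow_right (by norm_num) (by have := four_pow_ge k; omega)
    have h4 : (16 : ℝ) ^ k ≤ gQ k := by exact_mod_cast this
    gcongr
  calc (4 : ℝ) ^ k * (1 / gQ k) ≤ 4 ^ k * (1 / 16 ^ k) := by gcongr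
    _ = (1 / 4) ^ k := by
      rw [mul_one_div, ← div_pow]; norm_num
    _ ≤ (1 / 2) ^ k := by gcongr; norm_num

lemma pow64_tau_le (k : ℕ) : 64 ^ k * tau k ≤ ENNReal.ofReal 3 * (1 / 4) ^ k := by
  have h1 : (64 : ℝ≥0∞) ^ k = ENNReal.ofReal (64 ^ k) := by
    rw [ENNReal.ofReal_pow (by norm_num)]; norm_num
  have h2 : ((1 : ℝ≥0∞) / 4) ^ k = ENNReal.ofReal ((1 / 4) ^ k) := by
    rw [ENNReal.ofReal_pow (by norm_num), ENNReal.ofReal_div_of_pos (by norm_num)]; norm_num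
  rw [h1, h2, tau_eq, ← ENNReal.ofReal_mul (by positivity), ← ENNReal.ofReal_mul (by positivity)]
  apply ENNReal.ofReal_le_ofReal
  have h3 : (1 / 4 : ℝ) ^ (4 ^ (k + 1)) ≤ (1 / 4) ^ (4 * k) :=
    pow_le_pow_of_le_one (by norm_num) (by norm_num) (by have := four_pow_ge k; omega)
  calc (64 : ℝ) ^ k * (3 * (1 / 4) ^ (4 ^ (k + 1))) ≤ 64 ^ k * (3 * (1 / 4) ^ (4 * k)) := by gcongr
    _ = 3 * (1 / 4) ^ k := by
      rw [pow_mul, mul_left_comm, ← mul_pow]
      norm_num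

lemma tsum_half_ne_top : (∑' k : ℕ, ((1 : ℝ≥0∞) / 2) ^ k) ≠ ⊤ := by
  rw [ENNReal.tsum_geometric]
  simp

lemma tsum_quarter_ne_top : (∑' k : ℕ, ((1 : ℝ≥0∞) / 4) ^ k) ≠ ⊤ := by
  refine ne_top_of_le_ne_top tsum_half_ne_top (ENNReal.tsum_le_tsum fun k => ?_)
  gcongr
  norm_num

lemma tau_def (k : ℕ) : tau k = ENNReal.ofReal (3 * gM k / gQ k) := rfl

attribute [irreducible] bN bJ tau tt ep

/-! ### quantiles -/

/-- the `τ`-quantile of `φ` -/
noncomputable def qt (τ : ℝ≥0∞) (φ : ℝ → ℝ≥0∞) : ℝ≥0∞ :=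
  ⨆ r : ℚ, (if τ < mu {x | ((Real.toNNReal r : NNReal) : ℝ≥0∞) < φ x} then
    ((Real.toNNReal r : NNReal) : ℝ≥0∞) else 0)

lemma qt_le {τ : ℝ≥0∞} {φ : ℝ → ℝ≥0∞} {T : ℝ≥0∞} (h : mu {x | T < φ x} ≤ τ) : qt τ φ ≤ T := by
  unfold qt
  refine iSup_le fun r => ?_
  split_ifs with hr
  · by_contra hcon
    push Not at hcon
    refine absurd hr (not_lt.2 ((measure_mono ?_).trans h))
    intro x hx
    exact hcon.trans hx
  · exact zero_le

lemma mu_qt_lt_le (τ : ℝ≥0∞) (φ : ℝ → ℝ≥0∞) : mu {x | qt τ φ < φ x} ≤ τ := by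
  have hsub : {x | qt τ φ < φ x} ⊆
      ⋃ r : {r : ℚ // qt τ φ < ((Real.toNNReal r : NNReal) : ℝ≥0∞)},
        {x | ((Real.toNNReal (r : ℚ) : NNReal) : ℝ≥0∞) < φ x} := by
    intro x hx
    obtain ⟨q, hq0, hq1, hq2⟩ := ENNReal.lt_iff_exists_rat_btwn.1 (show qt τ φ < φ x from hx)
    exact mem_iUnion.2 ⟨⟨q, hq1⟩, hq2⟩
  refine (measure_mono hsub).trans ?_
  rw [Directed.measure_iUnion]
  · refine iSup_le fun r => ?_
    by_contra hcon
    push Not at hcon
    have : ((Real.toNNReal (r : ℚ) : NNReal) : ℝ≥0∞) ≤ qt τ φ := by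
      unfold qt
      refine le_iSup_of_le (r : ℚ) ?_
      rw [if_pos hcon]
    exact absurd r.2 (not_lt.2 this)
  · intro r s
    rcases le_total (Real.toNNReal (r : ℚ)) (Real.toNNReal (s : ℚ)) with h | h
    · refine ⟨r, subset_rfl, fun x hx => lt_of_le_of_lt ?_ (show _ < φ x from hx)⟩
      exact_mod_cast h
    · refine ⟨s, fun x hx => lt_of_le_of_lt ?_ (show _ < φ x from hx), subset_rfl⟩
      exact_mod_cast h

lemma measurable_qt (τ : ℝ≥0∞) {Φ : ℝ → ℝ → ℝ≥0∞} (hΦ : Measurable (uncurry Φ)) :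
    Measurable (fun y => qt τ (fun x => Φ x y)) := by
  unfold qt
  apply Measurable.iSup
  intro r
  apply Measurable.ite _ measurable_const measurable_const
  have hs : MeasurableSet {p : ℝ × ℝ | ((Real.toNNReal r : NNReal) : ℝ≥0∞) < Φ p.1 p.2} :=
    measurableSet_lt measurable_const hΦ
  exact measurableSet_lt measurable_const (measurable_measure_prodMk_right hs)

/-! ### the one-directional data -/

/-- Fejer-averaged oscillation in the first variable -/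
noncomputable def alp (k : ℕ) (f : ℝ → ℝ → ℝ) (x y : ℝ) : ℝ≥0∞ :=
  al (bN k) (fun x' => f x' y) x

lemma measurable_alp (k : ℕ) {f : ℝ → ℝ → ℝ} (hf : Measurable (uncurry f)) :
    Measurable (uncurry (alp k f)) := by
  have hk : Measurable (fej (bN k)) := (continuous_fej _).measurable
  have h1 : Measurable (fun p : (ℝ × ℝ) × ℝ => ENNReal.ofReal (fej (bN k) (p.1.1 - p.2)) *
      ‖uncurry f (p.1.1, p.1.2) - uncurry f (p.2, p.1.2)‖ₑ) := by
    fun_prop
  exact h1.lintegral_prod_right'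

lemma measurable_alp_left (k : ℕ) {f : ℝ → ℝ → ℝ} (hf : Measurable (uncurry f)) (y : ℝ) :
    Measurable (fun x => alp k f x y) :=
  (measurable_alp k hf).comp (g := uncurry (alp k f)) (f := fun x => (x, y)) measurable_prodMk_right

lemma measurableSet_exc (k : ℕ) {f : ℝ → ℝ → ℝ} (hf : Measurable (uncurry f)) (y : ℝ)
    (c : ℝ≥0∞) : MeasurableSet {x | c < alp k f x y} := by
  have h := measurable_alp_left k hf y
  exact measurableSet_lt measurable_const h

/-- quantile of `alp` -/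
noncomputable def aq (k : ℕ) (f : ℝ → ℝ → ℝ) (y : ℝ) : ℝ≥0∞ := qt (tau k) (fun x => alp k f x y)

lemma measurable_aq (k : ℕ) {f : ℝ → ℝ → ℝ} (hf : Measurable (uncurry f)) :
    Measurable (aq k f) := measurable_qt _ (measurable_alp k hf)

/-- exceptional part -/
noncomputable def rh (k : ℕ) (f : ℝ → ℝ → ℝ) (x y : ℝ) : ℝ≥0∞ :=
  if aq k f y < alp k f x y then alp k f x y else 0

lemma alp_le (k : ℕ) (f : ℝ → ℝ → ℝ) (x y : ℝ) : alp k f x y ≤ aq k f y + rh k f x y := by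
  unfold rh
  split_ifs with h
  · exact le_add_self
  · push Not at h; rw [add_zero]; exact h

lemma measurable_rh (k : ℕ) {f : ℝ → ℝ → ℝ} (hf : Measurable (uncurry f)) :
    Measurable (uncurry (rh k f)) := by
  have h1 := measurable_alp k hf
  have h2 := measurable_aq k hf
  have : uncurry (rh k f) = fun p : ℝ × ℝ => if aq k f p.2 < uncurry (alp k f) p then
      uncurry (alp k f) p else 0 := by
    funext p; rfl
  rw [this]
  exact Measurable.ite (measurableSet_lt (h2.comp measurable_snd) h1) h1 measurable_const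

/-- hypothesis in the first variable -/
structure Dir1 (f : ℝ → ℝ → ℝ) (V : ℝ → ℝ≥0∞) : Prop where
  meas : Measurable V
  int : ∫⁻ y, V y ∂mu ≠ ⊤
  ex : ∀ᵐ y ∂mu, ∃ g : ℝ → ℝ, totalHV (-π) π g ≤ V y ∧ (fun x => f x y) =ᵐ[mu] g

lemma alp_congr (k : ℕ) {f : ℝ → ℝ → ℝ} {y : ℝ} {g : ℝ → ℝ} (h : (fun x => f x y) =ᵐ[mu] g) :
    (fun x => alp k f x y) =ᵐ[mu] fun x => al (bN k) g x := by
  filter_upwards [h] with x hx
  unfold alp al
  apply lintegral_congr_ae
  filter_upwards [h] with x' hx'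
  rw [hx, hx']

lemma al_le_totalHV (N : ℕ) (g : ℝ → ℝ) {x : ℝ} (hx : x ∈ Icc (-π) π) :
    al N g x ≤ totalHV (-π) π g := by
  unfold al
  calc ∫⁻ x', ENNReal.ofReal (fej N (x - x')) * ‖g x - g x'‖ₑ ∂mu
      ≤ ∫⁻ x', ENNReal.ofReal (fej N (x - x')) * totalHV (-π) π g ∂mu := by
        apply lintegral_mono_ae
        filter_upwards [ae_mem_Icc] with x' hx'
        exact mul_le_mul' le_rfl (enorm_sub_le_totalHV' g hx hx')
    _ = totalHV (-π) π g := by
        rw [lintegral_mul_const, lintegral_fej, one_mul]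
        fun_prop

lemma aq_le_of_g (k : ℕ) {f : ℝ → ℝ → ℝ} {y : ℝ} {g : ℝ → ℝ}
    (h : (fun x => f x y) =ᵐ[mu] g) :
    aq k f y ≤ 2 * sel g k + totalHV (-π) π g * ep k := by
  unfold aq
  apply qt_le
  have h1 := mu_exc_le g (gQ_pos k) (bN k) (sel g k) (sel_lt g k)
  have h2 : ENNReal.ofReal ((gQ k : ℝ) ^ 2 / (4 * (bN k + 1))) ≤ ep k := by
    unfold ep
    apply ENNReal.ofReal_le_ofReal
    have hQ : (1 : ℝ) ≤ gQ k := by exact_mod_cast gQ_pos k
    rw [bN_eq_pow]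
    push_cast
    rw [div_le_div_iff₀ (by positivity) (by positivity)]
    have h3 : (gQ k : ℝ) ^ 2 * gQ k ≤ (gQ k : ℝ) ^ 4 := by
      calc (gQ k : ℝ) ^ 2 * gQ k = (gQ k : ℝ) ^ 3 := by ring
        _ ≤ (gQ k : ℝ) ^ 4 := pow_le_pow_right₀ hQ (by norm_num)
    have h4 : (0 : ℝ) ≤ (gQ k : ℝ) ^ 4 := by positivity
    linarith
  calc mu {x | 2 * sel g k + totalHV (-π) π g * ep k < alp k f x y}
      = mu {x | 2 * sel g k + totalHV (-π) π g * ep k < al (bN k) g x} := by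
        apply measure_congr
        filter_upwards [alp_congr k h] with x hx
        apply propext
        show _ < alp k f x y ↔ _ < al (bN k) g x
        rw [hx]
    _ ≤ mu {x | 2 * sel g k + totalHV (-π) π g *
          ENNReal.ofReal ((gQ k : ℝ) ^ 2 / (4 * (bN k + 1))) < al (bN k) g x} := by
        apply measure_mono
        intro x hx
        refine lt_of_le_of_lt ?_ (show _ < al (bN k) g x from hx)
        gcongr
    _ ≤ tau k := by rw [tau_def]; exact h1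

lemma Dir1.tsum_aq_le {f : ℝ → ℝ → ℝ} {V : ℝ → ℝ≥0∞} (h : Dir1 f V) :
    ∀ᵐ y ∂mu, ∑' k, 4 ^ k * aq k f y ≤ (8 + ∑' k : ℕ, ((1 : ℝ≥0∞) / 2) ^ k) * V y := by
  filter_upwards [h.ex] with y hy
  obtain ⟨g, hg, hfg⟩ := hy
  calc ∑' k, 4 ^ k * aq k f y ≤ ∑' k, (2 * (4 ^ k * sel g k) + (1 / 2) ^ k * V y) := by
        refine ENNReal.tsum_le_tsum fun k => ?_
        calc 4 ^ k * aq k f y ≤ 4 ^ k * (2 * sel g k + totalHV (-π) π g * ep k) := by
              gcongr; exact aq_le_of_g k hfg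
          _ = 2 * (4 ^ k * sel g k) + (4 ^ k * ep k) * totalHV (-π) π g := by ring
          _ ≤ 2 * (4 ^ k * sel g k) + (1 / 2) ^ k * V y := by
              gcongr
              exact pow4_ep_le k
    _ = 2 * ∑' k, 4 ^ k * sel g k + (∑' k : ℕ, ((1 : ℝ≥0∞) / 2) ^ k) * V y := by
        rw [ENNReal.tsum_add, ENNReal.tsum_mul_left, ENNReal.tsum_mul_right]
    _ ≤ 2 * (4 * V y) + (∑' k : ℕ, ((1 : ℝ≥0∞) / 2) ^ k) * V y := by
        gcongr
        exact (tsum_sel_le g).trans (by gcongr)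
    _ = (8 + ∑' k : ℕ, ((1 : ℝ≥0∞) / 2) ^ k) * V y := by ring

lemma Dir1.alp_le_V {f : ℝ → ℝ → ℝ} {V : ℝ → ℝ≥0∞} (h : Dir1 f V) :
    ∀ᵐ y ∂mu, ∀ k, ∀ᵐ x ∂mu, alp k f x y ≤ V y := by
  filter_upwards [h.ex] with y hy k
  obtain ⟨g, hg, hfg⟩ := hy
  filter_upwards [alp_congr k hfg, ae_mem_Icc] with x hx hx2
  rw [hx]
  exact (al_le_totalHV _ g hx2).trans hg

lemma Dir1.lintegral_rh_le {f : ℝ → ℝ → ℝ} (hf : Measurable (uncurry f)) {V : ℝ → ℝ≥0∞}
    (h : Dir1 f V) : ∀ᵐ y ∂mu, ∀ k, ∫⁻ x, rh k f x y ∂mu ≤ tau k * V y := by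
  filter_upwards [h.alp_le_V] with y hy k
  have hm : MeasurableSet {x | aq k f y < alp k f x y} := measurableSet_exc k hf y _
  calc ∫⁻ x, rh k f x y ∂mu ≤ ∫⁻ x, indicator {x | aq k f y < alp k f x y} (fun _ => V y) x ∂mu := by
        apply lintegral_mono_ae
        filter_upwards [hy k] with x hx
        unfold rh
        by_cases hc : aq k f y < alp k f x y
        · rw [if_pos hc, indicator_of_mem (show x ∈ {x | aq k f y < alp k f x y} from hc)]
          exact hx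
        · rw [if_neg hc]; exact zero_le
    _ = V y * mu {x | aq k f y < alp k f x y} := lintegral_indicator_const hm _
    _ ≤ V y * tau k := by gcongr; exact mu_qt_lt_le _ _
    _ = tau k * V y := mul_comm _ _

/-- combined bound -/
noncomputable def cc (k : ℕ) (f : ℝ → ℝ → ℝ) (V : ℝ → ℝ≥0∞) (y : ℝ) : ℝ≥0∞ :=
  aq k f y + tt k * V y

lemma measurable_cc (k : ℕ) {f : ℝ → ℝ → ℝ} (hf : Measurable (uncurry f)) {V : ℝ → ℝ≥0∞}
    (hV : Measurable V) : Measurable (cc k f V) :=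
  (measurable_aq k hf).add (hV.const_mul _)

lemma Dir1.lintegral_alp_sq_le {f : ℝ → ℝ → ℝ} (hf : Measurable (uncurry f)) {V : ℝ → ℝ≥0∞}
    (h : Dir1 f V) : ∀ᵐ y ∂mu, ∀ k, ∫⁻ x, alp k f x y ^ 2 ∂mu ≤ cc k f V y ^ 2 := by
  filter_upwards [h.alp_le_V] with y hy k
  have hm : MeasurableSet {x | aq k f y < alp k f x y} := measurableSet_exc k hf y _
  calc ∫⁻ x, alp k f x y ^ 2 ∂mu
      ≤ ∫⁻ x, (aq k f y ^ 2 + indicator {x | aq k f y < alp k f x y} (fun _ => V y ^ 2) x) ∂mu := by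
        apply lintegral_mono_ae
        filter_upwards [hy k] with x hx
        by_cases hc : aq k f y < alp k f x y
        · rw [indicator_of_mem (show x ∈ {x | aq k f y < alp k f x y} from hc)]
          refine le_trans ?_ le_add_self
          gcongr
        · push Not at hc
          refine le_trans ?_ le_self_add
          gcongr
    _ = aq k f y ^ 2 + V y ^ 2 * mu {x | aq k f y < alp k f x y} := by
        rw [lintegral_add_left measurable_const, lintegral_const, measure_univ, mul_one,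
          lintegral_indicator_const hm]
    _ ≤ aq k f y ^ 2 + V y ^ 2 * tt k ^ 2 := by
        gcongr
        exact (mu_qt_lt_le _ _).trans (tau_le_tt_sq k)
    _ ≤ cc k f V y ^ 2 := by
        unfold cc
        have : (aq k f y + tt k * V y) ^ 2 = aq k f y ^ 2 + V y ^ 2 * tt k ^ 2 +
          2 * (aq k f y * (tt k * V y)) := by ring
        rw [this]
        exact le_self_add

/-- Cauchy-Schwarz on a probability space -/
lemma sq_lintegral_le {φ : ℝ → ℝ≥0∞} (hφ : Measurable φ) :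
    (∫⁻ x, φ x ∂mu) ^ 2 ≤ ∫⁻ x, φ x ^ 2 ∂mu := by
  have h := ENNReal.lintegral_mul_le_Lp_mul_Lq mu Real.HolderConjugate.two_two hφ.aemeasurable
    (g := fun _ => 1) measurable_const.aemeasurable
  simp only [Pi.mul_apply, mul_one, ENNReal.one_rpow, lintegral_const, measure_univ] at h
  have h2 : ∀ x, φ x ^ (2 : ℝ) = φ x ^ 2 := fun x => by
    rw [← ENNReal.rpow_natCast]; norm_num
  simp only [h2] at h
  calc (∫⁻ x, φ x ∂mu) ^ 2 ≤ ((∫⁻ x, φ x ^ 2 ∂mu) ^ (1 / (2 : ℝ))) ^ 2 := by gcongr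
    _ = ∫⁻ x, φ x ^ 2 ∂mu := by
        rw [← ENNReal.rpow_natCast, ← ENNReal.rpow_mul]
        norm_num

lemma add_sq_le4 (a b : ℝ≥0∞) : (a + b) ^ 2 ≤ 4 * a ^ 2 + 4 * b ^ 2 := by
  rcases le_total a b with h | h
  · calc (a + b) ^ 2 ≤ (b + b) ^ 2 := by gcongr
      _ = 4 * b ^ 2 := by ring
      _ ≤ _ := le_add_self
  · calc (a + b) ^ 2 ≤ (a + a) ^ 2 := by gcongr
      _ = 4 * a ^ 2 := by ring
      _ ≤ _ := le_self_add

/-- remainder after Fejer smoothing in the first variable -/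
noncomputable def FF (k : ℕ) (f : ℝ → ℝ → ℝ) (x y : ℝ) : ℝ := f x y - op1 (fej (bN k)) f x y

lemma Nice.FF (k : ℕ) {f : ℝ → ℝ → ℝ} (hf : Nice f) : Nice (FF k f) :=
  hf.sub (Nice.op1 (ker_fej _) hf)

lemma enorm_FF_le (k : ℕ) {f : ℝ → ℝ → ℝ} (hf : Nice f) (x y : ℝ) :
    ‖FF k f x y‖ₑ ≤ alp k f x y := by
  have h1 : FF k f x y = ∫ x', fej (bN k) (x - x') * (f x y - f x' y) ∂mu := by
    unfold FF op1
    have e1 : ∀ x', fej (bN k) (x - x') * (f x y - f x' y) =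
        fej (bN k) (x - x') * f x y - fej (bN k) (x - x') * f x' y := by intro x'; ring
    simp only [e1]
    rw [integral_sub _ ((ker_fej _).integrable_mul (hf.int1 y) x), integral_mul_const,
      integral_fej, one_mul]
    exact (integrable_of_continuous (by fun_prop)).mul_const _
  rw [h1]
  unfold alp al
  refine (enorm_integral_le_lintegral_enorm _).trans (lintegral_mono fun x' => ?_)
  rw [enorm_mul, Real.enorm_eq_ofReal (fej_nonneg _ _)]

/-- the maximal error over the `k`-th block -/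
noncomputable def E1 (k : ℕ) (f : ℝ → ℝ → ℝ) (x y : ℝ) : ℝ≥0∞ :=
  (⨆ M : Fin (bN (k + 1)), ‖op1 (dir M) (FF k f) x y‖ₑ) + alp k f x y

lemma measurable_sup1 (k : ℕ) {f : ℝ → ℝ → ℝ} (hf : Nice f) :
    Measurable (uncurry fun x y => ⨆ M : Fin (bN (k + 1)), ‖op1 (dir M) (FF k f) x y‖ₑ) := by
  have : (uncurry fun x y => ⨆ M : Fin (bN (k + 1)), ‖op1 (dir M) (FF k f) x y‖ₑ) =
      fun p : ℝ × ℝ => ⨆ M : Fin (bN (k + 1)), ‖uncurry (op1 (dir M) (FF k f)) p‖ₑ := rfl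
  rw [this]
  exact Measurable.iSup fun M => (measurable_op1 (ker_dir M) (Nice.FF k hf).meas).enorm

lemma measurable_sup1_left (k : ℕ) {f : ℝ → ℝ → ℝ} (hf : Nice f) (y : ℝ) :
    Measurable fun x => ⨆ M : Fin (bN (k + 1)), ‖op1 (dir M) (FF k f) x y‖ₑ := by
  apply Measurable.iSup
  intro M
  exact ((measurable_op1 (ker_dir M) (Nice.FF k hf).meas).comp
    (f := fun x => (x, y)) measurable_prodMk_right).enorm

lemma measurable_E1 (k : ℕ) {f : ℝ → ℝ → ℝ} (hf : Nice f) : Measurable (uncurry (E1 k f)) :=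
  (measurable_sup1 k hf).add (measurable_alp k hf.meas)

lemma enorm_error_le_E1 (k : ℕ) {f : ℝ → ℝ → ℝ} (hf : Nice f) {M : ℕ} (h1 : bN k ≤ M)
    (h2 : M < bN (k + 1)) (x y : ℝ) : ‖op1 (dir M) f x y - f x y‖ₑ ≤ E1 k f x y := by
  have e1 : op1 (dir M) f x y - f x y = op1 (dir M) (FF k f) x y - FF k f x y := by
    have := op1_sub (ker_dir M) hf (Nice.op1 (ker_fej (bN k)) hf) x y
    rw [op1_dir_fej h1 hf] at this
    unfold FF
    rw [this]; ring
  rw [e1, sub_eq_add_neg]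
  refine (enorm_add_le _ _).trans ?_
  rw [enorm_neg]
  unfold E1
  exact add_le_add (le_iSup (fun M : Fin (bN (k + 1)) => ‖op1 (dir M) (FF k f) x y‖ₑ) ⟨M, h2⟩)
    (enorm_FF_le k hf x y)

lemma ksp1 (k : ℕ) {f : ℝ → ℝ → ℝ} (hf : Nice f) (y : ℝ) :
    ∫⁻ x, (⨆ M : Fin (bN (k + 1)), ‖op1 (dir M) (FF k f) x y‖ₑ) ^ 2 ∂mu ≤
      ENNReal.ofReal (3 * bJ k + 4) * ∫⁻ x, alp k f x y ^ 2 ∂mu := by
  have : Nonempty (Fin (bN (k + 1))) := ⟨⟨0, bN_pos _⟩⟩
  have hk := ksp (ι := Fin (bN (k + 1))) mu (fun M x u => dir M (x - u))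
    (fun M => by
      have h := (continuous_dir (M : ℕ)).measurable
      have h2 : Measurable (fun p : ℝ × ℝ => dir M (p.1 - p.2)) := by fun_prop
      exact h2)
    (fun M M' => min M M')
    (fun M M' x x' => by
      show _ = dir ((min M M' : Fin (bN (k+1))) : ℕ) (x - x')
      rw [integral_dir_dir]
      congr 1)
    (fun x x' => kk (bJ k) (x - x'))
    (by
      have h2 : Measurable (fun p : ℝ × ℝ => kk (bJ k) (p.1 - p.2)) := by fun_prop
      exact h2)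
    (fun x x' => by rw [← kk_neg, neg_sub])
    (2 ^ (bJ k + 1)) (fun x x' => kk_le _ _)
    (fun M x x' => abs_dir_le_kk (by rw [← bN_eq]; exact M.2) _)
    (3 * bJ k + 4) (by positivity)
    (by
      filter_upwards [ae_mem_Icc] with x hx
      have h1 := lintegral_kk_le (bJ k) hx
      have hint : Integrable (fun x' => kk (bJ k) (x - x')) mu := by
        apply Integrable.of_bound (C := 2 ^ (bJ k + 1))
        · exact (by fun_prop : Measurable fun x' => kk (bJ k) (x - x')).aestronglyMeasurable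
        · exact ae_of_all _ fun x' => by
            rw [Real.norm_eq_abs, abs_of_nonneg (kk_nonneg _ _)]; exact kk_le _ _
      rw [← ofReal_integral_eq_lintegral_ofReal hint (ae_of_all _ fun x' => kk_nonneg _ _)] at h1
      exact (ENNReal.ofReal_le_ofReal_iff (by positivity)).1 h1)
    (fun x => FF k f x y) ((Nice.FF k hf).meas.comp measurable_prodMk_right)
  refine hk.trans ?_
  gcongr with x
  exact enorm_FF_le k hf x y

lemma Dir1.lintegral_E1_le {f : ℝ → ℝ → ℝ} (hf : Nice f) {V : ℝ → ℝ≥0∞}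
    (h : Dir1 f V) : ∀ᵐ y ∂mu, ∀ k, ∫⁻ x, E1 k f x y ∂mu ≤ 56 * 2 ^ k * cc k f V y := by
  filter_upwards [h.lintegral_alp_sq_le hf.meas] with y hy k
  have hm1 : Measurable (fun x => ⨆ M : Fin (bN (k + 1)), ‖op1 (dir M) (FF k f) x y‖ₑ) :=
    measurable_sup1_left k hf y
  have hm2 : Measurable (fun x => alp k f x y) := measurable_alp_left k hf.meas y
  have hm : Measurable (fun x => E1 k f x y) := hm1.add hm2
  have h1 : (∫⁻ x, E1 k f x y ∂mu) ^ 2 ≤ (56 * 2 ^ k * cc k f V y) ^ 2 := by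
    calc (∫⁻ x, E1 k f x y ∂mu) ^ 2 ≤ ∫⁻ x, E1 k f x y ^ 2 ∂mu := sq_lintegral_le hm
      _ ≤ ∫⁻ x, (4 * (⨆ M : Fin (bN (k + 1)), ‖op1 (dir M) (FF k f) x y‖ₑ) ^ 2 +
            4 * alp k f x y ^ 2) ∂mu := by
          apply lintegral_mono
          intro x
          exact add_sq_le4 _ _
      _ = 4 * ∫⁻ x, (⨆ M : Fin (bN (k + 1)), ‖op1 (dir M) (FF k f) x y‖ₑ) ^ 2 ∂mu +
            4 * ∫⁻ x, alp k f x y ^ 2 ∂mu := by
          rw [lintegral_add_left ((hm1.pow_const 2).const_mul 4),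
            lintegral_const_mul _ (hm1.pow_const 2), lintegral_const_mul _ (hm2.pow_const 2)]
      _ ≤ 4 * (ENNReal.ofReal (3 * bJ k + 4) * cc k f V y ^ 2) + 4 * cc k f V y ^ 2 := by
          gcongr
          · exact (ksp1 k hf y).trans (mul_le_mul' le_rfl (hy k))
          · exact hy k
      _ = ENNReal.ofReal (4 * (3 * bJ k + 4) + 4) * cc k f V y ^ 2 := by
          have e4 : ENNReal.ofReal 4 = 4 := by norm_num
          have e5 : ENNReal.ofReal (4 * (3 * bJ k + 4) + 4) =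
              4 * ENNReal.ofReal (3 * bJ k + 4) + 4 := by
            rw [ENNReal.ofReal_add (by positivity) (by norm_num),
              ENNReal.ofReal_mul (by norm_num), e4]
          rw [e5]
          ring
      _ ≤ ENNReal.ofReal ((56 * 2 ^ k) ^ 2) * cc k f V y ^ 2 := by
          gcongr
          rw [bJ_cast]
          have : (2 : ℝ) ^ k * 2 ^ k = 4 ^ k := by rw [← mul_pow]; norm_num
          have h4 : (1 : ℝ) ≤ 4 ^ k := one_le_pow₀ (by norm_num)
          nlinarith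
      _ = (56 * 2 ^ k * cc k f V y) ^ 2 := by
          rw [ENNReal.ofReal_pow (by positivity), ENNReal.ofReal_mul (by norm_num),
            ENNReal.ofReal_pow (by norm_num), ← mul_pow]
          norm_num
  exact (ENNReal.pow_le_pow_left_iff (by norm_num)).1 h1

end Pool.Agent.HarmV
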