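import Mathlib
import Pool.Agent.MP_7bd4cc_an.Dir

open MeasureTheory Real Set Function
open scoped ENNReal

namespace Pool.Agent.HarmV

lemma meas_left {α : Type*} [MeasurableSpace α] {Φ : ℝ → ℝ → α} (h : Measurable (uncurry Φ))
    (y : ℝ) : Measurable (fun x => Φ x y) :=
  h.comp (g := uncurry Φ) (f := fun x => (x, y)) measurable_prodMk_right

lemma meas_right {α : Type*} [MeasurableSpace α] {Φ : ℝ → ℝ → α} (h : Measurable (uncurry Φ))
    (x : ℝ) : Measurable (fun y => Φ x y) :=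
  h.comp (g := uncurry Φ) (f := fun y => (x, y)) measurable_prodMk_left

lemma meas_flip {α : Type*} [MeasurableSpace α] {Φ : ℝ → ℝ → α} (h : Measurable (uncurry Φ)) :
    Measurable (uncurry (flip Φ)) :=
  h.comp measurable_swap

lemma II_mono {Φ Ψ : ℝ → ℝ → ℝ≥0∞} (h : ∀ x y, Φ x y ≤ Ψ x y) : II Φ ≤ II Ψ := by
  unfold II
  exact lintegral_mono fun x => lintegral_mono fun y => h x y

lemma II_add {Φ Ψ : ℝ → ℝ → ℝ≥0∞} (hΦ : Measurable (uncurry Φ)) :
    II (fun x y => Φ x y + Ψ x y) = II Φ + II Ψ := by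
  unfold II
  have : ∀ x, ∫⁻ y, (Φ x y + Ψ x y) ∂mu = ∫⁻ y, Φ x y ∂mu + ∫⁻ y, Ψ x y ∂mu := fun x =>
    lintegral_add_left (meas_right hΦ x) _
  simp only [this]
  rw [lintegral_add_left]
  exact hΦ.lintegral_prod_right'

lemma II_const_mul {Φ : ℝ → ℝ → ℝ≥0∞} (hΦ : Measurable (uncurry Φ)) (c : ℝ≥0∞) :
    II (fun x y => c * Φ x y) = c * II Φ := by
  unfold II
  have : ∀ x, ∫⁻ y, c * Φ x y ∂mu = c * ∫⁻ y, Φ x y ∂mu := fun x =>
    lintegral_const_mul _ (meas_right hΦ x)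
  simp only [this]
  rw [lintegral_const_mul]
  exact hΦ.lintegral_prod_right'

/-- integrate a bound valid for a.e. `y` -/
lemma II_le_of_ae {Φ : ℝ → ℝ → ℝ≥0∞} (hΦ : Measurable (uncurry Φ)) {c : ℝ → ℝ≥0∞}
    (h : ∀ᵐ y ∂mu, ∫⁻ x, Φ x y ∂mu ≤ c y) : II Φ ≤ ∫⁻ y, c y ∂mu := by
  rw [II_swap hΦ]
  exact lintegral_mono_ae h

section seqs

variable {f : ℝ → ℝ → ℝ} {V : ℝ → ℝ≥0∞}

/-- `γ_k` -/
noncomputable def gam (k : ℕ) (f : ℝ → ℝ → ℝ) (V : ℝ → ℝ≥0∞) : ℝ≥0∞ := ∫⁻ y, cc k f V y ∂mu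

lemma II_E1_le (hf : Nice f) (h : Dir1 f V) (k : ℕ) : II (E1 k f) ≤ 56 * 2 ^ k * gam k f V := by
  have h1 : II (E1 k f) ≤ ∫⁻ y, 56 * 2 ^ k * cc k f V y ∂mu := by
    apply II_le_of_ae (measurable_E1 k hf)
    filter_upwards [h.lintegral_E1_le hf] with y hy
    exact hy k
  refine h1.trans (le_of_eq ?_)
  rw [lintegral_const_mul _ (measurable_cc k hf.meas h.meas)]
  rfl

lemma II_alp_le (hf : Nice f) (h : Dir1 f V) (k : ℕ) : II (alp k f) ≤ gam k f V := by
  apply II_le_of_ae (measurable_alp k hf.meas)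
  filter_upwards [h.lintegral_alp_sq_le hf.meas] with y hy
  refine (ENNReal.pow_le_pow_left_iff (n := 2) (by norm_num)).1 ?_
  exact (sq_lintegral_le (measurable_alp_left k hf.meas y)).trans (hy k)

lemma II_rh_le (hf : Nice f) (h : Dir1 f V) (k : ℕ) : II (rh k f) ≤ tau k * ∫⁻ y, V y ∂mu := by
  have h1 : II (rh k f) ≤ ∫⁻ y, tau k * V y ∂mu := by
    apply II_le_of_ae (measurable_rh k hf.meas)
    filter_upwards [h.lintegral_rh_le hf.meas] with y hy
    exact hy k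
  refine h1.trans (le_of_eq ?_)
  rw [lintegral_const_mul _ h.meas]

lemma lintegral_aq_le (k : ℕ) : ∫⁻ y, aq k f y ∂mu ≤ gam k f V := by
  unfold gam
  apply lintegral_mono
  intro y
  exact le_self_add

lemma tsum_gam_ne_top (hf : Nice f) (h : Dir1 f V) : ∑' k, 4 ^ k * gam k f V ≠ ⊤ := by
  have h1 : ∑' k, 4 ^ k * gam k f V = ∫⁻ y, ∑' k, 4 ^ k * cc k f V y ∂mu := by
    rw [lintegral_tsum fun k => ((measurable_cc k hf.meas h.meas).const_mul _).aemeasurable]
    congr 1; funext k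
    rw [lintegral_const_mul _ (measurable_cc k hf.meas h.meas)]
    rfl
  rw [h1]
  set C : ℝ≥0∞ := (8 + ∑' k : ℕ, ((1 : ℝ≥0∞) / 2) ^ k) +
    ENNReal.ofReal 2 * ∑' k : ℕ, ((1 : ℝ≥0∞) / 2) ^ k with hC
  have hCt : C ≠ ⊤ := by
    have := tsum_half_ne_top
    rw [hC]
    refine ENNReal.add_ne_top.2 ⟨ENNReal.add_ne_top.2 ⟨by norm_num, this⟩,
      ENNReal.mul_ne_top ENNReal.ofReal_ne_top this⟩
  have h2 : ∫⁻ y, ∑' k, 4 ^ k * cc k f V y ∂mu ≤ ∫⁻ y, C * V y ∂mu := by
    apply lintegral_mono_ae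
    filter_upwards [h.tsum_aq_le] with y hy
    calc ∑' k, 4 ^ k * cc k f V y = ∑' k, (4 ^ k * aq k f y + (4 ^ k * tt k) * V y) := by
          congr 1; funext k; unfold cc; ring
      _ = ∑' k, 4 ^ k * aq k f y + (∑' k, 4 ^ k * tt k) * V y := by
          rw [ENNReal.tsum_add, ENNReal.tsum_mul_right]
      _ ≤ (8 + ∑' k : ℕ, ((1 : ℝ≥0∞) / 2) ^ k) * V y +
          (ENNReal.ofReal 2 * ∑' k : ℕ, ((1 : ℝ≥0∞) / 2) ^ k) * V y := by
          refine add_le_add hy (mul_le_mul' ?_ le_rfl)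
          rw [← ENNReal.tsum_mul_left]
          exact ENNReal.tsum_le_tsum fun k => pow4_tt_le k
      _ = C * V y := by rw [hC]; ring
  refine ne_top_of_le_ne_top ?_ h2
  rw [lintegral_const_mul _ h.meas]
  exact ENNReal.mul_ne_top hCt h.int

end seqs

/-! ### the doubly smoothed remainder -/

/-- one-variable smoothing of nonnegative functions -/
noncomputable def lc (k : ℝ → ℝ) (a : ℝ → ℝ≥0∞) (y : ℝ) : ℝ≥0∞ :=
  ∫⁻ y', ENNReal.ofReal (k (y - y')) * a y' ∂mu

lemma measurable_lc {k : ℝ → ℝ} (hk : Measurable k) {a : ℝ → ℝ≥0∞} (ha : Measurable a) :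
    Measurable (lc k a) := by
  have h1 : Measurable (fun p : ℝ × ℝ => ENNReal.ofReal (k (p.1 - p.2)) * a p.2) := by
    fun_prop
  exact h1.lintegral_prod_right'

lemma lintegral_lc_fej (N : ℕ) {a : ℝ → ℝ≥0∞} (ha : Measurable a) :
    ∫⁻ y, lc (fej N) a y ∂mu = ∫⁻ y, a y ∂mu := by
  have hk : Measurable (fej N) := (continuous_fej N).measurable
  unfold lc
  rw [lintegral_lintegral_swap]
  · have : ∀ y', ∫⁻ y, ENNReal.ofReal (fej N (y - y')) * a y' ∂mu = a y' := by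
      intro y'
      rw [lintegral_mul_const, lintegral_fej', one_mul]
      fun_prop
    simp only [this]
  · have h1 : Measurable (fun p : ℝ × ℝ => ENNReal.ofReal (fej N (p.1 - p.2)) * a p.2) := by
      fun_prop
    exact h1.aemeasurable

/-- the doubly smoothed remainder -/
noncomputable def uu (k l : ℕ) (f : ℝ → ℝ → ℝ) (x y : ℝ) : ℝ :=
  FF k f x y - op2 (fej (bN l)) (FF k f) x y

lemma Nice.uu (k l : ℕ) {f : ℝ → ℝ → ℝ} (hf : Nice f) : Nice (uu k l f) :=
  (Nice.FF k hf).sub (Nice.op2 (ker_fej _) (Nice.FF k hf))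

lemma uu_expand (k l : ℕ) {f : ℝ → ℝ → ℝ} (hf : Nice f) (x y : ℝ) :
    uu k l f x y = f x y - op1 (fej (bN k)) f x y - op2 (fej (bN l)) f x y +
      op2 (fej (bN l)) (op1 (fej (bN k)) f) x y := by
  have h1 : op2 (fej (bN l)) (FF k f) x y = op2 (fej (bN l)) f x y -
      op2 (fej (bN l)) (op1 (fej (bN k)) f) x y :=
    op2_sub (ker_fej _) hf (Nice.op1 (ker_fej _) hf) x y
  unfold uu
  rw [h1]
  unfold FF
  ring

lemma uu_symm (k l : ℕ) {f : ℝ → ℝ → ℝ} (hf : Nice f) (x y : ℝ) :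
    uu k l f x y = uu l k (flip f) y x := by
  rw [uu_expand k l hf, uu_expand l k hf.swap]
  have e1 : (flip f) y x = f x y := rfl
  have e2 : op1 (fej (bN l)) (flip f) y x = op2 (fej (bN l)) f x y := rfl
  have e3 : op2 (fej (bN k)) (flip f) y x = op1 (fej (bN k)) f x y := rfl
  have e4 : op2 (fej (bN k)) (op1 (fej (bN l)) (flip f)) y x =
      op1 (fej (bN k)) (op2 (fej (bN l)) f) x y := rfl
  rw [e1, e2, e3, e4, op_comm (ker_fej _) (ker_fej _) hf]
  ring

/-- majorant depending on `y` only -/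
noncomputable def At (k l : ℕ) (f : ℝ → ℝ → ℝ) (y : ℝ) : ℝ≥0∞ :=
  aq k f y + lc (fej (bN l)) (aq k f) y

/-- tiny part of the majorant -/
noncomputable def Pt (k l : ℕ) (f : ℝ → ℝ → ℝ) (x y : ℝ) : ℝ≥0∞ :=
  rh k f x y + lop2 (fej (bN l)) (rh k f) x y

lemma measurable_At (k l : ℕ) {f : ℝ → ℝ → ℝ} (hf : Measurable (uncurry f)) :
    Measurable (At k l f) :=
  (measurable_aq k hf).add (measurable_lc (continuous_fej _).measurable (measurable_aq k hf))

lemma measurable_Pt (k l : ℕ) {f : ℝ → ℝ → ℝ} (hf : Measurable (uncurry f)) :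
    Measurable (uncurry (Pt k l f)) :=
  (measurable_rh k hf).add (measurable_lop2 (continuous_fej _).measurable (measurable_rh k hf))

lemma lintegral_At (k l : ℕ) {f : ℝ → ℝ → ℝ} (hf : Measurable (uncurry f)) {V : ℝ → ℝ≥0∞} :
    ∫⁻ y, At k l f y ∂mu ≤ 2 * gam k f V := by
  unfold At
  rw [lintegral_add_left (measurable_aq k hf), lintegral_lc_fej _ (measurable_aq k hf), two_mul]
  exact add_le_add (lintegral_aq_le k) (lintegral_aq_le k)

lemma II_Pt (k l : ℕ) {f : ℝ → ℝ → ℝ} (hf : Nice f) {V : ℝ → ℝ≥0∞} (h : Dir1 f V) :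
    II (Pt k l f) ≤ 2 * (tau k * ∫⁻ y, V y ∂mu) := by
  unfold Pt
  rw [II_add (measurable_rh k hf.meas), two_mul]
  exact add_le_add (II_rh_le hf h k) ((II_fej2 _ (measurable_rh k hf.meas)).trans (II_rh_le hf h k))

lemma enorm_uu_le (k l : ℕ) {f : ℝ → ℝ → ℝ} (hf : Nice f) (x y : ℝ) :
    ‖uu k l f x y‖ₑ ≤ At k l f y + Pt k l f x y := by
  have h1 : ‖uu k l f x y‖ₑ ≤ alp k f x y + lop2 (fej (bN l)) (alp k f) x y := by
    unfold uu
    rw [sub_eq_add_neg]
    refine (enorm_add_le _ _).trans ?_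
    rw [enorm_neg]
    exact add_le_add (enorm_FF_le k hf x y) (enorm_op2_le (abs_fej _) (enorm_FF_le k hf) x y)
  refine h1.trans ?_
  have h2 : lop2 (fej (bN l)) (alp k f) x y ≤ lc (fej (bN l)) (aq k f) y +
      lop2 (fej (bN l)) (rh k f) x y := by
    unfold lop2 lc
    rw [← lintegral_add_left]
    · apply lintegral_mono
      intro y'
      simp only
      rw [← mul_add]
      exact mul_le_mul' le_rfl (alp_le k f x y')
    · have h1 := (continuous_fej (bN l)).measurable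
      have h2 := measurable_aq k hf.meas
      fun_prop
  calc alp k f x y + lop2 (fej (bN l)) (alp k f) x y
      ≤ (aq k f y + rh k f x y) + (lc (fej (bN l)) (aq k f) y + lop2 (fej (bN l)) (rh k f) x y) :=
        add_le_add (alp_le k f x y) h2
    _ = At k l f y + Pt k l f x y := by unfold At Pt; ring

/-- good part -/
noncomputable def GG (k l : ℕ) (f : ℝ → ℝ → ℝ) (x y : ℝ) : ℝ :=
  if ‖uu k l f x y‖ₑ ^ 2 ≤ 4 * (At k l f y * At l k (flip f) x) then uu k l f x y else 0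

/-- bad part -/
noncomputable def BB (k l : ℕ) (f : ℝ → ℝ → ℝ) (x y : ℝ) : ℝ :=
  if ‖uu k l f x y‖ₑ ^ 2 ≤ 4 * (At k l f y * At l k (flip f) x) then 0 else uu k l f x y

lemma GG_add_BB (k l : ℕ) (f : ℝ → ℝ → ℝ) (x y : ℝ) :
    GG k l f x y + BB k l f x y = uu k l f x y := by
  unfold GG BB
  split_ifs <;> simp

lemma measurableSet_cond (k l : ℕ) {f : ℝ → ℝ → ℝ} (hf : Nice f) :
    MeasurableSet {p : ℝ × ℝ | ‖uu k l f p.1 p.2‖ₑ ^ 2 ≤
      4 * (At k l f p.2 * At l k (flip f) p.1)} := by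
  have h1 : Measurable (fun p : ℝ × ℝ => ‖uu k l f p.1 p.2‖ₑ ^ 2) :=
    ((Nice.uu k l hf).meas.enorm.pow_const 2)
  have h2 : Measurable (fun p : ℝ × ℝ => 4 * (At k l f p.2 * At l k (flip f) p.1)) :=
    (((measurable_At k l hf.meas).comp measurable_snd).mul
      ((measurable_At l k hf.swap.meas).comp measurable_fst)).const_mul 4
  exact measurableSet_le h1 h2

lemma measurable_GG (k l : ℕ) {f : ℝ → ℝ → ℝ} (hf : Nice f) : Measurable (uncurry (GG k l f)) :=
  Measurable.ite (measurableSet_cond k l hf) (Nice.uu k l hf).meas measurable_const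

lemma measurable_BB (k l : ℕ) {f : ℝ → ℝ → ℝ} (hf : Nice f) : Measurable (uncurry (BB k l f)) :=
  Measurable.ite (measurableSet_cond k l hf) measurable_const (Nice.uu k l hf).meas

lemma enorm_GG_sq_le (k l : ℕ) (f : ℝ → ℝ → ℝ) (x y : ℝ) :
    ‖GG k l f x y‖ₑ ^ 2 ≤ 4 * (At k l f y * At l k (flip f) x) := by
  unfold GG
  split_ifs with h
  · exact h
  · simp

lemma enorm_BB_le (k l : ℕ) {f : ℝ → ℝ → ℝ} (hf : Nice f) (x y : ℝ) :
    ‖BB k l f x y‖ₑ ≤ 2 * (Pt k l f x y + Pt l k (flip f) y x) := by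
  unfold BB
  split_ifs with h
  · simp
  · push Not at h
    have h1 := enorm_uu_le k l hf x y
    have h2 := enorm_uu_le l k hf.swap y x
    rw [← uu_symm k l hf] at h2
    set U := ‖uu k l f x y‖ₑ with hU
    set A := At k l f y
    set B := At l k (flip f) x
    set P := Pt k l f x y
    set P' := Pt l k (flip f) y x
    have hUt : U ≠ ⊤ := enorm_ne_top
    by_contra hcon
    push Not at hcon
    -- U > 2 (P + P')
    rcases le_total A B with hAB | hAB
    · have h3 : 4 * (A * A) < U ^ 2 := lt_of_le_of_lt (by gcongr) h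
      have h4 : 2 * A < U := by
        by_contra h5
        push Not at h5
        have : U ^ 2 ≤ (2 * A) ^ 2 := by gcongr
        have h6 : (2 * A) ^ 2 = 4 * (A * A) := by ring
        rw [h6] at this
        exact absurd h3 (not_lt.2 this)
      have h5 : 2 * (P + P') + 2 * A < U + U := ENNReal.add_lt_add hcon h4
      have h6 : U + U ≤ 2 * (P + P') + 2 * A := by
        calc U + U ≤ (A + P) + (A + P) := add_le_add h1 h1
          _ = 2 * P + 2 * A := by ring
          _ ≤ 2 * (P + P') + 2 * A := by gcongr; exact le_self_add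
      exact absurd h5 (not_lt.2 h6)
    · have h3 : 4 * (B * B) < U ^ 2 := lt_of_le_of_lt (by gcongr) h
      have h4 : 2 * B < U := by
        by_contra h5
        push Not at h5
        have : U ^ 2 ≤ (2 * B) ^ 2 := by gcongr
        have h6 : (2 * B) ^ 2 = 4 * (B * B) := by ring
        rw [h6] at this
        exact absurd h3 (not_lt.2 this)
      have h5 : 2 * (P + P') + 2 * B < U + U := ENNReal.add_lt_add hcon h4
      have h6 : U + U ≤ 2 * (P + P') + 2 * B := by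
        calc U + U ≤ (B + P') + (B + P') := add_le_add h2 h2
          _ = 2 * P' + 2 * B := by ring
          _ ≤ 2 * (P + P') + 2 * B := by gcongr; exact le_add_self
      exact absurd h5 (not_lt.2 h6)

end Pool.Agent.HarmV
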