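import Mathlib
import Pool.Agent.MP_7bd4cc_an.TwoD

open MeasureTheory Real Set Function
open scoped ENNReal

namespace Pool.Agent.HarmV

/-- the maximal function of the good part, squared -/
noncomputable def S2 (k l : ℕ) (f : ℝ → ℝ → ℝ) (x y : ℝ) : ℝ≥0∞ :=
  (⨆ MN : Fin (bN (k + 1)) × Fin (bN (l + 1)),
    ‖∫ p, dir MN.1 (x - p.1) * dir MN.2 (y - p.2) * GG k l f p.1 p.2 ∂(mu.prod mu)‖ₑ) ^ 2

/-- majorant for the bad part -/
noncomputable def R2 (k l : ℕ) (f : ℝ → ℝ → ℝ) (x y : ℝ) : ℝ≥0∞ :=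
  lop1 (kk (bJ k)) (lop2 (kk (bJ l)) (fun x y => ‖BB k l f x y‖ₑ)) x y

lemma measurable_S2 (k l : ℕ) {f : ℝ → ℝ → ℝ} (hf : Nice f) : Measurable (uncurry (S2 k l f)) := by
  have hG := measurable_GG k l hf
  have : uncurry (S2 k l f) = fun q : ℝ × ℝ => (⨆ MN : Fin (bN (k + 1)) × Fin (bN (l + 1)),
    ‖∫ p, dir MN.1 (q.1 - p.1) * dir MN.2 (q.2 - p.2) * GG k l f p.1 p.2 ∂(mu.prod mu)‖ₑ) ^ 2 := rfl
  rw [this]
  apply Measurable.pow_const
  apply Measurable.iSup
  intro MN
  have h1 : Measurable (fun z : (ℝ × ℝ) × (ℝ × ℝ) =>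
      dir MN.1 (z.1.1 - z.2.1) * dir MN.2 (z.1.2 - z.2.2) * uncurry (GG k l f) z.2) := by
    have h2 := (continuous_dir (MN.1 : ℕ)).measurable
    have h3 := (continuous_dir (MN.2 : ℕ)).measurable
    fun_prop
  have h2 := h1.stronglyMeasurable.integral_prod_right' (ν := mu.prod mu)
  exact h2.measurable.enorm

lemma measurable_R2 (k l : ℕ) {f : ℝ → ℝ → ℝ} (hf : Nice f) : Measurable (uncurry (R2 k l f)) :=
  measurable_lop1 (measurable_kk _) (measurable_lop2 (measurable_kk _) (measurable_BB k l hf).enorm)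

lemma integral_kk_le (J : ℕ) {x : ℝ} (hx : x ∈ Icc (-π) π) :
    ∫ x', kk J (x - x') ∂mu ≤ 3 * J + 4 := by
  have h1 := lintegral_kk_le J hx
  have hint : Integrable (fun x' => kk J (x - x')) mu := by
    apply Integrable.of_bound (C := 2 ^ (J + 1))
    · exact (by fun_prop : Measurable fun x' => kk J (x - x')).aestronglyMeasurable
    · exact ae_of_all _ fun x' => by
        rw [Real.norm_eq_abs, abs_of_nonneg (kk_nonneg _ _)]; exact kk_le _ _
  rw [← ofReal_integral_eq_lintegral_ofReal hint (ae_of_all _ fun x' => kk_nonneg _ _)] at h1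
  exact (ENNReal.ofReal_le_ofReal_iff (by positivity)).1 h1

lemma ksp2 (k l : ℕ) {f : ℝ → ℝ → ℝ} (hf : Nice f) :
    II (S2 k l f) ≤ ENNReal.ofReal ((3 * bJ k + 4) * (3 * bJ l + 4)) *
      ∫⁻ p, ‖GG k l f p.1 p.2‖ₑ ^ 2 ∂(mu.prod mu) := by
  have : Nonempty (Fin (bN (k + 1)) × Fin (bN (l + 1))) := ⟨⟨0, bN_pos _⟩, ⟨0, bN_pos _⟩⟩
  rw [II_eq_prod (measurable_S2 k l hf)]
  refine ksp (ι := Fin (bN (k + 1)) × Fin (bN (l + 1))) (mu.prod mu)
    (fun MN x u => dir MN.1 (x.1 - u.1) * dir MN.2 (x.2 - u.2))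
    (fun MN => ?_)
    (fun a b => (min a.1 b.1, min a.2 b.2))
    (fun a b x x' => ?_)
    (fun x x' => kk (bJ k) (x.1 - x'.1) * kk (bJ l) (x.2 - x'.2))
    ?_
    (fun x x' => ?_)
    (2 ^ (bJ k + 1) * 2 ^ (bJ l + 1)) (fun x x' => ?_)
    (fun a x x' => ?_)
    ((3 * bJ k + 4) * (3 * bJ l + 4)) (by positivity)
    ?_
    (fun p => GG k l f p.1 p.2) (measurable_GG k l hf)
  · have h2 := (continuous_dir (MN.1 : ℕ)).measurable
    have h3 := (continuous_dir (MN.2 : ℕ)).measurable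
    have h4 : Measurable (fun p : (ℝ × ℝ) × (ℝ × ℝ) =>
      dir MN.1 (p.1.1 - p.2.1) * dir MN.2 (p.1.2 - p.2.2)) := by fun_prop
    exact h4
  · have e1 : ∀ u : ℝ × ℝ, dir a.1 (x.1 - u.1) * dir a.2 (x.2 - u.2) *
        (dir b.1 (x'.1 - u.1) * dir b.2 (x'.2 - u.2)) =
        (dir a.1 (x.1 - u.1) * dir b.1 (x'.1 - u.1)) * (dir a.2 (x.2 - u.2) * dir b.2 (x'.2 - u.2)) := by
      intro u; ring
    simp only [e1]
    rw [integral_prod_mul (fun u => dir a.1 (x.1 - u) * dir b.1 (x'.1 - u))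
      (fun u => dir a.2 (x.2 - u) * dir b.2 (x'.2 - u)), integral_dir_dir, integral_dir_dir]
    rfl
  · have h4 : Measurable (fun p : (ℝ × ℝ) × (ℝ × ℝ) =>
      kk (bJ k) (p.1.1 - p.2.1) * kk (bJ l) (p.1.2 - p.2.2)) := by fun_prop
    exact h4
  · rw [← kk_neg, neg_sub, ← kk_neg (bJ l), neg_sub]
  · exact mul_le_mul (kk_le _ _) (kk_le _ _) (kk_nonneg _ _) (by positivity)
  · rw [abs_mul]
    exact mul_le_mul (abs_dir_le_kk (by rw [← bN_eq]; exact a.1.2) _)
      (abs_dir_le_kk (by rw [← bN_eq]; exact a.2.2) _) (abs_nonneg _) (kk_nonneg _ _)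
  · have h1 : ∀ᵐ p ∂(mu.prod mu), p.1 ∈ Icc (-π) π ∧ p.2 ∈ Icc (-π) π := by
      have ha := (Measure.quasiMeasurePreserving_fst (μ := mu) (ν := mu)).ae ae_mem_Icc
      have hb := (Measure.quasiMeasurePreserving_snd (μ := mu) (ν := mu)).ae ae_mem_Icc
      filter_upwards [ha, hb] with p h1 h2
      exact ⟨h1, h2⟩
    filter_upwards [h1] with p hp
    rw [integral_prod_mul (fun u => kk (bJ k) (p.1 - u)) (fun u => kk (bJ l) (p.2 - u))]
    exact mul_le_mul (integral_kk_le _ hp.1) (integral_kk_le _ hp.2)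
      (integral_nonneg fun _ => kk_nonneg _ _) (by positivity)

lemma kap_le (k : ℕ) : ENNReal.ofReal (3 * bJ k + 4) ≤ 772 * 4 ^ k := by
  rw [show (772 : ℝ≥0∞) * 4 ^ k = ENNReal.ofReal (772 * 4 ^ k) by
    rw [ENNReal.ofReal_mul (by norm_num), ENNReal.ofReal_pow (by norm_num)]; norm_num]
  apply ENNReal.ofReal_le_ofReal
  rw [bJ_cast]
  have h4 : (1 : ℝ) ≤ 4 ^ k := one_le_pow₀ (by norm_num)
  linarith

lemma lintegral_GG_le (k l : ℕ) {f : ℝ → ℝ → ℝ} (hf : Nice f) {V W : ℝ → ℝ≥0∞} :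
    ∫⁻ p, ‖GG k l f p.1 p.2‖ₑ ^ 2 ∂(mu.prod mu) ≤ 16 * (gam k f V * gam l (flip f) W) := by
  have hA := measurable_At k l hf.meas
  have hB := measurable_At l k hf.swap.meas
  calc ∫⁻ p, ‖GG k l f p.1 p.2‖ₑ ^ 2 ∂(mu.prod mu)
      ≤ ∫⁻ p : ℝ × ℝ, 4 * (At l k (flip f) p.1 * At k l f p.2) ∂(mu.prod mu) := by
        apply lintegral_mono
        intro p
        simp only
        refine (enorm_GG_sq_le k l f p.1 p.2).trans (le_of_eq ?_)
        ring
    _ = 4 * ((∫⁻ x, At l k (flip f) x ∂mu) * ∫⁻ y, At k l f y ∂mu) := by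
        rw [lintegral_const_mul, lintegral_prod_mul hB.aemeasurable hA.aemeasurable]
        exact (hB.comp measurable_fst).mul (hA.comp measurable_snd)
    _ ≤ 4 * ((2 * gam l (flip f) W) * (2 * gam k f V)) := by
        gcongr
        · exact lintegral_At l k hf.swap.meas
        · exact lintegral_At k l hf.meas
    _ = 16 * (gam k f V * gam l (flip f) W) := by ring

lemma II_S2_le (k l : ℕ) {f : ℝ → ℝ → ℝ} (hf : Nice f) {V W : ℝ → ℝ≥0∞} :
    II (S2 k l f) ≤ (772 * 772 * 16) * ((4 ^ k * gam k f V) * (4 ^ l * gam l (flip f) W)) := by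
  refine (ksp2 k l hf).trans ?_
  rw [ENNReal.ofReal_mul (by positivity)]
  calc _ ≤ ((772 * 4 ^ k) * (772 * 4 ^ l)) * (16 * (gam k f V * gam l (flip f) W)) := by
        gcongr
        · exact kap_le k
        · exact kap_le l
        · exact lintegral_GG_le k l hf
    _ = _ := by ring

lemma II_R2_le (k l : ℕ) {f : ℝ → ℝ → ℝ} (hf : Nice f) {V W : ℝ → ℝ≥0∞} (h : Dir1 f V)
    (h' : Dir1 (flip f) W) :
    II (R2 k l f) ≤ (772 * 772 * 4) * (4 ^ k * 4 ^ l *
      (tau k * (∫⁻ y, V y ∂mu) + tau l * ∫⁻ x, W x ∂mu)) := by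
  have hB : Measurable (uncurry fun x y => ‖BB k l f x y‖ₑ) := (measurable_BB k l hf).enorm
  have h1 : II (R2 k l f) ≤ ENNReal.ofReal (3 * bJ k + 4) * (ENNReal.ofReal (3 * bJ l + 4) *
      II (fun x y => ‖BB k l f x y‖ₑ)) := by
    refine (II_kk1 _ (measurable_lop2 (measurable_kk _) hB)).trans ?_
    exact mul_le_mul' le_rfl (II_kk2 _ hB)
  refine h1.trans ?_
  have hP := measurable_Pt k l hf.meas
  have hP' := measurable_Pt l k hf.swap.meas
  have h2 : II (fun x y => ‖BB k l f x y‖ₑ) ≤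
      2 * (2 * (tau k * ∫⁻ y, V y ∂mu) + 2 * (tau l * ∫⁻ x, W x ∂mu)) := by
    calc II (fun x y => ‖BB k l f x y‖ₑ)
        ≤ II (fun x y => 2 * (Pt k l f x y + Pt l k (flip f) y x)) :=
          II_mono fun x y => enorm_BB_le k l hf x y
      _ = 2 * (II (Pt k l f) + II (flip (Pt l k (flip f)))) := by
          have hPP : Measurable (uncurry fun x y => Pt k l f x y + Pt l k (flip f) y x) :=
            hP.add (meas_flip hP')
          rw [II_const_mul hPP, II_add hP]
          rfl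
      _ ≤ _ := by
          rw [II_flip hP']
          gcongr
          · exact II_Pt k l hf h
          · exact II_Pt l k hf.swap h'
  calc _ ≤ (772 * 4 ^ k) * ((772 * 4 ^ l) *
        (2 * (2 * (tau k * ∫⁻ y, V y ∂mu) + 2 * (tau l * ∫⁻ x, W x ∂mu)))) := by
        gcongr
        · exact kap_le k
        · exact kap_le l
    _ = _ := by ring

/-- remaining error in the middle region -/
noncomputable def TT (k l : ℕ) (f : ℝ → ℝ → ℝ) (x y : ℝ) : ℝ≥0∞ :=
  R2 k l f x y + (lop1 (fej (bN k)) (flip (E1 l (flip f))) x y +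
    (lop2 (fej (bN l)) (E1 k f) x y + (alp l (flip f) y x +
      lop1 (fej (bN k)) (flip (alp l (flip f))) x y)))

lemma measurable_TT (k l : ℕ) {f : ℝ → ℝ → ℝ} (hf : Nice f) : Measurable (uncurry (TT k l f)) := by
  have hk : Measurable (fej (bN k)) := (continuous_fej _).measurable
  have hl : Measurable (fej (bN l)) := (continuous_fej _).measurable
  have h1 := measurable_R2 k l hf
  have h2 := measurable_lop1 hk (meas_flip (measurable_E1 l hf.swap))
  have h3 := measurable_lop2 hl (measurable_E1 k hf)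
  have h4 := meas_flip (measurable_alp l hf.swap.meas)
  have h5 := measurable_lop1 hk (meas_flip (measurable_alp l hf.swap.meas))
  exact h1.add (h2.add (h3.add (h4.add h5)))

lemma II_TT_le (k l : ℕ) {f : ℝ → ℝ → ℝ} (hf : Nice f) {V W : ℝ → ℝ≥0∞} (h : Dir1 f V)
    (h' : Dir1 (flip f) W) :
    II (TT k l f) ≤ (772 * 772 * 4) * (4 ^ k * 4 ^ l *
      (tau k * (∫⁻ y, V y ∂mu) + tau l * ∫⁻ x, W x ∂mu)) +
      (56 * 2 ^ k * gam k f V + 58 * 2 ^ l * gam l (flip f) W) := by
  have hk : Measurable (fej (bN k)) := (continuous_fej _).measurable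
  have hl : Measurable (fej (bN l)) := (continuous_fej _).measurable
  have h1 := measurable_R2 k l hf
  have h2 := measurable_lop1 hk (meas_flip (measurable_E1 l hf.swap))
  have h3 := measurable_lop2 hl (measurable_E1 k hf)
  have h4 := meas_flip (measurable_alp l hf.swap.meas)
  have h5 := measurable_lop1 hk (meas_flip (measurable_alp l hf.swap.meas))
  have e : II (TT k l f) = II (R2 k l f) + (II (lop1 (fej (bN k)) (flip (E1 l (flip f)))) +
    (II (lop2 (fej (bN l)) (E1 k f)) + (II (flip (alp l (flip f))) +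
      II (lop1 (fej (bN k)) (flip (alp l (flip f))))))) := by
    unfold TT
    rw [II_add h1, II_add h2, II_add h3]
    congr 3
    exact II_add h4
  rw [e]
  have b1 := II_R2_le k l hf h h'
  have b2 : II (lop1 (fej (bN k)) (flip (E1 l (flip f)))) ≤ 56 * 2 ^ l * gam l (flip f) W := by
    refine (II_fej1 _ (meas_flip (measurable_E1 l hf.swap))).trans ?_
    rw [II_flip (measurable_E1 l hf.swap)]
    exact II_E1_le hf.swap h' l
  have b3 : II (lop2 (fej (bN l)) (E1 k f)) ≤ 56 * 2 ^ k * gam k f V :=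
    (II_fej2 _ (measurable_E1 k hf)).trans (II_E1_le hf h k)
  have b4 : II (flip (alp l (flip f))) ≤ gam l (flip f) W := by
    rw [II_flip (measurable_alp l hf.swap.meas)]
    exact II_alp_le hf.swap h' l
  have b5 : II (lop1 (fej (bN k)) (flip (alp l (flip f)))) ≤ gam l (flip f) W :=
    (II_fej1 _ h4).trans b4
  refine (add_le_add b1 (add_le_add b2 (add_le_add b3 (add_le_add b4 b5)))).trans ?_
  refine add_le_add le_rfl ?_
  calc 56 * 2 ^ l * gam l (flip f) W + (56 * 2 ^ k * gam k f V +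
        (gam l (flip f) W + gam l (flip f) W))
      = 56 * 2 ^ k * gam k f V + (56 * 2 ^ l * gam l (flip f) W + 2 * 1 * gam l (flip f) W) := by ring
    _ ≤ 56 * 2 ^ k * gam k f V + (56 * 2 ^ l * gam l (flip f) W + 2 * 2 ^ l * gam l (flip f) W) := by
        gcongr
        exact one_le_pow₀ (by norm_num)
    _ = _ := by ring

/-! ### pointwise bounds -/

lemma mid_bound (k l : ℕ) {f : ℝ → ℝ → ℝ} (hf : Nice f) {M N : ℕ} (hM1 : bN k ≤ M)
    (hM2 : M < bN (k + 1)) (hN1 : bN l ≤ N) (hN2 : N < bN (l + 1)) (x y : ℝ) {e : ℝ≥0∞}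
    (he : S2 k l f x y ≤ e ^ 2) :
    ‖op1 (dir M) (op2 (dir N) f) x y - f x y‖ₑ ≤ e + TT k l f x y := by
  have kM := ker_dir M
  have kN := ker_dir N
  have kk' := ker_fej (bN k)
  have kl := ker_fej (bN l)
  set H1 := op1 (fej (bN k)) f with hH1
  set H2 := op2 (fej (bN l)) f with hH2
  have nH1 : Nice H1 := Nice.op1 kk' hf
  have nH2 : Nice H2 := Nice.op2 kl hf
  have nu := Nice.uu k l hf
  -- decomposition of `S u`
  have e0 : (fun a b => uu k l f a b) = fun a b => (f a b - H1 a b) - (H2 a b - op2 (fej (bN l)) H1 a b) := by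
    funext a b
    rw [uu_expand k l hf]
    ring
  have n12 : Nice (op2 (fej (bN l)) H1) := Nice.op2 kl nH1
  have e1 : op1 (dir M) (op2 (dir N) (uu k l f)) x y =
      (op1 (dir M) (op2 (dir N) f) x y - op2 (dir N) H1 x y) -
      (op1 (dir M) H2 x y - op2 (fej (bN l)) H1 x y) := by
    have a1 : op2 (dir N) (uu k l f) = fun a b => (op2 (dir N) f a b - op2 (dir N) H1 a b) -
        (H2 a b - op2 (fej (bN l)) H1 a b) := by
      funext a b
      have : op2 (dir N) (uu k l f) a b = op2 (dir N) (fun a b => (f a b - H1 a b) -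
        (H2 a b - op2 (fej (bN l)) H1 a b)) a b := by rw [← e0]
      rw [this, op2_sub kN (hf.sub nH1) (nH2.sub n12), op2_sub kN hf nH1, op2_sub kN nH2 n12]
      rw [op2_dir_fej hN1 hf, op2_dir_fej hN1 nH1]
    rw [a1]
    have n1 := Nice.op2 kN hf
    have n2 := Nice.op2 kN nH1
    rw [op1_sub kM (n1.sub n2) (nH2.sub n12), op1_sub kM n1 n2, op1_sub kM nH2 n12]
    have b1 : op1 (dir M) (op2 (dir N) H1) = op2 (dir N) H1 := by
      rw [op_comm kM kN nH1, hH1, op1_dir_fej hM1 hf]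
    have b2 : op1 (dir M) (op2 (fej (bN l)) H1) = op2 (fej (bN l)) H1 := by
      rw [op_comm kM kl nH1, hH1, op1_dir_fej hM1 hf]
    rw [b1, b2]
  -- smoothed errors
  have e2 : op2 (dir N) H1 x y - H1 x y = op1 (fej (bN k)) (fun a b => op2 (dir N) f a b - f a b) x y := by
    rw [op1_sub kk' (Nice.op2 kN hf) hf, op_comm kk' kN hf]
  have e3 : op1 (dir M) H2 x y - H2 x y = op2 (fej (bN l)) (fun a b => op1 (dir M) f a b - f a b) x y := by
    rw [op2_sub kl (Nice.op1 kM hf) hf, ← op_comm kM kl hf]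
  have e4 : H1 x y - op2 (fej (bN l)) H1 x y = op1 (fej (bN k)) (fun a b => f a b - op2 (fej (bN l)) f a b) x y := by
    rw [op1_sub kk' hf (Nice.op2 kl hf), op_comm kk' kl hf]
  have e5 : op1 (dir M) (op2 (dir N) f) x y - f x y =
      op1 (dir M) (op2 (dir N) (uu k l f)) x y +
      (op1 (fej (bN k)) (fun a b => op2 (dir N) f a b - f a b) x y +
      (op2 (fej (bN l)) (fun a b => op1 (dir M) f a b - f a b) x y +
      (-(FF l (flip f) y x) + op1 (fej (bN k)) (fun a b => f a b - op2 (fej (bN l)) f a b) x y))) := by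
    have : FF l (flip f) y x = f x y - H2 x y := rfl
    rw [this, e1, ← e2, ← e3, ← e4]
    ring
  -- the maximal part
  have e6 : op1 (dir M) (op2 (dir N) (uu k l f)) x y =
      ∫ p, dir M (x - p.1) * dir N (y - p.2) * GG k l f p.1 p.2 ∂(mu.prod mu) +
      ∫ p, dir M (x - p.1) * dir N (y - p.2) * BB k l f p.1 p.2 ∂(mu.prod mu) := by
    have hi := integrable_kk kM kN nu x y
    have hG : Integrable (fun p : ℝ × ℝ => dir M (x - p.1) * dir N (y - p.2) * GG k l f p.1 p.2)
        (mu.prod mu) := by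
      apply hi.mono
      · have h1 := measurable_GG k l hf
        have h2 := (continuous_dir M).measurable
        have h3 := (continuous_dir N).measurable
        have : Measurable (fun p : ℝ × ℝ => dir M (x - p.1) * dir N (y - p.2) * uncurry (GG k l f) p) := by
          fun_prop
        exact this.aestronglyMeasurable
      · refine ae_of_all _ fun p => ?_
        rw [norm_mul, norm_mul _ (uu k l f p.1 p.2)]
        gcongr
        unfold GG
        split_ifs
        · exact le_rfl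
        · simp
    have hB : Integrable (fun p : ℝ × ℝ => dir M (x - p.1) * dir N (y - p.2) * BB k l f p.1 p.2)
        (mu.prod mu) := by
      apply hi.mono
      · have h1 := measurable_BB k l hf
        have h2 := (continuous_dir M).measurable
        have h3 := (continuous_dir N).measurable
        have : Measurable (fun p : ℝ × ℝ => dir M (x - p.1) * dir N (y - p.2) * uncurry (BB k l f) p) := by
          fun_prop
        exact this.aestronglyMeasurable
      · refine ae_of_all _ fun p => ?_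
        rw [norm_mul, norm_mul _ (uu k l f p.1 p.2)]
        gcongr
        unfold BB
        split_ifs
        · simp
        · exact le_rfl
    rw [op1_op2 kM kN nu, ← integral_add hG hB]
    congr 1; funext p
    rw [← mul_add, GG_add_BB]
  have b1 : ‖∫ p, dir M (x - p.1) * dir N (y - p.2) * GG k l f p.1 p.2 ∂(mu.prod mu)‖ₑ ≤ e := by
    refine (ENNReal.pow_le_pow_left_iff (n := 2) (by norm_num)).1 (le_trans ?_ he)
    unfold S2
    gcongr
    exact le_iSup (fun MN : Fin (bN (k + 1)) × Fin (bN (l + 1)) =>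
      ‖∫ p, dir MN.1 (x - p.1) * dir MN.2 (y - p.2) * GG k l f p.1 p.2 ∂(mu.prod mu)‖ₑ)
      (⟨M, hM2⟩, ⟨N, hN2⟩)
  have b2 : ‖∫ p, dir M (x - p.1) * dir N (y - p.2) * BB k l f p.1 p.2 ∂(mu.prod mu)‖ₑ ≤
      R2 k l f x y := by
    have hBm := measurable_BB k l hf
    have hkk1 := measurable_kk (bJ k)
    have hkk2 := measurable_kk (bJ l)
    calc ‖∫ p, dir M (x - p.1) * dir N (y - p.2) * BB k l f p.1 p.2 ∂(mu.prod mu)‖ₑ
        ≤ ∫⁻ p, ‖dir M (x - p.1) * dir N (y - p.2) * BB k l f p.1 p.2‖ₑ ∂(mu.prod mu) :=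
          enorm_integral_le_lintegral_enorm _
      _ ≤ ∫⁻ p, ENNReal.ofReal (kk (bJ k) (x - p.1)) * (ENNReal.ofReal (kk (bJ l) (y - p.2)) *
            ‖uncurry (BB k l f) p‖ₑ) ∂(mu.prod mu) := by
          apply lintegral_mono
          intro p
          simp only
          rw [enorm_mul, enorm_mul, mul_assoc, Real.enorm_eq_ofReal_abs (dir M _),
            Real.enorm_eq_ofReal_abs (dir N _)]
          gcongr
          · exact abs_dir_le_kk (by rw [← bN_eq]; exact hM2) _
          · exact abs_dir_le_kk (by rw [← bN_eq]; exact hN2) _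
          · exact le_rfl
      _ = R2 k l f x y := by
          rw [lintegral_prod]
          · unfold R2 lop1 lop2
            congr 1; funext x'
            show ∫⁻ y', ENNReal.ofReal (kk (bJ k) (x - x')) * (ENNReal.ofReal (kk (bJ l) (y - y')) *
              ‖BB k l f x' y'‖ₑ) ∂mu = _
            rw [lintegral_const_mul]
            · have h1 := meas_right hBm x'
              have : Measurable (fun y' => ENNReal.ofReal (kk (bJ l) (y - y')) * ‖BB k l f x' y'‖ₑ) := by
                fun_prop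
              exact this
          · have : Measurable (fun p : ℝ × ℝ => ENNReal.ofReal (kk (bJ k) (x - p.1)) *
              (ENNReal.ofReal (kk (bJ l) (y - p.2)) * ‖uncurry (BB k l f) p‖ₑ)) := by
              fun_prop
            exact this.aemeasurable
  rw [e5, e6]
  have c1 : ‖op1 (fej (bN k)) (fun a b => op2 (dir N) f a b - f a b) x y‖ₑ ≤
      lop1 (fej (bN k)) (flip (E1 l (flip f))) x y := by
    refine enorm_op1_le (abs_fej _) (Φ := flip (E1 l (flip f))) (fun a b => ?_) x y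
    exact enorm_error_le_E1 l hf.swap hN1 hN2 b a
  have c2 : ‖op2 (fej (bN l)) (fun a b => op1 (dir M) f a b - f a b) x y‖ₑ ≤
      lop2 (fej (bN l)) (E1 k f) x y :=
    enorm_op2_le (abs_fej _) (fun a b => enorm_error_le_E1 k hf hM1 hM2 a b) x y
  have c3 : ‖-(FF l (flip f) y x)‖ₑ ≤ alp l (flip f) y x := by
    rw [enorm_neg]; exact enorm_FF_le l hf.swap y x
  have c4 : ‖op1 (fej (bN k)) (fun a b => f a b - op2 (fej (bN l)) f a b) x y‖ₑ ≤
      lop1 (fej (bN k)) (flip (alp l (flip f))) x y := by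
    refine enorm_op1_le (abs_fej _) (Φ := flip (alp l (flip f))) (fun a b => ?_) x y
    exact enorm_FF_le l hf.swap b a
  unfold TT
  refine (enorm_add_le _ _).trans ?_
  refine le_trans ?_ (add_assoc _ _ _).le
  refine add_le_add ((enorm_add_le _ _).trans (add_le_add b1 b2)) ?_
  refine (enorm_add_le _ _).trans (add_le_add c1 ?_)
  refine (enorm_add_le _ _).trans (add_le_add c2 ?_)
  exact (enorm_add_le _ _).trans (add_le_add c3 c4)

/-- majorant for the lopsided region -/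
noncomputable def T1 (k : ℕ) (f : ℝ → ℝ → ℝ) (x y : ℝ) : ℝ≥0∞ :=
  lop2 (kk (bJ (k / 2))) (E1 k f) x y

lemma measurable_T1 (k : ℕ) {f : ℝ → ℝ → ℝ} (hf : Nice f) : Measurable (uncurry (T1 k f)) :=
  measurable_lop2 (measurable_kk _) (measurable_E1 k hf)

lemma II_T1_le (k : ℕ) {f : ℝ → ℝ → ℝ} (hf : Nice f) {V : ℝ → ℝ≥0∞} (h : Dir1 f V) :
    II (T1 k f) ≤ (772 * 56) * (4 ^ k * gam k f V) := by
  refine (II_kk2 _ (measurable_E1 k hf)).trans ?_
  have h1 : ENNReal.ofReal (3 * bJ (k / 2) + 4) ≤ 772 * 2 ^ k := by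
    refine (kap_le _).trans ?_
    refine mul_le_mul' le_rfl ?_
    calc (4 : ℝ≥0∞) ^ (k / 2) = 2 ^ (2 * (k / 2)) := by rw [pow_mul]; norm_num
      _ ≤ 2 ^ k := pow_le_pow_right₀ (by norm_num) (by omega)
  calc _ ≤ (772 * 2 ^ k) * (56 * 2 ^ k * gam k f V) := mul_le_mul' h1 (II_E1_le hf h k)
    _ = (772 * 56) * ((2 ^ k * 2 ^ k) * gam k f V) := by ring
    _ = _ := by rw [← mul_pow]; norm_num

lemma bN_mono {k l : ℕ} (h : k ≤ l) : bN k ≤ bN l := by
  unfold bN gQ
  apply Nat.pow_le_pow_right (by norm_num)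
  apply Nat.pow_le_pow_right (by norm_num)
  omega

lemma lop_bound (k l : ℕ) {f : ℝ → ℝ → ℝ} (hf : Nice f) {M N : ℕ} (hM1 : bN k ≤ M)
    (hM2 : M < bN (k + 1)) (hN1 : bN l ≤ N) (hN2 : N < bN (l + 1)) (hkl : 2 * l < k) (x y : ℝ) :
    ‖op1 (dir M) (op2 (dir N) f) x y - f x y‖ₑ ≤ T1 k f x y + E1 l (flip f) y x := by
  have kM := ker_dir M
  have kN := ker_dir N
  have e1 : op1 (dir M) (op2 (dir N) f) x y - f x y =
      op2 (dir N) (fun a b => op1 (dir M) f a b - f a b) x y + (op2 (dir N) f x y - f x y) := by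
    rw [op2_sub kN (Nice.op1 kM hf) hf, op_comm kM kN hf]; ring
  rw [e1]
  refine (enorm_add_le _ _).trans (add_le_add ?_ ?_)
  · refine enorm_op2_le (fun t => ?_) (fun a b => enorm_error_le_E1 k hf hM1 hM2 a b) x y
    apply abs_dir_le_kk
    rw [← bN_eq]
    exact lt_of_lt_of_le hN2 (bN_mono (by omega))
  · exact enorm_error_le_E1 l hf.swap hN1 hN2 y x

end Pool.Agent.HarmV
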