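import Mathlib
import Pool.Agent.MP_7bd4cc_an.TwoD2

open MeasureTheory Real Set Function Filter
open scoped ENNReal

namespace Pool.Agent.HarmV

/-- the middle region -/
def mid (p : ℕ × ℕ) : Prop := p.1 ≤ 2 * p.2 ∧ p.2 ≤ 2 * p.1

instance : DecidablePred mid := fun p => by unfold mid; infer_instance

lemma tsum_mid_le (G H : ℕ → ℝ≥0∞) :
    ∑' p : ℕ × ℕ, (if mid p then G p.1 + H p.2 else 0) ≤
      ∑' k, 2 ^ (k + 1) * G k + ∑' l, 2 ^ (l + 1) * H l := by
  have hcard : ∀ (k : ℕ) (c : ℝ≥0∞), ∑' l : ℕ, (if l ≤ 2 * k then c else 0) ≤ 2 ^ (k + 1) * c := by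
    intro k c
    have h1 : ∑' l : ℕ, (if l ≤ 2 * k then c else 0) = ∑ l ∈ Finset.range (2 * k + 1), c := by
      rw [tsum_eq_sum (s := Finset.range (2 * k + 1))]
      · apply Finset.sum_congr rfl
        intro l hl
        rw [Finset.mem_range] at hl
        rw [if_pos (by omega)]
      · intro l hl
        rw [Finset.mem_range] at hl
        rw [if_neg (by omega)]
    rw [h1, Finset.sum_const, Finset.card_range, nsmul_eq_mul]
    refine mul_le_mul' ?_ le_rfl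
    have h2 : ∀ k : ℕ, 2 * k + 1 ≤ 2 ^ (k + 1) := by
      intro k
      induction k with
      | zero => norm_num
      | succ k ih => rw [pow_succ]; omega
    exact_mod_cast h2 k
  calc ∑' p : ℕ × ℕ, (if mid p then G p.1 + H p.2 else 0)
      ≤ ∑' p : ℕ × ℕ, ((if p.2 ≤ 2 * p.1 then G p.1 else 0) + (if p.1 ≤ 2 * p.2 then H p.2 else 0)) := by
        refine ENNReal.tsum_le_tsum fun p => ?_
        by_cases hp : mid p
        · rw [if_pos hp, if_pos hp.2, if_pos hp.1]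
        · rw [if_neg hp]; exact zero_le
    _ = (∑' p : ℕ × ℕ, (if p.2 ≤ 2 * p.1 then G p.1 else 0)) +
          ∑' p : ℕ × ℕ, (if p.1 ≤ 2 * p.2 then H p.2 else 0) := ENNReal.tsum_add
    _ = (∑' k : ℕ, ∑' l : ℕ, (if l ≤ 2 * k then G k else 0)) +
          ∑' l : ℕ, ∑' k : ℕ, (if k ≤ 2 * l then H l else 0) := by
        congr 1
        · exact ENNReal.tsum_prod (f := fun k l => if l ≤ 2 * k then G k else 0)
        · rw [ENNReal.tsum_comm]
          exact ENNReal.tsum_prod (f := fun k l => if k ≤ 2 * l then H l else 0)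
    _ ≤ ∑' k, 2 ^ (k + 1) * G k + ∑' l, 2 ^ (l + 1) * H l :=
        add_le_add (ENNReal.tsum_le_tsum fun k => hcard k _) (ENNReal.tsum_le_tsum fun l => hcard l _)

section

variable {f : ℝ → ℝ → ℝ} {V W : ℝ → ℝ≥0∞}

/-- majorant depending on the first index -/
noncomputable def GK (f : ℝ → ℝ → ℝ) (V : ℝ → ℝ≥0∞) (k : ℕ) : ℝ≥0∞ :=
  (772 * 772 * 4) * (64 ^ k * tau k * ∫⁻ y, V y ∂mu) + 58 * 2 ^ k * gam k f V

lemma tsum_GK (hf : Nice f) (h : Dir1 f V) : ∑' k, 2 ^ (k + 1) * GK f V k ≠ ⊤ := by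
  have h1 : ∀ k, 2 ^ (k + 1) * GK f V k ≤
      (772 * 772 * 4 * 2 * ENNReal.ofReal 3 * ∫⁻ y, V y ∂mu) * (1 / 2) ^ k +
        116 * (4 ^ k * gam k f V) := by
    intro k
    unfold GK
    have h2 : (2 : ℝ≥0∞) ^ k * (1 / 4) ^ k = (1 / 2) ^ k := by
      rw [← mul_pow]
      congr 1
      rw [show (4 : ℝ≥0∞) = 2 * 2 by norm_num, one_div, one_div, ENNReal.mul_inv (by simp) (by simp),
        ← mul_assoc, ENNReal.mul_inv_cancel (by simp) (by simp), one_mul]
    have h3 : (2 : ℝ≥0∞) ^ k * 2 ^ k = 4 ^ k := by rw [← mul_pow]; norm_num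
    calc 2 ^ (k + 1) * ((772 * 772 * 4) * (64 ^ k * tau k * ∫⁻ y, V y ∂mu) + 58 * 2 ^ k * gam k f V)
        = (772 * 772 * 4 * 2 * ∫⁻ y, V y ∂mu) * (2 ^ k * (64 ^ k * tau k)) +
          116 * ((2 ^ k * 2 ^ k) * gam k f V) := by ring
      _ ≤ (772 * 772 * 4 * 2 * ∫⁻ y, V y ∂mu) * (2 ^ k * (ENNReal.ofReal 3 * (1 / 4) ^ k)) +
          116 * ((2 ^ k * 2 ^ k) * gam k f V) := by
          exact add_le_add (mul_le_mul' le_rfl (mul_le_mul' le_rfl (pow64_tau_le k))) le_rfl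
      _ = (772 * 772 * 4 * 2 * ENNReal.ofReal 3 * ∫⁻ y, V y ∂mu) * (2 ^ k * (1 / 4) ^ k) +
          116 * ((2 ^ k * 2 ^ k) * gam k f V) := by ring
      _ = _ := by rw [h2, h3]
  refine ne_top_of_le_ne_top ?_ (ENNReal.tsum_le_tsum h1)
  rw [ENNReal.tsum_add, ENNReal.tsum_mul_left, ENNReal.tsum_mul_left]
  refine ENNReal.add_ne_top.2 ⟨ENNReal.mul_ne_top ?_ tsum_half_ne_top,
    ENNReal.mul_ne_top (by norm_num) (tsum_gam_ne_top hf h)⟩
  exact ENNReal.mul_ne_top (ENNReal.mul_ne_top (by norm_num) ENNReal.ofReal_ne_top) h.int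

lemma II_TT_mid (hf : Nice f) (h : Dir1 f V) (h' : Dir1 (flip f) W) (p : ℕ × ℕ) (hp : mid p) :
    II (TT p.1 p.2 f) ≤ GK f V p.1 + GK (flip f) W p.2 := by
  refine (II_TT_le p.1 p.2 hf h h').trans ?_
  obtain ⟨k, l⟩ := p
  simp only [mid] at hp
  simp only
  have h1 : (4 : ℝ≥0∞) ^ k * 4 ^ l ≤ 64 ^ k := by
    calc (4 : ℝ≥0∞) ^ k * 4 ^ l ≤ 4 ^ k * 4 ^ (2 * k) := by
          gcongr
          · norm_num
          · exact hp.2
      _ = 64 ^ k := by rw [pow_mul, ← mul_pow]; norm_num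
  have h2 : (4 : ℝ≥0∞) ^ k * 4 ^ l ≤ 64 ^ l := by
    calc (4 : ℝ≥0∞) ^ k * 4 ^ l ≤ 4 ^ (2 * l) * 4 ^ l := by
          gcongr
          · norm_num
          · exact hp.1
      _ = 64 ^ l := by rw [pow_mul, ← mul_pow]; norm_num
  unfold GK
  calc 772 * 772 * 4 * (4 ^ k * 4 ^ l * (tau k * ∫⁻ y, V y ∂mu + tau l * ∫⁻ x, W x ∂mu)) +
        (56 * 2 ^ k * gam k f V + 58 * 2 ^ l * gam l (flip f) W)
      = (772 * 772 * 4 * ((4 ^ k * 4 ^ l) * tau k * ∫⁻ y, V y ∂mu) + 56 * 2 ^ k * gam k f V) +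
        (772 * 772 * 4 * ((4 ^ k * 4 ^ l) * tau l * ∫⁻ x, W x ∂mu) +
          58 * 2 ^ l * gam l (flip f) W) := by ring
    _ ≤ _ := by
        gcongr
        norm_num

/-- if the double integrals are summable, the terms tend to `0` a.e. -/
lemma ae_tendsto_zero {ι : Type*} [Countable ι] (Φ : ι → ℝ → ℝ → ℝ≥0∞)
    (hΦ : ∀ i, Measurable (uncurry (Φ i))) (h : ∑' i, II (Φ i) ≠ ⊤) :
    ∀ᵐ p ∂(mu.prod mu), Tendsto (fun i => Φ i p.1 p.2) cofinite (nhds 0) := by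
  have h1 : ∫⁻ p, ∑' i, Φ i p.1 p.2 ∂(mu.prod mu) ≠ ⊤ := by
    rw [lintegral_tsum (f := fun i (p : ℝ × ℝ) => Φ i p.1 p.2) fun i => (hΦ i).aemeasurable]
    have : ∀ i, ∫⁻ p, Φ i p.1 p.2 ∂(mu.prod mu) = II (Φ i) := fun i => (II_eq_prod (hΦ i)).symm
    simp only [this]
    exact h
  have hm : Measurable (fun p : ℝ × ℝ => ∑' i, Φ i p.1 p.2) := by
    exact Measurable.ennreal_tsum fun i => hΦ i
  filter_upwards [ae_lt_top hm h1] with p hp
  exact ENNReal.tendsto_cofinite_zero_of_tsum_ne_top hp.ne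

lemma exists_block (K M : ℕ) (hM : bN K ≤ M) : ∃ k, K ≤ k ∧ bN k ≤ M ∧ M < bN (k + 1) := by
  have hub : ∃ j, M < bN j := by
    refine ⟨M, ?_⟩
    unfold bN gQ
    calc M < 4 ^ M := Nat.lt_pow_self (by norm_num)
      _ ≤ 4 ^ (M + 1 + 1) := Nat.pow_le_pow_right (by norm_num) (by omega)
      _ < 16 ^ (4 ^ (M + 1 + 1)) := Nat.lt_pow_self (by norm_num)
  classical
  have h1 := Nat.find_spec hub
  have h2 : K < Nat.find hub := by
    by_contra hcon
    push Not at hcon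
    have := bN_mono hcon
    omega
  obtain ⟨k, hk⟩ : ∃ k, Nat.find hub = k + 1 := ⟨Nat.find hub - 1, by omega⟩
  refine ⟨k, by omega, ?_, by rw [← hk]; exact h1⟩
  have := Nat.find_min hub (m := k) (by omega)
  push Not at this
  exact this

theorem main_nice (hf : Nice f) (h : Dir1 f V) (h' : Dir1 (flip f) W) :
    ∀ᵐ p ∂(mu.prod mu), Tendsto (fun MN : ℕ × ℕ => op1 (dir MN.1) (op2 (dir MN.2) f) p.1 p.2)
      atTop (nhds (f p.1 p.2)) := by
  -- the summable families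
  have s1 : ∑' p : ℕ × ℕ, II (S2 p.1 p.2 f) ≠ ⊤ := by
    refine ne_top_of_le_ne_top ?_ (ENNReal.tsum_le_tsum fun p : ℕ × ℕ =>
      II_S2_le p.1 p.2 hf (V := V) (W := W))
    rw [ENNReal.tsum_mul_left]
    refine ENNReal.mul_ne_top (by norm_num) ?_
    rw [ENNReal.tsum_prod (f := fun k l => 4 ^ k * gam k f V * (4 ^ l * gam l (flip f) W))]
    simp only [ENNReal.tsum_mul_left, ENNReal.tsum_mul_right]
    exact ENNReal.mul_ne_top (tsum_gam_ne_top hf h) (tsum_gam_ne_top hf.swap h')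
  have s2 : ∑' p : ℕ × ℕ, II (fun x y => if mid p then TT p.1 p.2 f x y else 0) ≠ ⊤ := by
    have hle : ∀ p : ℕ × ℕ, II (fun x y => if mid p then TT p.1 p.2 f x y else 0) ≤
        if mid p then GK f V p.1 + GK (flip f) W p.2 else 0 := by
      intro p
      by_cases hp : mid p
      · simp only [if_pos hp]
        exact II_TT_mid hf h h' p hp
      · simp only [if_neg hp]
        simp [II]
    refine ne_top_of_le_ne_top ?_ (ENNReal.tsum_le_tsum hle)
    refine ne_top_of_le_ne_top ?_ (tsum_mid_le _ _)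
    exact ENNReal.add_ne_top.2 ⟨tsum_GK hf h, tsum_GK hf.swap h'⟩
  have s3 : ∀ {g : ℝ → ℝ → ℝ} {U : ℝ → ℝ≥0∞}, Nice g → Dir1 g U → ∑' k, II (T1 k g) ≠ ⊤ := by
    intro g U hg hU
    refine ne_top_of_le_ne_top ?_ (ENNReal.tsum_le_tsum fun k => II_T1_le k hg hU)
    rw [ENNReal.tsum_mul_left]
    exact ENNReal.mul_ne_top (by norm_num) (tsum_gam_ne_top hg hU)
  have s4 : ∀ {g : ℝ → ℝ → ℝ} {U : ℝ → ℝ≥0∞}, Nice g → Dir1 g U → ∑' k, II (E1 k g) ≠ ⊤ := by
    intro g U hg hU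
    have : ∀ k, II (E1 k g) ≤ 56 * (4 ^ k * gam k g U) := by
      intro k
      refine (II_E1_le hg hU k).trans ?_
      rw [mul_assoc]
      gcongr
      norm_num
    refine ne_top_of_le_ne_top ?_ (ENNReal.tsum_le_tsum this)
    rw [ENNReal.tsum_mul_left]
    exact ENNReal.mul_ne_top (by norm_num) (tsum_gam_ne_top hg hU)
  have a1 := ae_tendsto_zero (fun p : ℕ × ℕ => S2 p.1 p.2 f) (fun p => measurable_S2 _ _ hf) s1
  have a2 := ae_tendsto_zero (fun p : ℕ × ℕ => fun x y => if mid p then TT p.1 p.2 f x y else 0)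
    (fun p => by
      by_cases hp : mid p
      · simp only [if_pos hp]; exact measurable_TT _ _ hf
      · simp only [if_neg hp]; exact measurable_const) s2
  have a3 := ae_tendsto_zero (fun k => T1 k f) (fun k => measurable_T1 k hf) (s3 hf h)
  have a4 := ae_tendsto_zero (fun k => flip (T1 k (flip f)))
    (fun k => meas_flip (measurable_T1 k hf.swap)) (by
      have : ∀ k, II (flip (T1 k (flip f))) = II (T1 k (flip f)) := fun k =>
        II_flip (measurable_T1 k hf.swap)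
      simp only [this]
      exact s3 hf.swap h')
  have a5 := ae_tendsto_zero (fun k => E1 k f) (fun k => measurable_E1 k hf) (s4 hf h)
  have a6 := ae_tendsto_zero (fun k => flip (E1 k (flip f)))
    (fun k => meas_flip (measurable_E1 k hf.swap)) (by
      have : ∀ k, II (flip (E1 k (flip f))) = II (E1 k (flip f)) := fun k =>
        II_flip (measurable_E1 k hf.swap)
      simp only [this]
      exact s4 hf.swap h')
  filter_upwards [a1, a2, a3, a4, a5, a6] with p b1 b2 b3 b4 b5 b6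
  obtain ⟨x, y⟩ := p
  simp only at b1 b2 b3 b4 b5 b6 ⊢
  rw [tendsto_iff_edist_tendsto_0, ENNReal.tendsto_nhds_zero]
  intro ε hε
  -- choose thresholds
  set e := ε / 2 with he
  have he0 : 0 < e := ENNReal.half_pos hε.ne'
  have hadd : e + e = ε := ENNReal.add_halves ε
  have he2 : 0 < e ^ 2 := by positivity
  have c1 : {q : ℕ × ℕ | ¬ S2 q.1 q.2 f x y ≤ e ^ 2}.Finite := by
    have := (ENNReal.tendsto_nhds_zero.1 b1) (e ^ 2) he2
    exact this
  have c2 : {q : ℕ × ℕ | ¬ (if mid q then TT q.1 q.2 f x y else 0) ≤ e}.Finite :=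
    (ENNReal.tendsto_nhds_zero.1 b2) e he0
  have c3 : {k : ℕ | ¬ T1 k f x y ≤ e}.Finite := (ENNReal.tendsto_nhds_zero.1 b3) e he0
  have c4 : {k : ℕ | ¬ T1 k (flip f) y x ≤ e}.Finite := (ENNReal.tendsto_nhds_zero.1 b4) e he0
  have c5 : {k : ℕ | ¬ E1 k f x y ≤ e}.Finite := (ENNReal.tendsto_nhds_zero.1 b5) e he0
  have c6 : {k : ℕ | ¬ E1 k (flip f) y x ≤ e}.Finite := (ENNReal.tendsto_nhds_zero.1 b6) e he0
  have hbd : ∀ {s : Set ℕ}, s.Finite → ∃ K, ∀ k ∈ s, k < K := by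
    intro s hs
    obtain ⟨K, hK⟩ := hs.bddAbove
    exact ⟨K + 1, fun k hk => Nat.lt_succ_of_le (hK hk)⟩
  obtain ⟨K1, hK1⟩ := hbd (c1.image Prod.fst)
  obtain ⟨K2, hK2⟩ := hbd (c2.image Prod.fst)
  obtain ⟨K3, hK3⟩ := hbd c3
  obtain ⟨K4, hK4⟩ := hbd c4
  obtain ⟨K5, hK5⟩ := hbd c5
  obtain ⟨K6, hK6⟩ := hbd c6
  set K := K1 + K2 + K3 + K4 + K5 + K6 with hK
  rw [eventually_atTop]
  refine ⟨(bN K, bN K), ?_⟩
  rintro ⟨M, N⟩ hMN
  simp only [Prod.mk_le_mk] at hMN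
  obtain ⟨k, hk, hM1, hM2⟩ := exists_block K M hMN.1
  obtain ⟨l, hl, hN1, hN2⟩ := exists_block K N hMN.2
  simp only
  rw [edist_eq_enorm_sub]
  have d3 : T1 k f x y ≤ e := by
    by_contra hc; have := hK3 k hc; omega
  have d4 : T1 l (flip f) y x ≤ e := by
    by_contra hc; have := hK4 l hc; omega
  have d5 : E1 k f x y ≤ e := by
    by_contra hc; have := hK5 k hc; omega
  have d6 : E1 l (flip f) y x ≤ e := by
    by_contra hc; have := hK6 l hc; omega
  by_cases hm : mid (k, l)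
  · have d1 : S2 k l f x y ≤ e ^ 2 := by
      by_contra hc
      have := hK1 k ⟨(k, l), hc, rfl⟩
      omega
    have d2 : TT k l f x y ≤ e := by
      by_contra hc
      have := hK2 k ⟨(k, l), by simp only [Set.mem_ofPred_eq, if_pos hm]; exact hc, rfl⟩
      omega
    calc _ ≤ e + TT k l f x y := mid_bound k l hf hM1 hM2 hN1 hN2 x y d1
      _ ≤ e + e := by gcongr
      _ = ε := hadd
  · simp only [mid, not_and_or, not_le] at hm
    rcases hm with hm | hm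
    · calc _ ≤ T1 k f x y + E1 l (flip f) y x := lop_bound k l hf hM1 hM2 hN1 hN2 hm x y
        _ ≤ e + e := by gcongr
        _ = ε := hadd
    · have hL := lop_bound l k hf.swap hN1 hN2 hM1 hM2 hm y x
      have e1 : op1 (dir N) (op2 (dir M) (flip f)) y x = op1 (dir M) (op2 (dir N) f) x y := by
        have : op1 (dir N) (op2 (dir M) (flip f)) y x = op2 (dir N) (op1 (dir M) f) x y := rfl
        rw [this, op_comm (ker_dir M) (ker_dir N) hf]
      rw [e1] at hL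
      calc _ ≤ T1 l (flip f) y x + E1 k (flip (flip f)) x y := hL
        _ ≤ e + e := by gcongr; exact d5
        _ = ε := hadd

end

end Pool.Agent.HarmV
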