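import Mathlib
import Pool.Agent.MP_7bd4cc_an.Defs2
import Pool.Agent.MP_7bd4cc_an.Final

open MeasureTheory Real Set Function Filter
open scoped ENNReal

namespace Pool.Agent.HarmV

lemma prod_mu : mu.prod mu = ENNReal.ofReal (1 / (4 * π ^ 2)) • (volume.restrict Q) := by
  rw [mu, Measure.prod_smul_left, Measure.prod_smul_right, smul_smul, Measure.prod_restrict,
    ← Measure.volume_eq_prod, ← ENNReal.ofReal_mul (by positivity)]
  congr 2
  have := Real.pi_pos
  field_simp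
  norm_num

lemma ae_prod_mu_iff {p : ℝ × ℝ → Prop} :
    (∀ᵐ x ∂(mu.prod mu), p x) ↔ ∀ᵐ x ∂(volume.restrict Q), p x := by
  have h : ENNReal.ofReal (1 / (4 * π ^ 2)) ≠ 0 := by
    simp only [ne_eq, ENNReal.ofReal_eq_zero, not_le]
    have := Real.pi_pos
    positivity
  rw [prod_mu, Filter.Eventually, Measure.ae_ennreal_smul_measure_eq h]
  rfl

lemma integral_prod_mu (F : ℝ × ℝ → ℂ) :
    ∫ p, F p ∂(mu.prod mu) = (4 * (π : ℂ) ^ 2)⁻¹ * ∫ p in Q, F p := by
  rw [prod_mu, integral_smul_measure, ENNReal.toReal_ofReal (by positivity)]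
  rw [Complex.real_smul]
  congr 1
  push_cast
  rw [one_div]

lemma sum_exp_Icc (M : ℕ) (t : ℝ) :
    ∑ j ∈ Finset.Icc (-(M : ℤ)) (M : ℤ), Complex.exp (Complex.I * ((j : ℂ) * (t : ℂ))) =
      (dir M t : ℂ) := by
  induction M with
  | zero => simp [dir_zero]
  | succ M ih =>
    have h1 : Finset.Icc (-((M + 1 : ℕ) : ℤ)) ((M + 1 : ℕ) : ℤ) =
        insert (((M + 1 : ℕ) : ℤ)) (insert (-((M + 1 : ℕ) : ℤ)) (Finset.Icc (-(M : ℤ)) (M : ℤ))) := by
      ext j
      simp only [Finset.mem_Icc, Finset.mem_insert]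
      push_cast
      omega
    rw [h1, Finset.sum_insert, Finset.sum_insert, ih, dir_succ]
    · push_cast
      have h2 : (2 : ℂ) * Complex.cos (((M : ℂ) + 1) * t) =
          Complex.exp (((M : ℂ) + 1) * t * Complex.I) + Complex.exp (-(((M : ℂ) + 1) * t) * Complex.I) :=
        Complex.two_cos _
      rw [h2]
      have e1 : Complex.I * (((M : ℂ) + 1) * t) = ((M : ℂ) + 1) * t * Complex.I := by ring
      rw [e1]
      have e3 : Complex.I * ((-1 + -(M : ℂ)) * t) = -(((M : ℂ) + 1) * t) * Complex.I := by ring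
      simp only [e3, neg_add_rev]
      ring
    · simp only [Finset.mem_Icc]
      push_cast
      omega
    · simp only [Finset.mem_Icc, Finset.mem_insert]
      push_cast
      omega

/-- the rectangular partial sums as iterated convolutions -/
lemma rectSum_eq {f : ℝ × ℝ → ℝ} {g : ℝ → ℝ → ℝ} (hg : Nice g)
    (hfg : ∀ᵐ p ∂(mu.prod mu), f p = g p.1 p.2) (M N : ℕ) (p : ℝ × ℝ) :
    rectSum f M N p = ((op1 (dir M) (op2 (dir N) g) p.1 p.2 : ℝ) : ℂ) := by
  have hint : Integrable f (mu.prod mu) := hg.int.congr (by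
    filter_upwards [hfg] with q hq
    rw [hq]; rfl)
  have hint' : Integrable (fun q => (f q : ℂ)) (mu.prod mu) := hint.ofReal
  have hcoef : ∀ j k : ℤ, fourierCoeff2 f j k =
      ∫ q, (f q : ℂ) * Complex.exp (-Complex.I * ((j : ℂ) * (q.1 : ℂ) + (k : ℂ) * (q.2 : ℂ)))
        ∂(mu.prod mu) := by
    intro j k
    rw [integral_prod_mu]
    rfl
  have hterm : ∀ j k : ℤ, fourierCoeff2 f j k *
      Complex.exp (Complex.I * ((j : ℂ) * (p.1 : ℂ) + (k : ℂ) * (p.2 : ℂ))) =
      ∫ q, (f q : ℂ) * (Complex.exp (Complex.I * ((j : ℂ) * ((p.1 - q.1 : ℝ) : ℂ))) *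
        Complex.exp (Complex.I * ((k : ℂ) * ((p.2 - q.2 : ℝ) : ℂ)))) ∂(mu.prod mu) := by
    intro j k
    rw [hcoef, ← integral_mul_const]
    congr 1
    funext q
    rw [mul_assoc, ← Complex.exp_add, ← Complex.exp_add]
    congr 2
    push_cast
    ring
  have hI : ∀ j k : ℤ, Integrable (fun q : ℝ × ℝ =>
      (f q : ℂ) * (Complex.exp (Complex.I * ((j : ℂ) * ((p.1 - q.1 : ℝ) : ℂ))) *
        Complex.exp (Complex.I * ((k : ℂ) * ((p.2 - q.2 : ℝ) : ℂ))))) (mu.prod mu) := by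
    intro j k
    apply Integrable.mul_bdd (c := 1) hint'
    · apply Continuous.aestronglyMeasurable
      fun_prop
    · refine ae_of_all _ fun q => ?_
      rw [← Complex.exp_add, Complex.norm_exp]
      simp
  unfold rectSum
  simp only [hterm]
  rw [Finset.sum_congr rfl fun j _ => (integral_finsetSum _ fun k _ => hI j k).symm]
  rw [← integral_finsetSum _ fun j _ => integrable_finsetSum _ fun k _ => hI j k]
  rw [op1_op2 (ker_dir M) (ker_dir N) hg, ← integral_complex_ofReal]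
  apply integral_congr_ae
  filter_upwards [hfg] with q hq
  rw [hq, Complex.ofReal_mul, Complex.ofReal_mul]
  rw [← sum_exp_Icc M (p.1 - q.1), ← sum_exp_Icc N (p.2 - q.2), Finset.sum_mul_sum, mul_comm,
    Finset.mul_sum]
  apply Finset.sum_congr rfl
  intro j _
  rw [Finset.mul_sum]

/-- a nice representative -/
lemma exists_nice {f : ℝ × ℝ → ℝ} (hf : IntegrableOn f Q) :
    ∃ g : ℝ → ℝ → ℝ, Nice g ∧ ∀ᵐ p ∂(mu.prod mu), f p = g p.1 p.2 := by
  have hf1 : Integrable f (mu.prod mu) := by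
    rw [prod_mu]
    exact hf.smul_measure ENNReal.ofReal_ne_top
  set g := hf1.aestronglyMeasurable.mk f with hgdef
  have hgm : StronglyMeasurable g := hf1.aestronglyMeasurable.stronglyMeasurable_mk
  have hgf : f =ᵐ[mu.prod mu] g := hf1.aestronglyMeasurable.ae_eq_mk
  have hgi : Integrable g (mu.prod mu) := hf1.congr hgf
  set X0 : Set ℝ := {x | Integrable (fun y => g (x, y)) mu} with hX0
  set Y0 : Set ℝ := {y | Integrable (fun x => g (x, y)) mu} with hY0
  have hX0m : MeasurableSet X0 :=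
    measurableSet_integrable (f := fun x y => g (x, y)) hgm
  have hY0m : MeasurableSet Y0 :=
    measurableSet_integrable (f := fun y x => g (x, y)) (hgm.comp_measurable measurable_swap)
  have hXa : ∀ᵐ x ∂mu, x ∈ X0 := hgi.prod_right_ae
  have hYa : ∀ᵐ y ∂mu, y ∈ Y0 := hgi.prod_left_ae
  have hXa' : ∀ᵐ p ∂(mu.prod mu), p.1 ∈ X0 :=
    (Measure.quasiMeasurePreserving_fst (μ := mu) (ν := mu)).ae hXa
  have hYa' : ∀ᵐ p ∂(mu.prod mu), p.2 ∈ Y0 :=
    (Measure.quasiMeasurePreserving_snd (μ := mu) (ν := mu)).ae hYa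
  have hm : Measurable ((X0 ×ˢ Y0).indicator g) := hgm.measurable.indicator (hX0m.prod hY0m)
  refine ⟨fun x y => (X0 ×ˢ Y0).indicator g (x, y), ⟨hm, ?_, ?_, ?_⟩, ?_⟩
  · exact hgi.indicator (hX0m.prod hY0m)
  · intro y
    by_cases hy : y ∈ Y0
    · have : (fun x => (X0 ×ˢ Y0).indicator g (x, y)) = X0.indicator (fun x => g (x, y)) := by
        funext x
        by_cases hx : x ∈ X0
        · rw [indicator_of_mem hx, indicator_of_mem (show (x, y) ∈ X0 ×ˢ Y0 from ⟨hx, hy⟩)]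
        · rw [indicator_of_notMem hx,
            indicator_of_notMem (show (x, y) ∉ X0 ×ˢ Y0 from fun h => hx h.1)]
      rw [this]
      exact (show Integrable (fun x => g (x, y)) mu from hy).indicator hX0m
    · have : (fun x => (X0 ×ˢ Y0).indicator g (x, y)) = fun _ => 0 := by
        funext x
        rw [indicator_of_notMem (show (x, y) ∉ X0 ×ˢ Y0 from fun h => hy h.2)]
      rw [this]
      exact integrable_zero _ _ _
  · intro x
    by_cases hx : x ∈ X0
    · have : (fun y => (X0 ×ˢ Y0).indicator g (x, y)) = Y0.indicator (fun y => g (x, y)) := by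
        funext y
        by_cases hy : y ∈ Y0
        · rw [indicator_of_mem hy, indicator_of_mem (show (x, y) ∈ X0 ×ˢ Y0 from ⟨hx, hy⟩)]
        · rw [indicator_of_notMem hy,
            indicator_of_notMem (show (x, y) ∉ X0 ×ˢ Y0 from fun h => hy h.2)]
      rw [this]
      exact (show Integrable (fun y => g (x, y)) mu from hx).indicator hY0m
    · have : (fun y => (X0 ×ˢ Y0).indicator g (x, y)) = fun _ => 0 := by
        funext y
        rw [indicator_of_notMem (show (x, y) ∉ X0 ×ˢ Y0 from fun h => hx h.1)]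
      rw [this]
      exact integrable_zero _ _ _
  · filter_upwards [hgf, hXa', hYa'] with p h1 h2 h3
    rw [h1, indicator_of_mem (show (p.1, p.2) ∈ X0 ×ˢ Y0 from ⟨h2, h3⟩)]

lemma exists_dir1 {f f₁ : ℝ × ℝ → ℝ} {g : ℝ → ℝ → ℝ}
    (hfg : ∀ᵐ p ∂(mu.prod mu), f p = g p.1 p.2)
    (h0 : ∀ᵐ p ∂(mu.prod mu), f₁ p = f p)
    (hm : AEMeasurable (fun y => totalHV (-π) π fun x => f₁ (x, y)) (volume.restrict (Icc (-π) π)))
    (hi : ∫⁻ y in Icc (-π) π, totalHV (-π) π (fun x => f₁ (x, y)) < ⊤) :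
    ∃ V : ℝ → ℝ≥0∞, Dir1 g V := by
  refine ⟨hm.mk _, ⟨hm.measurable_mk, ?_, ?_⟩⟩
  · have h1 : ∫⁻ y, hm.mk _ y ∂mu = ENNReal.ofReal (1 / (2 * π)) *
        ∫⁻ y in Icc (-π) π, totalHV (-π) π (fun x => f₁ (x, y)) := by
      rw [mu, lintegral_smul_measure, smul_eq_mul]
      congr 1
      exact lintegral_congr_ae hm.ae_eq_mk.symm
    rw [h1]
    exact ENNReal.mul_ne_top ENNReal.ofReal_ne_top hi.ne
  · have h1 : ∀ᵐ y ∂mu, totalHV (-π) π (fun x => f₁ (x, y)) = hm.mk _ y := by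
      rw [ae_mu_iff]
      exact hm.ae_eq_mk
    have h2 : ∀ᵐ p ∂(mu.prod mu), f₁ p = g p.1 p.2 := by
      filter_upwards [hfg, h0] with p a b
      rw [b, a]
    have h3 : ∀ᵐ y ∂mu, ∀ᵐ x ∂mu, f₁ (x, y) = g x y := by
      have h4 : ∀ᵐ p ∂(mu.prod mu), f₁ p.swap = g p.swap.1 p.swap.2 := by
        have hs : Measure.map Prod.swap (mu.prod mu) = mu.prod mu := Measure.prod_swap
        rw [← hs] at h2
        exact ae_of_ae_map measurable_swap.aemeasurable h2
      exact Measure.ae_ae_of_ae_prod h4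
    filter_upwards [h1, h3] with y h5 h6
    refine ⟨fun x => f₁ (x, y), h5.le, ?_⟩
    filter_upwards [h6] with x hx
    exact hx.symm

/-- For `f` in `V^1_{H,1}` the rectangular partial sums converge to `f` almost everywhere. -/
theorem main (f : ℝ × ℝ → ℝ) (hf : MemV1H1 f) :
    ∀ᵐ p ∂(volume.restrict Q),
      Tendsto (fun MN : ℕ × ℕ => rectSum f MN.1 MN.2 p) atTop (nhds (f p : ℂ)) := by
  obtain ⟨g, hg, hfg⟩ := exists_nice hf.integrable
  obtain ⟨f₁, h1, -, h1m, h1i⟩ := hf.first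
  obtain ⟨f₂, h2, -, h2m, h2i⟩ := hf.second
  obtain ⟨V, hV⟩ := exists_dir1 hfg (ae_prod_mu_iff.2 h1) h1m h1i
  have hsw : ∀ {p : ℝ × ℝ → Prop}, (∀ᵐ q ∂(mu.prod mu), p q) →
      ∀ᵐ q ∂(mu.prod mu), p q.swap := by
    intro p hp
    have hs : Measure.map Prod.swap (mu.prod mu) = mu.prod mu := Measure.prod_swap
    rw [← hs] at hp
    exact ae_of_ae_map measurable_swap.aemeasurable hp
  obtain ⟨W, hW⟩ : ∃ W : ℝ → ℝ≥0∞, Dir1 (flip g) W := by
    apply exists_dir1 (f := fun p => f p.swap) (f₁ := fun p => f₂ p.swap) (g := flip g)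
    · exact hsw hfg
    · exact hsw (ae_prod_mu_iff.2 h2)
    · exact h2m
    · exact h2i
  have hmain := main_nice hg hV hW
  rw [← ae_prod_mu_iff]
  filter_upwards [hmain, hfg] with p hp hq
  rw [hq]
  have : (fun MN : ℕ × ℕ => rectSum f MN.1 MN.2 p) =
      fun MN : ℕ × ℕ => ((op1 (dir MN.1) (op2 (dir MN.2) g) p.1 p.2 : ℝ) : ℂ) := by
    funext MN
    exact rectSum_eq hg hfg _ _ p
  rw [this]
  exact (Complex.continuous_ofReal.tendsto _).comp hp

end Pool.Agent.HarmV
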